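import Pool.Agent.H4.VR.Op2
import Pool.Agent.H4.VG.Op2

set_option autoImplicit false
set_option linter.unusedSectionVars false
set_option linter.unusedVariables false

/-! The classification of the countable rings of the class. -/

namespace Pool.Agent.H4.VR

open Pool.Agent.H4.VG (fl fl_none fl_some fl_eq)

/-- the classification, for countable rings -/
theorem class_iso {α β : Type} [Countable α] [Countable β] [CommRing α] [CommRing β] [RC α]
    [RC β] (h : FR (ro α)) (h' : FR (ro β)) {r : ℕ → Wd α} {r' : ℕ → Wd β}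
    (hr : Rep (bb α) r) (hr' : Rep (bb β) r')
    (hA : ∀ x y, Adj (bb α) (r x) (r y) ↔ Adj (bb β) (r' x) (r' y))
    (h1 : fl (D1 (ro α)) = fl (D1 (ro β))) (h3 : fl (D2 (ro α)) = fl (D2 (ro β))) :
    Nonempty (α ≃+* β) := by
  have mono : ∀ (κ : Cardinal.{0}) (n m : ℕ), n ≤ m → (m : Cardinal) ≤ κ → (n : Cardinal) ≤ κ :=
    fun κ n m hnm hm => le_trans (by exact_mod_cast hnm) hm
  have m1 : ∀ (R : Type) [CommRing R] [RC R] (n m : ℕ), n ≤ m → D1 (ro R) m →
      D1 (ro R) n := by
    intro R _ _ n m hnm
    rw [D1_iff, D1_iff]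
    exact mono _ n m hnm
  have m2 : ∀ (R : Type) [CommRing R] [RC R] (n m : ℕ), n ≤ m → D2 (ro R) m →
      D2 (ro R) n := by
    intro R _ _ n m hnm
    rw [D2_iff, D2_iff]
    exact mono _ n m hnm
  have k1 : ∀ (R : Type) [CommRing R] [RC R] [Countable R], Countable (Wd R ⧸ SP (bb R)) ∧
      Countable (Zd R ⧸ SQ (bb R)) := by
    intro R _ _ _
    constructor
    · have h1 : Function.Surjective (cl : NN R → Wd R) := cl_surj
      have : Countable (Wd R) := h1.countable
      exact (Submodule.Quotient.mk_surjective (SP (bb R))).countable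
    · have h1 : Function.Injective (el : Zd R → NN R) := fun a b => el_inj
      have : Countable (Zd R) := h1.countable
      exact (Submodule.Quotient.mk_surjective (SQ (bb R))).countable
  have := (k1 α).1
  have := (k1 α).2
  have := (k1 β).1
  have := (k1 β).2
  obtain ⟨φ, ψ, hφ⟩ := classify h.nice.nice h'.nice.nice hr hr'
    (fun x y => Adj (bb α) (r x) (r y)) (fun x y => Iff.rfl) hA
    (rank_eq fun n => by
      rw [← D1_iff, ← D1_iff]
      exact fl_eq (m1 α) (m1 β) h1 n)
    (rank_eq fun n => by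
      rw [← D2_iff, ← D2_iff]
      exact fl_eq (m2 α) (m2 β) h3 n)
  exact ring_iso φ ψ hφ

end Pool.Agent.H4.VR
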