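import Pool.Agent.H4.VR.Cls
import Pool.Graph.R_seed8.TH686.FO.Rec

set_option autoImplicit false
set_option linter.unusedSectionVars false
set_option linter.unusedVariables false

/-! Definability in the language of rings. -/

namespace Pool.Agent.H4.VR

open FirstOrder FirstOrder.Language
open Pool.Agent.W889.FO
open Pool.Agent.W889.FO.StA (FD.all1 FD.ex1)

/-- the operations of a structure in the language of rings -/
def rop (S : Language.ring.Structure ℕ) : RO ℕ where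
  add a b := @Structure.funMap Language.ring ℕ S 2 ringFunc.add ![a, b]
  mul a b := @Structure.funMap Language.ring ℕ S 2 ringFunc.mul ![a, b]
  neg a := @Structure.funMap Language.ring ℕ S 1 ringFunc.neg ![a]
  zero := @Structure.funMap Language.ring ℕ S 0 ringFunc.zero ![]
  one := @Structure.funMap Language.ring ℕ S 0 ringFunc.one ![]

/-- the relational language -/
abbrev LR : FirstOrder.Language.{0, 0} := St0.LF Language.ring

/-- the operations -/
noncomputable def rl (S : LR.Structure ℕ) : RO ℕ := rop (St0.D S)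

/-- definable terms -/
def FT {α : Type} (p : LR.Structure ℕ → (α → ℕ) → ℕ) : Prop :=
  ∃ t : Language.ring.Term α, ∀ S v, @Term.realize Language.ring ℕ (St0.D S) α v t = p S v

section

variable {α β : Type} {p q r : LR.Structure ℕ → (α → ℕ) → ℕ}

theorem FT.var (i : α) : FT (fun _ v => v i) := ⟨Term.var i, fun _ _ => rfl⟩

theorem FT.op2 (F : Language.ring.Functions 2) (hp : FT p) (hq : FT q) :
    FT (fun S v => @Structure.funMap Language.ring ℕ (St0.D S) 2 F ![p S v, q S v]) := by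
  obtain ⟨t, ht⟩ := hp
  obtain ⟨s, hs⟩ := hq
  refine ⟨Term.func F ![t, s], fun S v => ?_⟩
  show @Structure.funMap Language.ring ℕ (St0.D S) 2 F
    (fun i => @Term.realize Language.ring ℕ (St0.D S) α v
      ((![t, s] : Fin 2 → Language.ring.Term α) i)) = _
  congr 1
  funext i
  refine Fin.cases ?_ (fun j => ?_) i
  · exact ht S v
  · refine Fin.cases ?_ (fun k => k.elim0) j
    exact hs S v

theorem FT.add (hp : FT p) (hq : FT q) : FT (fun S v => (rl S).add (p S v) (q S v)) :=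
  FT.op2 ringFunc.add hp hq

theorem FT.mul (hp : FT p) (hq : FT q) : FT (fun S v => (rl S).mul (p S v) (q S v)) :=
  FT.op2 ringFunc.mul hp hq

theorem FT.neg (hp : FT p) : FT (fun S v => (rl S).neg (p S v)) := by
  obtain ⟨t, ht⟩ := hp
  refine ⟨Term.func (L := Language.ring) (ringFunc.neg : Language.ring.Functions 1) ![t],
    fun S v => ?_⟩
  show @Structure.funMap Language.ring ℕ (St0.D S) 1 ringFunc.neg
    (fun i => @Term.realize Language.ring ℕ (St0.D S) α v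
      ((![t] : Fin 1 → Language.ring.Term α) i)) =
        @Structure.funMap Language.ring ℕ (St0.D S) 1 ringFunc.neg ![p S v]
  congr 1
  funext i
  refine Fin.cases ?_ (fun j => j.elim0) i
  exact ht S v

theorem FT.zero : FT (fun S (_ : α → ℕ) => (rl S).zero) := by
  refine ⟨Term.func (L := Language.ring) (ringFunc.zero : Language.ring.Functions 0) ![],
    fun S v => ?_⟩
  show @Structure.funMap Language.ring ℕ (St0.D S) 0 ringFunc.zero _ =
    @Structure.funMap Language.ring ℕ (St0.D S) 0 ringFunc.zero ![]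
  congr 1
  funext i
  exact i.elim0

theorem FT.one : FT (fun S (_ : α → ℕ) => (rl S).one) := by
  refine ⟨Term.func (L := Language.ring) (ringFunc.one : Language.ring.Functions 0) ![],
    fun S v => ?_⟩
  show @Structure.funMap Language.ring ℕ (St0.D S) 0 ringFunc.one _ =
    @Structure.funMap Language.ring ℕ (St0.D S) 0 ringFunc.one ![]
  congr 1
  funext i
  exact i.elim0

theorem FT.sub (hp : FT p) (g : α → β) : FT (fun S v => p S (fun i => v (g i))) := by
  obtain ⟨t, ht⟩ := hp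
  refine ⟨t.relabel g, fun S v => ?_⟩
  show _ = p S (fun i => v (g i))
  rw [← ht]
  exact @Term.realize_relabel Language.ring ℕ (St0.D S) α β t g v

theorem FT.congr {p' : LR.Structure ℕ → (α → ℕ) → ℕ} (hp : FT p) (h : ∀ S v, p S v = p' S v) :
    FT p' := by
  obtain ⟨t, ht⟩ := hp
  exact ⟨t, fun S v => (ht S v).trans (h S v)⟩

/-- equations -/
theorem eqT (hp : FT p) (hq : FT q) : FD St0.W (fun S v => p S v = q S v) := by
  obtain ⟨t, ht⟩ := hp
  obtain ⟨s, hs⟩ := hq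
  refine (FD.ex1 (P := fun S v b => @Term.realize Language.ring ℕ (St0.D S) α v t = b ∧
    @Term.realize Language.ring ℕ (St0.D S) α v s = b)
    ((St0.fd_term t).and (St0.fd_term s))).congr fun S _ v => ?_
  rw [← ht, ← hs]
  constructor
  · rintro ⟨b, h1, h2⟩
    exact h1.trans h2.symm
  · intro h
    exact ⟨_, rfl, h.symm⟩

theorem fd_nl (hp : FT p) : FD St0.W (fun S v => Nl (rl S) (p S v)) :=
  eqT ((hp.mul hp).mul hp) FT.zero

theorem fd_an (hp : FT p) : FD St0.W (fun S v => An (rl S) (p S v)) :=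
  (fd_nl hp).and <|
  FD.all1 (P := fun S v y => Nl (rl S) y → (rl S).mul (p S v) y = (rl S).zero)
    ((fd_nl (FT.var (Sum.inr ()))).imp
      (eqT ((hp.sub Sum.inl).mul (FT.var (Sum.inr ()))) FT.zero))

theorem fd_pm (hp : FT p) (hq : FT q) : FD St0.W (fun S v => Pm (rl S) (p S v) (q S v)) :=
  (fd_an (hp.add hq.neg)).or (fd_an (hp.add hq))

theorem fd_vx (hp : FT p) : FD St0.W (fun S v => Vx (rl S) (p S v)) :=
  (fd_nl hp).and ((fd_an hp).not.and (eqT (hp.mul hp) FT.zero))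

theorem fd_ed (hp : FT p) (hq : FT q) (hr : FT r) :
    FD St0.W (fun S v => Ed (rl S) (p S v) (q S v) (r S v)) :=
  (fd_vx hp).and ((fd_vx hq).and ((fd_pm hp hq).not.and ((fd_nl hr).and
    ((eqT (hr.mul hr) (hp.mul hq)).and (fd_pm hr (hp.add hq.neg)).not))))

theorem fd_bx (hp : FT p) : FD St0.W (fun S v => Bx (rl S) (p S v)) :=
  (fd_vx hp).or <| FD.ex1 (P := fun S v a => ∃ w, Ed (rl S) a w (p S v)) <|
    FD.ex1 (P := fun S w b => Ed (rl S) (w (Sum.inr ())) b (p S (fun i => w (Sum.inl i)))) <|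
    fd_ed (FT.var (Sum.inl (Sum.inr ()))) (FT.var (Sum.inr ()))
      (hp.sub (fun i => Sum.inl (Sum.inl i)))

theorem ft_sl (c : ZMod 3) (hp : FT p) : FT (fun S v => sl (rl S) c (p S v)) := by
  unfold sl
  split_ifs
  · exact FT.zero
  · exact hp
  · exact hp.neg

theorem ft_wd {ι : Type} (l : List ι) {u : ι → LR.Structure ℕ → (α → ℕ) → ℕ}
    (hu : ∀ i, FT (u i)) : FT (fun S v => wd (rl S) (l.map fun i => u i S v)) := by
  induction l with
  | nil => exact FT.zero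
  | cons a l ih => exact (hu a).add ih

theorem ft_wdFn {n : ℕ} {u : Fin n → LR.Structure ℕ → (α → ℕ) → ℕ}
    (hu : ∀ i, FT (u i)) : FT (fun S v => wd (rl S) (List.ofFn fun i => u i S v)) := by
  refine (ft_wd (List.finRange n) hu).congr fun S v => ?_
  rw [List.ofFn_eq_map]

theorem ft_lc {n : ℕ} (γ : Fin n → ZMod 3) {u : Fin n → LR.Structure ℕ → (α → ℕ) → ℕ}
    (hu : ∀ i, FT (u i)) : FT (fun S v => lc (rl S) γ (fun i => u i S v)) :=
  ft_wdFn (u := fun i S v => sl (rl S) (γ i) (u i S v)) fun i => ft_sl _ (hu i)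

theorem ft_qc {n : ℕ} (l : Fin n → Fin n → ZMod 3) {u : Fin n → LR.Structure ℕ → (α → ℕ) → ℕ}
    (hu : ∀ i, FT (u i)) : FT (fun S v => qc (rl S) l (fun i => u i S v)) :=
  ft_wdFn (u := fun i S v => wd (rl S) (List.ofFn fun j =>
      sl (rl S) (l i j) ((rl S).mul (u i S v) (u j S v)))) fun i =>
    ft_wdFn (u := fun j S v => sl (rl S) (l i j) ((rl S).mul (u i S v) (u j S v))) fun j =>
      ft_sl _ ((hu i).mul (hu j))

end

/-- finite disjunctions -/
theorem fd_finex {L : FirstOrder.Language.{0, 0}} {W : L.Structure ℕ → Prop} {α ι : Type}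
    [Finite ι] {P : ι → L.Structure ℕ → (α → ℕ) → Prop} (h : ∀ i, FD W (P i)) :
    FD W (fun S v => ∃ i, P i S v) := by
  refine (FD.fin fun i => (h i).not).not.congr fun S _ v => ?_
  push Not
  rfl

theorem axf {P : LR.Structure ℕ → Prop} (h : FD St0.W (fun S (_ : Empty → ℕ) => P S)) :
    Ax (fun S => St0.W S ∧ P S) := Ax.of_fd (St0.ax_W Language.ring) h

/-- the class of the rings -/
def WG (S : LR.Structure ℕ) : Prop := St0.W S ∧ FR (rl S)

theorem ax_WG : Ax WG := by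
  have h1 := axf (P := fun S => ∀ x y z, (rl S).add ((rl S).add x y) z =
      (rl S).add x ((rl S).add y z)) <|
    FD.all1 (P := fun S _ x => ∀ y z, (rl S).add ((rl S).add x y) z =
      (rl S).add x ((rl S).add y z)) <|
    FD.all1 (P := fun S w y => ∀ z, (rl S).add ((rl S).add (w (Sum.inr ())) y) z =
      (rl S).add (w (Sum.inr ())) ((rl S).add y z)) <|
    FD.all1 (P := fun S w z => (rl S).add ((rl S).add (w (Sum.inl (Sum.inr ())))
      (w (Sum.inr ()))) z =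
      (rl S).add (w (Sum.inl (Sum.inr ()))) ((rl S).add (w (Sum.inr ())) z)) <|
    eqT (((FT.var _).add (FT.var _)).add (FT.var _)) ((FT.var _).add ((FT.var _).add (FT.var _)))
  have h2 := axf (P := fun S => ∀ x y, (rl S).add x y = (rl S).add y x) <|
    FD.all1 (P := fun S _ x => ∀ y, (rl S).add x y = (rl S).add y x) <|
    FD.all1 (P := fun S w y => (rl S).add (w (Sum.inr ())) y = (rl S).add y (w (Sum.inr ()))) <|
    eqT ((FT.var _).add (FT.var _)) ((FT.var _).add (FT.var _))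
  have h3 := axf (P := fun S => ∀ x, (rl S).add (rl S).zero x = x) <|
    FD.all1 (P := fun S _ x => (rl S).add (rl S).zero x = x) <|
    eqT (FT.zero.add (FT.var _)) (FT.var _)
  have h4 := axf (P := fun S => ∀ x, (rl S).add ((rl S).neg x) x = (rl S).zero) <|
    FD.all1 (P := fun S _ x => (rl S).add ((rl S).neg x) x = (rl S).zero) <|
    eqT ((FT.var _).neg.add (FT.var _)) FT.zero
  have h5 := axf (P := fun S => ∀ x y z, (rl S).mul ((rl S).mul x y) z =
      (rl S).mul x ((rl S).mul y z)) <|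
    FD.all1 (P := fun S _ x => ∀ y z, (rl S).mul ((rl S).mul x y) z =
      (rl S).mul x ((rl S).mul y z)) <|
    FD.all1 (P := fun S w y => ∀ z, (rl S).mul ((rl S).mul (w (Sum.inr ())) y) z =
      (rl S).mul (w (Sum.inr ())) ((rl S).mul y z)) <|
    FD.all1 (P := fun S w z => (rl S).mul ((rl S).mul (w (Sum.inl (Sum.inr ())))
      (w (Sum.inr ()))) z =
      (rl S).mul (w (Sum.inl (Sum.inr ()))) ((rl S).mul (w (Sum.inr ())) z)) <|
    eqT (((FT.var _).mul (FT.var _)).mul (FT.var _)) ((FT.var _).mul ((FT.var _).mul (FT.var _)))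
  have h6 := axf (P := fun S => ∀ x y, (rl S).mul x y = (rl S).mul y x) <|
    FD.all1 (P := fun S _ x => ∀ y, (rl S).mul x y = (rl S).mul y x) <|
    FD.all1 (P := fun S w y => (rl S).mul (w (Sum.inr ())) y = (rl S).mul y (w (Sum.inr ()))) <|
    eqT ((FT.var _).mul (FT.var _)) ((FT.var _).mul (FT.var _))
  have h7 := axf (P := fun S => ∀ x, (rl S).mul (rl S).one x = x) <|
    FD.all1 (P := fun S _ x => (rl S).mul (rl S).one x = x) <|
    eqT (FT.one.mul (FT.var _)) (FT.var _)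
  have h8 := axf (P := fun S => ∀ x y z, (rl S).mul x ((rl S).add y z) =
      (rl S).add ((rl S).mul x y) ((rl S).mul x z)) <|
    FD.all1 (P := fun S _ x => ∀ y z, (rl S).mul x ((rl S).add y z) =
      (rl S).add ((rl S).mul x y) ((rl S).mul x z)) <|
    FD.all1 (P := fun S w y => ∀ z, (rl S).mul (w (Sum.inr ())) ((rl S).add y z) =
      (rl S).add ((rl S).mul (w (Sum.inr ())) y) ((rl S).mul (w (Sum.inr ())) z)) <|
    FD.all1 (P := fun S w z => (rl S).mul (w (Sum.inl (Sum.inr ())))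
      ((rl S).add (w (Sum.inr ())) z) =
      (rl S).add ((rl S).mul (w (Sum.inl (Sum.inr ()))) (w (Sum.inr ())))
        ((rl S).mul (w (Sum.inl (Sum.inr ()))) z)) <|
    eqT ((FT.var _).mul ((FT.var _).add (FT.var _)))
      (((FT.var _).mul (FT.var _)).add ((FT.var _).mul (FT.var _)))
  have h9 := axf (P := fun S => (rl S).add ((rl S).add (rl S).one (rl S).one) (rl S).one =
      (rl S).zero) <| eqT ((FT.one.add FT.one).add FT.one) FT.zero
  have h10 := axf (P := fun S => (rl S).one ≠ (rl S).zero) <| (eqT FT.one FT.zero).not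
  have h11 := axf (P := fun S => ∀ x y z, Nl (rl S) x → Nl (rl S) y → Nl (rl S) z →
      (rl S).mul ((rl S).mul x y) z = (rl S).zero) <|
    FD.all1 (P := fun S _ x => ∀ y z, Nl (rl S) x → Nl (rl S) y → Nl (rl S) z →
      (rl S).mul ((rl S).mul x y) z = (rl S).zero) <|
    FD.all1 (P := fun S w y => ∀ z, Nl (rl S) (w (Sum.inr ())) → Nl (rl S) y → Nl (rl S) z →
      (rl S).mul ((rl S).mul (w (Sum.inr ())) y) z = (rl S).zero) <|
    FD.all1 (P := fun S w z => Nl (rl S) (w (Sum.inl (Sum.inr ()))) →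
      Nl (rl S) (w (Sum.inr ())) → Nl (rl S) z →
      (rl S).mul ((rl S).mul (w (Sum.inl (Sum.inr ()))) (w (Sum.inr ()))) z = (rl S).zero) <|
    (fd_nl (FT.var _)).imp <| (fd_nl (FT.var _)).imp <| (fd_nl (FT.var _)).imp <|
    eqT (((FT.var _).mul (FT.var _)).mul (FT.var _)) FT.zero
  have h12 := axf (P := fun S => ∀ x, Nl (rl S) x ∨
      Nl (rl S) ((rl S).add x ((rl S).neg (rl S).one)) ∨ Nl (rl S) ((rl S).add x (rl S).one)) <|
    FD.all1 (P := fun S _ x => Nl (rl S) x ∨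
      Nl (rl S) ((rl S).add x ((rl S).neg (rl S).one)) ∨ Nl (rl S) ((rl S).add x (rl S).one)) <|
    (fd_nl (FT.var _)).or <| (fd_nl ((FT.var _).add FT.one.neg)).or <|
    fd_nl ((FT.var _).add FT.one)
  have h13 := Ax.all fun P : CO => axf (P := fun S => ∀ (w : Fin P.1 → ℕ),
      (∀ i, Bx (rl S) (w i)) → (∀ i j, i ≠ j → ¬ Pm (rl S) (w i) (w j)) →
        ¬ An (rl S) (lc (rl S) P.2.1 w)) <|
    FD.all (P := fun S _ w =>
      (∀ i, Bx (rl S) (w i)) → (∀ i j, i ≠ j → ¬ Pm (rl S) (w i) (w j)) →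
        ¬ An (rl S) (lc (rl S) P.2.1 w)) <|
    (FD.fin fun i => fd_bx (FT.var _)).imp <|
    (FD.fin fun i => FD.fin fun j => (FD.const (i ≠ j)).imp
      (fd_pm (FT.var _) (FT.var _)).not).imp
    (fd_an (ft_lc P.2.1 (u := fun i _ w => w (Sum.inr i)) (fun i => FT.var _))).not
  have h14 := axf (P := fun S => ∀ v w e e', Ed (rl S) v w e → Ed (rl S) v w e' →
      Pm (rl S) e e') <|
    FD.all1 (P := fun S _ v => ∀ w e e', Ed (rl S) v w e → Ed (rl S) v w e' →
      Pm (rl S) e e') <|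
    FD.all1 (P := fun S u w => ∀ e e', Ed (rl S) (u (Sum.inr ())) w e →
      Ed (rl S) (u (Sum.inr ())) w e' → Pm (rl S) e e') <|
    FD.all1 (P := fun S u e => ∀ e', Ed (rl S) (u (Sum.inl (Sum.inr ()))) (u (Sum.inr ())) e →
      Ed (rl S) (u (Sum.inl (Sum.inr ()))) (u (Sum.inr ())) e' → Pm (rl S) e e') <|
    FD.all1 (P := fun S u e' =>
      Ed (rl S) (u (Sum.inl (Sum.inl (Sum.inr ())))) (u (Sum.inl (Sum.inr ())))
        (u (Sum.inr ())) →
      Ed (rl S) (u (Sum.inl (Sum.inl (Sum.inr ())))) (u (Sum.inl (Sum.inr ()))) e' →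
        Pm (rl S) (u (Sum.inr ())) e') <|
    (fd_ed (FT.var _) (FT.var _) (FT.var _)).imp <|
    (fd_ed (FT.var _) (FT.var _) (FT.var _)).imp <| fd_pm (FT.var _) (FT.var _)
  have h15 := axf (P := fun S => ∀ v w e, Ed (rl S) v w e → ∃ e',
      Ed (rl S) v ((rl S).neg w) e') <|
    FD.all1 (P := fun S _ v => ∀ w e, Ed (rl S) v w e → ∃ e', Ed (rl S) v ((rl S).neg w) e') <|
    FD.all1 (P := fun S u w => ∀ e, Ed (rl S) (u (Sum.inr ())) w e → ∃ e',
      Ed (rl S) (u (Sum.inr ())) ((rl S).neg w) e') <|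
    FD.all1 (P := fun S u e => Ed (rl S) (u (Sum.inl (Sum.inr ()))) (u (Sum.inr ())) e → ∃ e',
      Ed (rl S) (u (Sum.inl (Sum.inr ()))) ((rl S).neg (u (Sum.inr ()))) e') <|
    (fd_ed (FT.var _) (FT.var _) (FT.var _)).imp <|
    FD.ex1 (P := fun S u e' =>
      Ed (rl S) (u (Sum.inl (Sum.inl (Sum.inr ())))) ((rl S).neg (u (Sum.inl (Sum.inr ()))))
        e') <|
    fd_ed (FT.var _) (FT.var _).neg (FT.var _)
  have h16 := Ax.all fun P : CQ => axf (P := fun S => ∀ w : Fin P.1 → ℕ,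
      (∀ i, Nl (rl S) (w i)) → (∀ i, i ∈ P.2.1.1 → Bx (rl S) (w i)) →
      (∀ i j, i ∈ P.2.1.1 ∧ j ∈ P.2.1.1 ∧ i ≠ j → ¬ Pm (rl S) (w i) (w j)) →
      qc (rl S) P.2.1.2 w = (rl S).zero →
      ∃ (γ : {γ : Fin P.1 → ZMod 3 // ∃ i, i ∉ P.2.1.1 ∧ γ i ≠ 0}) (k : Fin (3 * P.1 + 1))
        (u : Fin k → ℕ), (∀ j, Bx (rl S) (u j)) ∧
          An (rl S) ((rl S).add (lc (rl S) γ.1 w) ((rl S).neg (wd (rl S) (List.ofFn u))))) <|
    FD.all (P := fun S _ w =>
      (∀ i, Nl (rl S) (w i)) → (∀ i, i ∈ P.2.1.1 → Bx (rl S) (w i)) →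
      (∀ i j, i ∈ P.2.1.1 ∧ j ∈ P.2.1.1 ∧ i ≠ j → ¬ Pm (rl S) (w i) (w j)) →
      qc (rl S) P.2.1.2 w = (rl S).zero →
      ∃ (γ : {γ : Fin P.1 → ZMod 3 // ∃ i, i ∉ P.2.1.1 ∧ γ i ≠ 0}) (k : Fin (3 * P.1 + 1))
        (u : Fin k → ℕ), (∀ j, Bx (rl S) (u j)) ∧
          An (rl S) ((rl S).add (lc (rl S) γ.1 w) ((rl S).neg (wd (rl S) (List.ofFn u))))) <|
    (FD.fin fun i => fd_nl (FT.var _)).imp <|
    (FD.fin fun i => (FD.const (i ∈ P.2.1.1)).imp (fd_bx (FT.var _))).imp <|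
    (FD.fin fun i => FD.fin fun j => (FD.const (i ∈ P.2.1.1 ∧ j ∈ P.2.1.1 ∧ i ≠ j)).imp
      (fd_pm (FT.var _) (FT.var _)).not).imp <|
    (eqT (ft_qc P.2.1.2 (u := fun i _ w => w (Sum.inr i)) (fun i => FT.var _)) FT.zero).imp <|
    fd_finex fun γ : {γ : Fin P.1 → ZMod 3 // ∃ i, i ∉ P.2.1.1 ∧ γ i ≠ 0} =>
    fd_finex fun k : Fin (3 * P.1 + 1) =>
    FD.ex (P := fun S w u => (∀ j, Bx (rl S) (u j)) ∧
          An (rl S) ((rl S).add (lc (rl S) γ.1 (fun i => w (Sum.inr i)))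
            ((rl S).neg (wd (rl S) (List.ofFn u))))) <|
    (FD.fin fun i => fd_bx (FT.var _)).and <|
    fd_an ((ft_lc γ.1 (u := fun i _ w => w (Sum.inl (Sum.inr i))) (fun i => FT.var _)).add
      (ft_wdFn (u := fun i _ w => w (Sum.inr i)) (fun i => FT.var _)).neg)
  have h17 := Ax.all fun n : ℕ => axf (P := fun S => ∃ w : Fin n → ℕ, (∀ i, Vx (rl S) (w i)) ∧
      ∀ i j, i ≠ j → ¬ Pm (rl S) (w i) (w j)) <|
    FD.ex (P := fun S _ w => (∀ i, Vx (rl S) (w i)) ∧
      ∀ i j, i ≠ j → ¬ Pm (rl S) (w i) (w j)) <|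
    (FD.fin fun i => fd_vx (FT.var _)).and <|
    FD.fin fun i => FD.fin fun j => (FD.const (i ≠ j)).imp (fd_pm (FT.var _) (FT.var _)).not
  refine (h1.and (h2.and (h3.and (h4.and (h5.and (h6.and (h7.and (h8.and (h9.and (h10.and
    (h11.and (h12.and (h13.and (h14.and (h15.and (h16.and h17)))))))))))))))).congr fun S => ?_
  constructor
  · rintro ⟨k1, k2, k3, k4, k5, k6, k7, k8, k9, k10, k11, k12, k13, k14, k15, k16, k17⟩
    exact ⟨k1.1, k1.2, k2.2, k3.2, k4.2, k5.2, k6.2, k7.2, k8.2, k9.2, k10.2, k11.2, k12.2,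
      fun P => (k13 P).2, k14.2, k15.2, fun P => (k16 P).2, fun n => (k17 n).2⟩
  · rintro ⟨hW, k⟩
    exact ⟨⟨hW, k.add_assoc⟩, ⟨hW, k.add_comm⟩, ⟨hW, k.zero_add⟩, ⟨hW, k.neg_add⟩,
      ⟨hW, k.mul_assoc⟩, ⟨hW, k.mul_comm⟩, ⟨hW, k.one_mul⟩, ⟨hW, k.distrib⟩, ⟨hW, k.three⟩,
      ⟨hW, k.one_ne⟩, ⟨hW, k.nil⟩, ⟨hW, k.res⟩, fun P => ⟨hW, k.indB P⟩, ⟨hW, k.uniq⟩,
      ⟨hW, k.sgn⟩, fun P => ⟨hW, k.prod P⟩, fun n => ⟨hW, k.inf n⟩⟩

end Pool.Agent.H4.VR
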