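import Pool.Agent.H4.VR.Cls

set_option autoImplicit false
set_option linter.unusedSectionVars false
set_option linter.unusedVariables false

/-! The classification in terms of the operations. -/

namespace Pool.Agent.H4.VR

open Pool.Agent.H4.VG (fl fl_none fl_some fl_eq)

/-- representatives of the vertices -/
structure RU {α : Type} (o : RO α) (u : ℕ → α) : Prop where
  vx : ∀ n, Vx o (u n)
  inj : ∀ n m, n ≠ m → ¬ Pm o (u n) (u m)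
  surj : ∀ v, Vx o v → ∃ n, Pm o v (u n)

section

variable {α : Type} {o : RO α}

theorem FR.refl (h : FR o) {u : α} (hu : Vx o u) : Pm o u u := by
  obtain ⟨g, rfl⟩ := h.exr
  have := h.rc
  have m1 : u ∈ NN α := hu.1
  exact (pm_iff (x := ⟨u, m1⟩) (y := ⟨u, m1⟩)).2 (PM.refl _)

theorem FR.symm (h : FR o) {u v : α} (hu : Vx o u) (hv : Vx o v) (h1 : Pm o u v) :
    Pm o v u := by
  obtain ⟨g, rfl⟩ := h.exr
  have := h.rc
  have m1 : u ∈ NN α := hu.1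
  have m2 : v ∈ NN α := hv.1
  exact (pm_iff (x := ⟨v, m2⟩) (y := ⟨u, m1⟩)).2
    ((pm_iff (x := ⟨u, m1⟩) (y := ⟨v, m2⟩)).1 h1).symm

theorem FR.trans (h : FR o) {u v w : α} (hu : Vx o u) (hv : Vx o v) (hw : Vx o w)
    (h1 : Pm o u v) (h2 : Pm o v w) : Pm o u w := by
  obtain ⟨g, rfl⟩ := h.exr
  have := h.rc
  have m1 : u ∈ NN α := hu.1
  have m2 : v ∈ NN α := hv.1
  have m3 : w ∈ NN α := hw.1
  exact (pm_iff (x := ⟨u, m1⟩) (y := ⟨w, m3⟩)).2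
    (((pm_iff (x := ⟨u, m1⟩) (y := ⟨v, m2⟩)).1 h1).trans
      ((pm_iff (x := ⟨v, m2⟩) (y := ⟨w, m3⟩)).1 h2))

end

/-- adjacency only depends on the vertices up to sign -/
theorem adj_pm {W Z : Type} [AddCommGroup W] [Module (ZMod 3) W] [AddCommGroup Z]
    [Module (ZMod 3) Z] {b : W →ₗ[ZMod 3] W →ₗ[ZMod 3] Z} (h : NiceB b) {v w v' w' : W}
    (h1 : PM v v') (h2 : PM w w') (hA : Adj b v w) : Adj b v' w' := by
  have hs : ∀ {v w : W}, Adj b v w → Adj b w v := fun ⟨e, he⟩ => ⟨e, he.swap h.symm⟩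
  have hn : ∀ {v w : W}, Adj b v w → Adj b v (-w) := fun h1 => h.sgn _ _ h1
  have key : ∀ {v w w' : W}, PM w w' → Adj b v w → Adj b v w' := by
    intro v w w' h1 h2
    rcases h1 with rfl | rfl
    · exact h2
    · have h3 := hn h2
      rwa [neg_neg] at h3
  exact hs (key h1 (hs (key h2 hA)))

section

variable {α : Type} {o : RO α}

theorem FR.cong (h : FR o) {u v u' v' : α} (hu : Vx o u) (hv : Vx o v) (hu' : Vx o u')
    (hv' : Vx o v') (h1 : Pm o u u') (h2 : Pm o v v') (h3 : ∃ e, Ed o u v e) :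
    ∃ e, Ed o u' v' e := by
  obtain ⟨g, rfl⟩ := h.exr
  have := h.rc
  obtain ⟨e, he⟩ := h3
  have m1 : u ∈ NN α := hu.1
  have m2 : v ∈ NN α := hv.1
  have m3 : u' ∈ NN α := hu'.1
  have m4 : v' ∈ NN α := hv'.1
  have m5 : e ∈ NN α := he.2.2.2.1
  have h4 := (ed_iff (v := ⟨u, m1⟩) (w := ⟨v, m2⟩) (e := ⟨e, m5⟩)).1 he
  have h5 := (pm_iff (x := ⟨u, m1⟩) (y := ⟨u', m3⟩)).1 h1
  have h6 := (pm_iff (x := ⟨v, m2⟩) (y := ⟨v', m4⟩)).1 h2
  obtain ⟨e', he'⟩ := adj_pm h.nice h5 h6 ⟨_, h4⟩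
  obtain ⟨e', rfl⟩ := cl_surj e'
  exact ⟨e', (ed_iff (v := ⟨u', m3⟩) (w := ⟨v', m4⟩) (e := e')).2 he'⟩

end

section ring

variable {α : Type} [CommRing α] [RC α]

/-- from elements to classes -/
theorem RU.rep {u : ℕ → α} (h : RU (ro α) u) : ∃ r : ℕ → Wd α, Rep (bb α) r ∧
    ∀ a b, (∃ e, Ed (ro α) (u a) (u b) e) ↔ Adj (bb α) (r a) (r b) := by
  have m : ∀ n, u n ∈ NN α := fun n => (h.vx n).1
  refine ⟨fun n => cl ⟨u n, m n⟩, ⟨fun n => vx_iff.1 (h.vx n), fun n k hnk h' =>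
    h.inj n k hnk (pm_iff.2 h'), fun v hv => ?_⟩, fun a b => ?_⟩
  · obtain ⟨v, rfl⟩ := cl_surj v
    obtain ⟨n, hn⟩ := h.surj v (vx_iff.2 hv)
    exact ⟨n, (pm_iff (x := v) (y := ⟨u n, m n⟩)).1 hn⟩
  · constructor
    · rintro ⟨e, he⟩
      have m5 : e ∈ NN α := he.2.2.2.1
      exact ⟨cl ⟨e, m5⟩, (ed_iff (v := ⟨u a, m a⟩) (w := ⟨u b, m b⟩) (e := ⟨e, m5⟩)).1 he⟩
    · rintro ⟨e, he⟩
      obtain ⟨e, rfl⟩ := cl_surj e
      exact ⟨e, (ed_iff (v := ⟨u a, m a⟩) (w := ⟨u b, m b⟩) (e := e)).2 he⟩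

/-- from classes to elements -/
theorem Rep.ru {r : ℕ → Wd α} (h : Rep (bb α) r) : ∃ u : ℕ → α, RU (ro α) u ∧
    ∀ a b, (∃ e, Ed (ro α) (u a) (u b) e) ↔ Adj (bb α) (r a) (r b) := by
  choose g hg using fun n => cl_surj (r n)
  refine ⟨fun n => (g n : α), ⟨fun n => ?_, fun n k hnk h' => ?_, fun v hv => ?_⟩, fun a b => ?_⟩
  · rw [vx_iff, hg]
    exact h.vv n
  · rw [pm_iff, hg, hg] at h'
    exact h.inj n k hnk h'
  · have m1 : v ∈ NN α := hv.1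
    obtain ⟨n, hn⟩ := h.surj _ ((vx_iff (x := ⟨v, m1⟩)).1 hv)
    refine ⟨n, (pm_iff (x := ⟨v, m1⟩) (y := g n)).2 ?_⟩
    rw [hg]
    exact hn
  · constructor
    · rintro ⟨e, he⟩
      have m5 : e ∈ NN α := he.2.2.2.1
      have h1 := (ed_iff (v := g a) (w := g b) (e := ⟨e, m5⟩)).1 he
      rw [hg, hg] at h1
      exact ⟨_, h1⟩
    · rintro ⟨e, he⟩
      obtain ⟨e, rfl⟩ := cl_surj e
      rw [← hg, ← hg] at he
      exact ⟨e, (ed_iff (v := g a) (w := g b) (e := e)).2 he⟩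

end ring

/-- the classification -/
theorem iso_gen {α β : Type} [Countable α] [Countable β] {o : RO α} {o' : RO β} (h : FR o)
    (h' : FR o') {u : ℕ → α} {u' : ℕ → β} (hu : RU o u) (hu' : RU o' u')
    (hA : ∀ a b, (∃ e, Ed o (u a) (u b) e) ↔ ∃ e, Ed o' (u' a) (u' b) e)
    (h1 : fl (D1 o) = fl (D1 o')) (h2 : fl (D2 o) = fl (D2 o')) :
    ∃ σ : α ≃ β, (∀ a b, σ (o.add a b) = o'.add (σ a) (σ b)) ∧
      (∀ a b, σ (o.mul a b) = o'.mul (σ a) (σ b)) ∧ (∀ a, σ (o.neg a) = o'.neg (σ a)) ∧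
        σ o.zero = o'.zero ∧ σ o.one = o'.one := by
  obtain ⟨g, rfl⟩ := h.exr
  obtain ⟨g', rfl⟩ := h'.exr
  have := h.rc
  have := h'.rc
  obtain ⟨r, hr, hr1⟩ := hu.rep
  obtain ⟨r', hr', hr1'⟩ := hu'.rep
  obtain ⟨σ⟩ := class_iso h h' hr hr' (fun x y => by rw [← hr1, hA, hr1']) h1 h2
  exact ⟨σ.toEquiv, fun a b => map_add σ a b, fun a b => map_mul σ a b, fun a => map_neg σ a,
    map_zero σ, map_one σ⟩

/-- existence -/
theorem exists_gen {α : Type} [Countable α] [Infinite α] (Γ : SimpleGraph ℕ) :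
    ∃ o : RO α, FR o ∧ ∃ u : ℕ → α, RU o u ∧ ∀ v w, Γ.Adj v w ↔ ∃ e, Ed o (u v) (u w) e := by
  obtain ⟨g, h2, h, r, hr, hA⟩ := exists_model (α := α) Γ
  obtain ⟨u, hu, hu2⟩ := hr.ru
  exact ⟨ro α, h, u, hu, fun v w => by rw [hA, hu2]⟩

end Pool.Agent.H4.VR
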