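import Pool.Agent.H4.VR.Fo
import Pool.Agent.H4.VR.Ru
import Pool.Agent.H4.VG.Trq
import Pool.Agent.H4.VG.Fun

set_option autoImplicit false
set_option linter.unusedSectionVars false
set_option linter.unusedVariables false

/-! The interpretation of graphs in rings. -/

namespace Pool.Agent.H4.VR

open FirstOrder FirstOrder.Language
open Pool.Agent.W889.FO
open Pool.Agent.TH686.FO
open Pool.Agent.W889.VC (BP)
open Pool.Agent.W889.SD (Nth)
open Pool.Agent.W889.FO.StE (LG gd siso_gd fd_gd)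
open Pool.Agent.W889.FO.StA (FD.all1 FD.ex1)
open Pool.Agent.H4.VG (fl fl_none fl_some fl_eq CntQ transferQ)
open Pool.Agent.H4.VG.Fun (mkR mkR_W D_mkR red_fun)

theorem FR.infr {o : RO ℕ} (h : FR o) (N : ℕ) :
    ∃ u, N ≤ u ∧ Vx o u ∧ ∀ u', u' < u → Vx o u' → ¬ Pm o u' u := by
  classical
  by_contra hcon
  push Not at hcon
  have hrep : ∀ x, Vx o x → ∃ u, u < N ∧ Vx o u ∧ Pm o u x := by
    intro x hx
    have hex : ∃ u, Vx o u ∧ Pm o u x := ⟨x, hx, h.refl hx⟩
    obtain ⟨h1, h2⟩ := Nat.find_spec hex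
    refine ⟨Nat.find hex, ?_, h1, h2⟩
    by_contra hlt
    obtain ⟨u', h3, h4, h5⟩ := hcon (Nat.find hex) (not_lt.1 hlt) h1
    exact Nat.find_min hex h3 ⟨h4, h.trans h4 h1 hx h5 h2⟩
  obtain ⟨w, h1, h2⟩ := h.inf (N + 1)
  choose u hu1 hu2 hu3 using fun i => hrep (w i) (h1 i)
  have h5 : Function.Injective fun i => (⟨u i, hu1 i⟩ : Fin N) := by
    intro i i' hii
    have h6 : u i = u i' := congrArg Fin.val hii
    by_contra hne
    have h7 := hu3 i'
    rw [← h6] at h7
    exact h2 i i' hne (h.trans (h1 i) (hu2 i) (h1 i') (h.symm (hu2 i) (h1 i) (hu3 i)) h7)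
  have := Fintype.card_le_of_injective _ h5
  simp at this

/-- the interpretation -/
noncomputable def gI : Itq LG LR where
  W := WG
  axW := ax_WG
  dom := fun S u => Vx (rl S) u
  eqv := fun S u v => Pm (rl S) u v
  rel := fun {n} Q => match n, Q with
    | _, FirstOrder.Language.graphRel.adj => fun S v => ∃ e, Ed (rl S) (v 0) (v 1) e
  fdom := (fd_vx (FT.var _)).mono fun S h => h.1
  feqv := (fd_pm (FT.var _) (FT.var _)).mono fun S h => h.1
  frel := fun {n} Q => match n, Q with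
    | _, FirstOrder.Language.graphRel.adj =>
      (FD.ex1 (P := fun S v e => Ed (rl S) (v 0) (v 1) e)
        (fd_ed (FT.var _) (FT.var _) (FT.var _))).mono fun S h => h.1
  refl := fun S h u hu => h.2.refl hu
  symm := fun S h u v hu hv => h.2.symm hu hv
  trans := fun S h u v w hu hv hw => h.2.trans hu hv hw
  cong := fun S h {n} Q => match n, Q with
    | _, FirstOrder.Language.graphRel.adj => fun u v hu hv hq hr =>
      h.2.cong (hu 0) (hu 1) (hv 0) (hv 1) (hq 0) (hq 1) hr
  inf := fun S h N => h.2.infr N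

/-- the vertices of the interpreted graph -/
theorem label {S : LR.Structure ℕ} (h : WG S) : ∃ u : ℕ → ℕ, RU (rl S) u ∧
    ∀ a b, gd (gI.D S) a b ↔ ∃ e, Ed (rl S) (u a) (u b) e := by
  choose u hu using fun n => Itq.lab_surj (I := gI) h n
  refine ⟨u, ⟨fun n => (hu n).1, fun n m hnm hc => ?_, fun v hv => ?_⟩, fun a b => ?_⟩
  · exact hnm ((Itq.lab_eq (I := gI) h (hu n) (hu m)).1 hc)
  · obtain ⟨n, hn⟩ := Itq.ex_lab (I := gI) h hv
    exact ⟨n, (Itq.lab_eq (I := gI) h hn (hu n)).2 rfl⟩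
  · have h7 := Itq.rel_iff (I := gI) h FirstOrder.Language.graphRel.adj (u := ![u a, u b])
      (v := ![a, b]) (fun i => by
        refine Fin.cases ?_ (fun j => ?_) i
        · exact hu a
        · refine Fin.cases ?_ (fun k => k.elim0) j
          exact hu b)
    exact h7

/-- isomorphic operations -/
theorem siso_rl {S S' : LR.Structure ℕ} (h : St0.W S) (h' : St0.W S') (σ : ℕ ≃ ℕ)
    (h1 : ∀ a b, σ ((rl S).add a b) = (rl S').add (σ a) (σ b))
    (h2 : ∀ a b, σ ((rl S).mul a b) = (rl S').mul (σ a) (σ b))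
    (h3 : ∀ a, σ ((rl S).neg a) = (rl S').neg (σ a))
    (h4 : σ (rl S).zero = (rl S').zero) (h5 : σ (rl S).one = (rl S').one) : SIso S S' := by
  refine St0.iso_up h h' ⟨@FirstOrder.Language.Equiv.mk Language.ring ℕ ℕ (St0.D S) (St0.D S') σ
    ?_ ?_⟩
  · intro n F v
    cases F with
    | add =>
      have e1 : v = ![v 0, v 1] := by
        funext m
        fin_cases m <;> rfl
      have e2 : (⇑σ ∘ v) = ![σ (v 0), σ (v 1)] := by
        funext m
        fin_cases m <;> rfl
      show σ (@Structure.funMap Language.ring ℕ (St0.D S) 2 ringFunc.add v) =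
        @Structure.funMap Language.ring ℕ (St0.D S') 2 ringFunc.add (⇑σ ∘ v)
      rw [e2]
      conv_lhs => rw [e1]
      exact h1 (v 0) (v 1)
    | mul =>
      have e1 : v = ![v 0, v 1] := by
        funext m
        fin_cases m <;> rfl
      have e2 : (⇑σ ∘ v) = ![σ (v 0), σ (v 1)] := by
        funext m
        fin_cases m <;> rfl
      show σ (@Structure.funMap Language.ring ℕ (St0.D S) 2 ringFunc.mul v) =
        @Structure.funMap Language.ring ℕ (St0.D S') 2 ringFunc.mul (⇑σ ∘ v)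
      rw [e2]
      conv_lhs => rw [e1]
      exact h2 (v 0) (v 1)
    | neg =>
      have e1 : v = ![v 0] := by
        funext m
        fin_cases m; rfl
      have e2 : (⇑σ ∘ v) = ![σ (v 0)] := by
        funext m
        fin_cases m; rfl
      show σ (@Structure.funMap Language.ring ℕ (St0.D S) 1 ringFunc.neg v) =
        @Structure.funMap Language.ring ℕ (St0.D S') 1 ringFunc.neg (⇑σ ∘ v)
      rw [e2]
      conv_lhs => rw [e1]
      exact h3 (v 0)
    | zero =>
      have e1 : v = ![] := by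
        funext m
        exact m.elim0
      have e2 : (⇑σ ∘ v) = ![] := by
        funext m
        exact m.elim0
      show σ (@Structure.funMap Language.ring ℕ (St0.D S) 0 ringFunc.zero v) =
        @Structure.funMap Language.ring ℕ (St0.D S') 0 ringFunc.zero (⇑σ ∘ v)
      rw [e2]
      conv_lhs => rw [e1]
      exact h4
    | one =>
      have e1 : v = ![] := by
        funext m
        exact m.elim0
      have e2 : (⇑σ ∘ v) = ![] := by
        funext m
        exact m.elim0
      show σ (@Structure.funMap Language.ring ℕ (St0.D S) 0 ringFunc.one v) =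
        @Structure.funMap Language.ring ℕ (St0.D S') 0 ringFunc.one (⇑σ ∘ v)
      rw [e2]
      conv_lhs => rw [e1]
      exact h5
  · intro n R v
    exact R.elim

/-- the invariant -/
noncomputable def jj (S : LR.Structure ℕ) : Option ℕ × Option ℕ := (fl (D1 (rl S)), fl (D2 (rl S)))

theorem up {S S' : LR.Structure ℕ} (h : WG S) (h' : WG S') (hi : SIso (gI.D S) (gI.D S'))
    (hj : jj S = jj S') : SIso S S' := by
  obtain ⟨u, hu, hua⟩ := label h
  obtain ⟨u', hu', hua'⟩ := label h'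
  obtain ⟨e⟩ := hi
  let τ : Equiv.Perm ℕ := @FirstOrder.Language.Equiv.toEquiv LG ℕ ℕ (gI.D S) (gI.D S') e
  have hτ : ∀ u v, gd (gI.D S') (τ u) (τ v) ↔ gd (gI.D S) u v := by
    intro u v
    have h1 := iso_rel e FirstOrder.Language.graphRel.adj ![u, v]
    refine Iff.trans ?_ h1
    unfold gd
    have e2 : ![τ u, τ v] = fun i => τ ((![u, v] : Fin 2 → ℕ) i) := by
      funext m
      fin_cases m <;> rfl
    rw [e2]
    exact Iff.rfl
  have hu2 : RU (rl S') (fun n => u' (τ n)) := by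
    refine ⟨fun n => hu'.vx _, fun n m hnm => hu'.inj _ _ fun h => hnm (τ.injective h),
      fun v hv => ?_⟩
    obtain ⟨n, hn⟩ := hu'.surj v hv
    exact ⟨τ.symm n, by rw [Equiv.apply_symm_apply]; exact hn⟩
  obtain ⟨σ, h1, h2, h3, h4, h5⟩ := iso_gen h.2 h'.2 hu hu2
    (fun a b => by rw [← hua, ← hua', hτ]) (congrArg Prod.fst hj) (congrArg Prod.snd hj)
  exact siso_rl h.1 h'.1 σ h1 h2 h3 h4 h5

section bp

variable {Y : Type} [MeasurableSpace Y] {f : Y → LR.Structure ℕ}

theorem bp_inP (hb : ∀ (n : ℕ) (R : LR.Relations n) (a : Fin n → ℕ),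
    BP (fun y => @Structure.RelMap LR ℕ (f y) n R a)) (hW : ∀ y, St0.W (f y)) {α : Type}
    {p : LR.Structure ℕ → (α → ℕ) → ℕ} (hp : FT p) (v : α → ℕ) :
    BP (fun y => InP (rl (f y)) (p (f y) v)) := by
  unfold InP
  refine BP.ex fun k => BP.ex fun u => ?_
  have h1 : FD St0.W (fun S (w : α ⊕ Fin k → ℕ) =>
      (∀ i, Bx (rl S) (w (Sum.inr i))) ∧
        An (rl S) ((rl S).add (p S (fun i => w (Sum.inl i)))
          ((rl S).neg (wd (rl S) (List.ofFn fun i => w (Sum.inr i)))))) :=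
    (FD.fin fun i => fd_bx (FT.var _)).and <|
    fd_an ((hp.sub _).add (ft_wdFn (u := fun i _ w => w (Sum.inr i)) (fun i => FT.var _)).neg)
  exact h1.bp hb hW (Sum.elim v u)

theorem bp_inQ (hb : ∀ (n : ℕ) (R : LR.Relations n) (a : Fin n → ℕ),
    BP (fun y => @Structure.RelMap LR ℕ (f y) n R a)) (hW : ∀ y, St0.W (f y)) {α : Type}
    {p : LR.Structure ℕ → (α → ℕ) → ℕ} (hp : FT p) (v : α → ℕ) :
    BP (fun y => InQ (rl (f y)) (p (f y) v)) := by
  unfold InQ
  refine BP.ex fun k => BP.ex fun u => BP.ex fun u' => ?_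
  have h1 : FD St0.W (fun S (w : α ⊕ (Fin k ⊕ Fin k) → ℕ) =>
      (∀ i, Nl (rl S) (w (Sum.inr (Sum.inl i)))) ∧ (∀ i, Nl (rl S) (w (Sum.inr (Sum.inr i)))) ∧
      p S (fun i => w (Sum.inl i)) = wd (rl S) (List.ofFn fun i =>
        (rl S).mul (w (Sum.inr (Sum.inl i))) (w (Sum.inr (Sum.inr i))))) :=
    (FD.fin fun i => fd_nl (FT.var _)).and <| (FD.fin fun i => fd_nl (FT.var _)).and <|
    eqT (hp.sub _) (ft_wdFn (u := fun i S w =>
      (rl S).mul (w (Sum.inr (Sum.inl i))) (w (Sum.inr (Sum.inr i))))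
      (fun i => (FT.var _).mul (FT.var _)))
  exact h1.bp hb hW (Sum.elim v (Sum.elim u u'))

theorem bp_D1 (hb : ∀ (n : ℕ) (R : LR.Relations n) (a : Fin n → ℕ),
    BP (fun y => @Structure.RelMap LR ℕ (f y) n R a)) (hW : ∀ y, St0.W (f y)) (n : ℕ) :
    BP (fun y => D1 (rl (f y)) n) := by
  unfold D1
  refine BP.ex fun w => (BP.all fun i => ?_).and (BP.all fun γ => ?_)
  · exact (fd_nl (p := fun S (v : Unit → ℕ) => v ()) (FT.var _)).bp hb hW (fun _ => w i)
  · exact (bp_inP hb hW (p := fun S (v : Fin n → ℕ) => lc (rl S) γ.1 (fun i => v i))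
      (ft_lc γ.1 (u := fun i _ v => v i) (fun i => FT.var _)) w).not

theorem bp_D2 (hb : ∀ (n : ℕ) (R : LR.Relations n) (a : Fin n → ℕ),
    BP (fun y => @Structure.RelMap LR ℕ (f y) n R a)) (hW : ∀ y, St0.W (f y)) (n : ℕ) :
    BP (fun y => D2 (rl (f y)) n) := by
  unfold D2
  refine BP.ex fun w => (BP.all fun i => ?_).and (BP.all fun γ => ?_)
  · exact (fd_an (p := fun S (v : Unit → ℕ) => v ()) (FT.var _)).bp hb hW (fun _ => w i)
  · exact (bp_inQ hb hW (p := fun S (v : Fin n → ℕ) => lc (rl S) γ.1 (fun i => v i))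
      (ft_lc γ.1 (u := fun i _ v => v i) (fun i => FT.var _)) w).not

theorem bp_fl {P : Y → ℕ → Prop} (h : ∀ n, BP (fun y => P y n)) (c : Option ℕ) :
    BP (fun y => fl (P y) = c) := by
  rcases c with _ | m
  · exact (BP.all h).congr fun y => fl_none.symm
  · exact ((h m).not.and (BP.all fun n => (BP.const (n < m)).imp (h n))).congr
      fun y => fl_some.symm

end bp

theorem cntG : CntQ gI (Option ℕ × Option ℕ) jj where
  up := fun S S' h h' hi hj => up h h' hi hj
  bp := by
    rintro f hb hW ⟨c1, c2⟩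
    have hW' : ∀ y, St0.W (f y) := fun y => (hW y).1
    refine ((bp_fl (bp_D1 hb hW') c1).and (bp_fl (bp_D2 hb hW') c2)).congr fun y => ?_
    exact (Prod.mk.injEq _ _ _ _).symm ▸ Iff.rfl

theorem rl_mkR (M : Language.ring.Structure ℕ) : rl (mkR M) = rop M := by
  unfold rl rop
  have h2 : ∀ (F : Language.ring.Functions 2) (a b : ℕ),
      @Structure.funMap Language.ring ℕ (St0.D (mkR M)) 2 F ![a, b] =
        @Structure.funMap Language.ring ℕ M 2 F ![a, b] := fun F a b => D_mkR M F _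
  have h1 : ∀ (F : Language.ring.Functions 1) (a : ℕ),
      @Structure.funMap Language.ring ℕ (St0.D (mkR M)) 1 F ![a] =
        @Structure.funMap Language.ring ℕ M 1 F ![a] := fun F a => D_mkR M F _
  have h0 : ∀ (F : Language.ring.Functions 0),
      @Structure.funMap Language.ring ℕ (St0.D (mkR M)) 0 F ![] =
        @Structure.funMap Language.ring ℕ M 0 F ![] := fun F => D_mkR M F _
  congr 1
  · funext a b
    exact h2 _ a b
  · funext a b
    exact h2 _ a b
  · funext a
    exact h1 _ a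
  · exact h0 _
  · exact h0 _

/-- the structure of given operations -/
@[reducible] def mkM (o : RO ℕ) : Language.ring.Structure ℕ :=
  { funMap := fun {n} F => match n, F with
      | _, ringFunc.add => fun v => o.add (v 0) (v 1)
      | _, ringFunc.mul => fun v => o.mul (v 0) (v 1)
      | _, ringFunc.neg => fun v => o.neg (v 0)
      | _, ringFunc.zero => fun _ => o.zero
      | _, ringFunc.one => fun _ => o.one
    RelMap := fun {_} R => R.elim }

theorem rop_mkM (o : RO ℕ) : rop (mkM o) = o := rfl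

/-- existence -/
theorem exG (M : LG.Structure ℕ) (hs : ∀ u v, gd M u v → gd M v u) (hi : ∀ u, ¬ gd M u u) :
    ∃ S, WG S ∧ SIso (gI.D S) M := by
  let Γ : SimpleGraph ℕ := { Adj := gd M, symm := ⟨hs⟩, loopless := ⟨hi⟩ }
  obtain ⟨o, h, v, hv, hA⟩ := exists_gen (α := ℕ) Γ
  have hS : rl (mkR (mkM o)) = o := by rw [rl_mkR, rop_mkM]
  have hW : WG (mkR (mkM o)) := ⟨mkR_W _, by rw [hS]; exact h⟩
  obtain ⟨u, hu, hua⟩ := label hW
  rw [hS] at hu hua
  -- the permutation
  have h1 : ∀ n, ∃ m, Pm o (u n) (v m) := fun n => hv.surj _ (hu.vx n)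
  have h2 : ∀ m, ∃ n, Pm o (v m) (u n) := fun m => hu.surj _ (hv.vx m)
  choose f hf using h1
  choose g hg using h2
  have hfg : ∀ m, f (g m) = m := by
    intro m
    by_contra hne
    exact hv.inj _ _ hne (h.symm (hv.vx _) (hv.vx _)
      (h.trans (hv.vx _) (hu.vx _) (hv.vx _) (hg m) (hf (g m))))
  have hgf : ∀ n, g (f n) = n := by
    intro n
    by_contra hne
    exact hu.inj _ _ hne (h.symm (hu.vx _) (hu.vx _)
      (h.trans (hu.vx _) (hv.vx _) (hu.vx _) (hf n) (hg (f n))))
  refine ⟨_, hW, siso_gd ⟨f, g, hgf, hfg⟩ fun a b => ?_⟩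
  have h3 := hA (f a) (f b)
  refine Iff.trans ?_ (hua a b).symm
  show Γ.Adj (f a) (f b) ↔ _
  rw [h3]
  constructor
  · exact h.cong (hv.vx _) (hv.vx _) (hu.vx _) (hu.vx _) (h.symm (hu.vx _) (hv.vx _) (hf a))
      (h.symm (hu.vx _) (hv.vx _) (hf b))
  · exact h.cong (hu.vx _) (hu.vx _) (hv.vx _) (hv.vx _) (hf a) (hf b)

/-- the reduction -/
theorem red_WG (hV : ∀ T' : LR.Theory, (∀ S : LR.Structure ℕ, @Theory.Model LR ℕ S T' →
    WG S) → Vaught LR T') (T : LG.Theory) : Vaught LG T := by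
  have := StD.countable_LG
  refine to_W 0 (fun T1 hT1 => ?_) T
  exact transferQ gI cntG T1 (fun M hM => exG M (hT1 M hM).sd.symm (hT1 M hM).sd.irrefl)
    fun T' hT' => hV T' fun S hS => (hT' S hS).1

instance : Inhabited (Language.ring.Structure ℕ) := ⟨mkM ⟨fun _ _ => 0, fun _ _ => 0, fun _ => 0,
  0, 0⟩⟩

/-- the main reduction -/
theorem main (h : ∀ T : Language.ring.Theory, T.IsComplete →
      (∀ M : Language.ring.Structure ℕ, @Theory.Model Language.ring ℕ M T → FR (rop M)) →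
        VaughtF Language.ring T)
    (L : FirstOrder.Language.{0, 0}) (hL : Countable L.Symbols) (T : L.Theory) :
    VaughtF L T := by
  refine all_of_LG (fun T1 => red_WG (fun T2 hT2 => ?_) T1) L hL T
  refine red_fun (L := Language.ring) (P := WG) (Q := fun M => FR (rop M)) (fun S hS => hS.1)
    (fun M hM => ?_) h T2 hT2
  rw [← rl_mkR]
  exact hM.2

end Pool.Agent.H4.VR
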