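import Pool.Agent.H4.VR.Rg

set_option autoImplicit false
set_option linter.unusedSectionVars false
set_option linter.unusedVariables false

/-! The rings of the class are local. -/

namespace Pool.Agent.H4.VR

variable {R : Type} [CommRing R] [RC R]

theorem rc_nontrivial (R : Type) [CommRing R] [RC R] : Nontrivial R := ⟨⟨1, 0, RC.one⟩⟩

theorem not_unit {x : R} (hx : x ∈ NN R) : ¬ IsUnit x := by
  intro h
  have := rc_nontrivial R
  have h1 := (h.mul h).mul h
  rw [mem_NN.1 hx] at h1
  exact not_isUnit_zero h1

theorem unit_of {x : R} (hx : x ∉ NN R) : IsUnit x := by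
  obtain ⟨c, hc⟩ := res' x
  have hu : IsUnit (ca R c) := by
    rcases z3 c with rfl | rfl | rfl
    · rw [ca_zero, sub_zero] at hc
      exact absurd hc hx
    · rw [ca_one]
      exact isUnit_one
    · rw [ca_neg]
      exact isUnit_one.neg
  have hn : IsNilpotent (x - ca R c) := ⟨3, by
    rw [pow_succ, pow_two]
    exact mem_NN.1 hc⟩
  have h1 := hn.isUnit_add_left_of_commute hu (Commute.all _ _)
  rwa [add_sub_cancel] at h1

theorem nonunit_iff {x : R} : x ∈ nonunits R ↔ x ∈ NN R := by
  constructor
  · intro h
    by_contra h1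
    exact h (unit_of h1)
  · exact not_unit

theorem rc_local (R : Type) [CommRing R] [RC R] : IsLocalRing R := by
  have := rc_nontrivial R
  refine IsLocalRing.of_nonunits_add fun a b ha hb => ?_
  rw [nonunit_iff] at ha hb ⊢
  exact add_mem ha hb

theorem mem_max [IsLocalRing R] {x : R} : x ∈ IsLocalRing.maximalIdeal R ↔ x ∈ NN R := by
  rw [IsLocalRing.mem_maximalIdeal, nonunit_iff]

theorem max_cube [IsLocalRing R] : IsLocalRing.maximalIdeal R ^ 3 = ⊥ := by
  rw [eq_bot_iff, pow_succ, pow_two, Ideal.mul_le]
  intro r hr s hs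
  rw [Ideal.mem_bot]
  refine Submodule.mul_induction_on hr (fun a ha b hb => ?_) (fun a b ha hb => ?_)
  · exact RC.nil a b s (mem_NN.1 (mem_max.1 ha)) (mem_NN.1 (mem_max.1 hb))
      (mem_NN.1 (mem_max.1 hs))
  · rw [add_mul, ha, hb, add_zero]

theorem char_three (R : Type) [CommRing R] [RC R] : CharP R 3 := by
  have := rc_nontrivial R
  have h3 : ((3 : ℕ) : R) = 0 := by
    have := RC.three (R := R)
    push_cast
    linear_combination this
  exact (CharP.charP_iff_prime_eq_zero Nat.prime_three).2 h3

theorem residue_card [IsLocalRing R] : Nat.card (IsLocalRing.ResidueField R) = 3 := by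
  let f : ZMod 3 → IsLocalRing.ResidueField R := fun c => IsLocalRing.residue R (ca R c)
  have hf : Function.Bijective f := by
    constructor
    · intro c d hcd
      have h1 : IsLocalRing.residue R (ca R c - ca R d) = 0 := by
        rw [map_sub, sub_eq_zero]
        exact hcd
      rw [IsLocalRing.residue_eq_zero_iff, mem_max] at h1
      have h2 : ca R (c - d) = ca R c - ca R d := by
        have h3 := ca_add (R := R) (c - d) d
        rw [sub_add_cancel] at h3
        rw [h3, add_sub_cancel_right]
      rw [← h2] at h1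
      exact sub_eq_zero.1 (ca_mem h1)
    · intro y
      obtain ⟨x, rfl⟩ := IsLocalRing.residue_surjective y
      obtain ⟨c, hc⟩ := res' x
      refine ⟨c, ?_⟩
      have h1 : IsLocalRing.residue R (x - ca R c) = 0 := by
        rw [IsLocalRing.residue_eq_zero_iff, mem_max]
        exact hc
      rw [map_sub, sub_eq_zero] at h1
      exact h1.symm
  rw [← Nat.card_congr (Equiv.ofBijective f hf), Nat.card_zmod]

end Pool.Agent.H4.VR
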