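import Pool.Agent.H4.VR.Tri2

set_option autoImplicit false
set_option linter.unusedSectionVars false
set_option linter.unusedVariables false

/-! The symmetric bilinear map of a graph. -/

namespace Pool.Agent.H4.VR

variable {V : Type} (Γ : SimpleGraph V)

/-- the basis -/
abbrev BS : Type := V ⊕ (Γ.edgeSet × Bool)

/-- the first space -/
abbrev WW : Type := BS Γ →₀ ZMod 3

/-- the second space -/
abbrev ZZ : Type := (BS Γ × BS Γ) →₀ ZMod 3

/-- the two orientations of an edge -/
noncomputable def orient (e : Sym2 V) : ZZ Γ :=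
  Sym2.lift ⟨fun v w => Finsupp.single (Sum.inl v, Sum.inl w) 1 +
    Finsupp.single (Sum.inl w, Sum.inl v) 1, fun v w => add_comm _ _⟩ e

theorem orient_mk (v w : V) : orient Γ s(v, w) =
    Finsupp.single (Sum.inl v, Sum.inl w) 1 + Finsupp.single (Sum.inl w, Sum.inl v) 1 := rfl

/-- the square of a basis element -/
noncomputable def sqb : BS Γ → ZZ Γ
  | Sum.inl _ => 0
  | Sum.inr (e, s) => sc s • orient Γ e

open Classical in
/-- the products of the basis elements -/
noncomputable def dd (b b' : BS Γ) : ZZ Γ :=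
  if b = b' then sqb Γ b else Finsupp.single (b, b') 1 + Finsupp.single (b', b) 1

/-- the bilinear map -/
noncomputable def cc : WW Γ →ₗ[ZMod 3] WW Γ →ₗ[ZMod 3] ZZ Γ :=
  Finsupp.linearCombination (ZMod 3) fun b => Finsupp.linearCombination (ZMod 3) (dd Γ b)

theorem cc_single (b b' : BS Γ) :
    cc Γ (Finsupp.single b 1) (Finsupp.single b' 1) = dd Γ b b' := by
  simp [cc]

theorem cc_self_single (s : BS Γ) :
    cc Γ (Finsupp.single s 1) (Finsupp.single s 1) = sqb Γ s := by
  rw [cc_single]
  simp [dd]

theorem bil_ext {M : Type} [AddCommGroup M] [Module (ZMod 3) M]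
    {f g : WW Γ →ₗ[ZMod 3] WW Γ →ₗ[ZMod 3] M}
    (h : ∀ b b', f (Finsupp.single b 1) (Finsupp.single b' 1) =
      g (Finsupp.single b 1) (Finsupp.single b' 1)) : f = g := by
  refine LinearMap.ext_basis Finsupp.basisSingleOne Finsupp.basisSingleOne fun b b' => ?_
  simpa using h b b'

theorem cc_symm (x y : WW Γ) : cc Γ x y = cc Γ y x := by
  have h : cc Γ = (cc Γ).flip := by
    refine bil_ext Γ fun b b' => ?_
    rw [LinearMap.flip_apply, cc_single, cc_single]
    unfold dd
    by_cases hb : b = b'
    · subst hb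
      rfl
    · rw [if_neg hb, if_neg (Ne.symm hb), add_comm]
  exact LinearMap.congr_fun (LinearMap.congr_fun h x) y

variable {Γ}

theorem sqb_apply (b : BS Γ) (s t : BS Γ) :
    (∀ v w, ¬ (s = Sum.inl v ∧ t = Sum.inl w ∧ Γ.Adj v w)) → sqb Γ b (s, t) = 0 := by
  classical
  intro h0
  rcases b with v | ⟨⟨e, he⟩, σ⟩
  · rfl
  · show (sc σ • orient Γ e) (s, t) = 0
    induction e using Sym2.ind with
    | _ v w =>
      rw [orient_mk]
      have hvw : Γ.Adj v w := he
      simp only [Finsupp.smul_apply, Finsupp.add_apply, Finsupp.single_apply, Prod.mk.injEq]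
      have h3 : ¬ ((Sum.inl v : BS Γ) = s ∧ (Sum.inl w : BS Γ) = t) := fun h =>
        h0 v w ⟨h.1.symm, h.2.symm, hvw⟩
      have h4 : ¬ ((Sum.inl w : BS Γ) = s ∧ (Sum.inl v : BS Γ) = t) := fun h =>
        h0 w v ⟨h.1.symm, h.2.symm, hvw.symm⟩
      rw [if_neg h3, if_neg h4, add_zero, smul_zero]

/-- the coefficients which do not belong to edges of the graph -/
theorem cc_apply (x y : WW Γ) (s t : BS Γ) (hst : s ≠ t)
    (h0 : ∀ v w, ¬ (s = Sum.inl v ∧ t = Sum.inl w ∧ Γ.Adj v w)) :
    cc Γ x y (s, t) = x s * y t + x t * y s := by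
  have h : (cc Γ).compr₂ (Finsupp.lapply (s, t)) =
      (LinearMap.mul (ZMod 3) (ZMod 3)).compl₁₂ (Finsupp.lapply s) (Finsupp.lapply t) +
      (LinearMap.mul (ZMod 3) (ZMod 3)).compl₁₂ (Finsupp.lapply t) (Finsupp.lapply s) := by
    classical
    refine bil_ext Γ fun b b' => ?_
    simp only [LinearMap.compr₂_apply, LinearMap.compl₁₂_apply, Finsupp.lapply_apply,
      LinearMap.mul_apply', cc_single, LinearMap.add_apply]
    by_cases hb : b = b'
    · subst hb
      have h1 : (Finsupp.single b (1 : ZMod 3)) s * (Finsupp.single b (1 : ZMod 3)) t = 0 := by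
        simp only [Finsupp.single_apply]
        by_cases h1 : b = s
        · have h2 : ¬ b = t := fun h2 => hst (h1.symm.trans h2)
          rw [if_neg h2, mul_zero]
        · rw [if_neg h1, zero_mul]
      rw [mul_comm (Finsupp.single b (1 : ZMod 3) t), h1, add_zero]
      have h2 : dd Γ b b = sqb Γ b := by simp [dd]
      rw [h2]
      exact sqb_apply b s t h0
    · unfold dd
      rw [if_neg hb]
      simp only [Finsupp.add_apply, Finsupp.single_apply, Prod.mk.injEq]
      congr 1
      · by_cases h1 : b = s <;> by_cases h2 : b' = t <;> simp [h1, h2]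
      · by_cases h1 : b = t <;> by_cases h2 : b' = s <;> simp [h1, h2]
  exact LinearMap.congr_fun (LinearMap.congr_fun h x) y

/-- no diagonal terms -/
theorem cc_diag (x y : WW Γ) (s : BS Γ) : cc Γ x y (s, s) = 0 := by
  have h : (cc Γ).compr₂ (Finsupp.lapply (s, s)) = 0 := by
    classical
    refine bil_ext Γ fun b b' => ?_
    simp only [LinearMap.compr₂_apply, Finsupp.lapply_apply, cc_single, LinearMap.zero_apply]
    by_cases hb : b = b'
    · subst hb
      have h2 : dd Γ b b = sqb Γ b := by simp [dd]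
      rw [h2]
      refine sqb_apply b s s fun v w h => ?_
      obtain ⟨h1, h2, h3⟩ := h
      exact h3.ne (Sum.inl_injective (h1.symm.trans h2))
    · unfold dd
      rw [if_neg hb]
      simp only [Finsupp.add_apply, Finsupp.single_apply, Prod.mk.injEq]
      rw [if_neg, if_neg, add_zero]
      · rintro ⟨rfl, rfl⟩
        exact hb rfl
      · rintro ⟨rfl, rfl⟩
        exact hb rfl
  exact LinearMap.congr_fun (LinearMap.congr_fun h x) y

/-- the coefficients which belong to the edges of the graph -/
theorem cc_edge (x y : WW Γ) {v w : V} (h : Γ.Adj v w) :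
    cc Γ x y (Sum.inl v, Sum.inl w) = x (Sum.inl v) * y (Sum.inl w) +
      x (Sum.inl w) * y (Sum.inl v) +
      (x (Sum.inr (⟨s(v, w), h⟩, true)) * y (Sum.inr (⟨s(v, w), h⟩, true)) -
      x (Sum.inr (⟨s(v, w), h⟩, false)) * y (Sum.inr (⟨s(v, w), h⟩, false))) := by
  have h : (cc Γ).compr₂ (Finsupp.lapply ((Sum.inl v : BS Γ), (Sum.inl w : BS Γ))) =
      (LinearMap.mul (ZMod 3) (ZMod 3)).compl₁₂ (Finsupp.lapply (Sum.inl v : BS Γ))
        (Finsupp.lapply (Sum.inl w : BS Γ)) +
      (LinearMap.mul (ZMod 3) (ZMod 3)).compl₁₂ (Finsupp.lapply (Sum.inl w : BS Γ))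
        (Finsupp.lapply (Sum.inl v : BS Γ)) +
      ((LinearMap.mul (ZMod 3) (ZMod 3)).compl₁₂
        (Finsupp.lapply (Sum.inr (⟨s(v, w), h⟩, true) : BS Γ))
        (Finsupp.lapply (Sum.inr (⟨s(v, w), h⟩, true) : BS Γ)) -
      (LinearMap.mul (ZMod 3) (ZMod 3)).compl₁₂
        (Finsupp.lapply (Sum.inr (⟨s(v, w), h⟩, false) : BS Γ))
        (Finsupp.lapply (Sum.inr (⟨s(v, w), h⟩, false) : BS Γ))) := by
    classical
    refine bil_ext Γ fun b b' => ?_
    simp only [LinearMap.compr₂_apply, LinearMap.compl₁₂_apply, Finsupp.lapply_apply,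
      LinearMap.mul_apply', cc_single, LinearMap.add_apply, LinearMap.sub_apply]
    by_cases hb : b = b'
    · subst hb
      have h2 : dd Γ b b = sqb Γ b := by simp [dd]
      rw [h2]
      rcases b with a | ⟨⟨e, he⟩, σ⟩
      · show (0 : ZMod 3) = _
        simp only [Finsupp.single_apply]
        by_cases h1 : (Sum.inl a : BS Γ) = Sum.inl v
        · have h3 : ¬ (Sum.inl a : BS Γ) = Sum.inl w := fun h3 =>
            h.ne (Sum.inl_injective (h1.symm.trans h3))
          simp [h3]
        · simp [h1]
      · show (sc σ • orient Γ e) (Sum.inl v, Sum.inl w) = _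
        induction e using Sym2.ind with
        | _ c d =>
          rw [orient_mk]
          have hcd : Γ.Adj c d := he
          simp only [Finsupp.smul_apply, Finsupp.add_apply, Finsupp.single_apply,
            Prod.mk.injEq, Sum.inl.injEq, Sum.inr.injEq, reduceCtorEq, if_false, zero_mul,
            zero_add]
          by_cases h3 : s(c, d) = s(v, w)
          · have h3' : (⟨s(c, d), he⟩ : Γ.edgeSet) = ⟨s(v, w), h⟩ := Subtype.ext h3
            have h4 : (if c = v ∧ d = w then (1 : ZMod 3) else 0) +
                (if d = v ∧ c = w then 1 else 0) = 1 := by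
              rcases Sym2.eq_iff.1 h3 with ⟨rfl, rfl⟩ | ⟨rfl, rfl⟩
              · have h5 : ¬ (d = c ∧ c = d) := fun h5 => h.ne h5.2
                simp [h5]
              · have h5 : ¬ (c = d ∧ d = c) := fun h5 => h.ne h5.2
                simp [h5]
            rw [h4, h3']
            cases σ
            · simp [sc]
            · simp [sc]
          · have h4 : ¬ (c = v ∧ d = w) := fun h4 => h3 (by rw [h4.1, h4.2])
            have h5 : ¬ (d = v ∧ c = w) := fun h5 => h3 (by rw [h5.1, h5.2, Sym2.eq_swap])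
            have h6 : ¬ (⟨s(c, d), he⟩ : Γ.edgeSet) = ⟨s(v, w), h⟩ := fun e =>
              h3 (congrArg Subtype.val e)
            have h7 : ∀ τ : Bool, ¬ ((⟨s(c, d), he⟩ : Γ.edgeSet) = ⟨s(v, w), h⟩ ∧ σ = τ) :=
              fun τ h7 => h6 h7.1
            rw [if_neg h4, if_neg h5, if_neg (h7 _), if_neg (h7 _)]
            simp
    · unfold dd
      rw [if_neg hb]
      simp only [Finsupp.add_apply, Finsupp.single_apply, Prod.mk.injEq]
      have h3 : ∀ s : BS Γ, (if b = s then (1 : ZMod 3) else 0) *
          (if b' = s then (1 : ZMod 3) else 0) = 0 := by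
        intro s
        by_cases h1 : b = s
        · have h2 : ¬ b' = s := fun h2 => hb (h1.trans h2.symm)
          simp [h2]
        · simp [h1]
      rw [h3, h3, sub_zero, add_zero]
      congr 1
      · by_cases h1 : b = Sum.inl v <;> by_cases h2 : b' = Sum.inl w <;> simp [h1, h2]
      · by_cases h1 : b = Sum.inl w <;> by_cases h2 : b' = Sum.inl v <;> simp [h1, h2]
  exact LinearMap.congr_fun (LinearMap.congr_fun h x) y

theorem single_of {x : WW Γ} {s : BS Γ} (h : ∀ t, t ≠ s → x t = 0) :
    x = x s • Finsupp.single s 1 := by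
  classical
  ext t
  rw [Finsupp.smul_apply, Finsupp.single_apply]
  by_cases ht : s = t
  · subst ht
    rw [if_pos rfl, smul_eq_mul, mul_one]
  · rw [if_neg ht, smul_zero]
    exact h t (Ne.symm ht)

theorem orient_ne (e : Γ.edgeSet) : orient Γ (e : Sym2 V) ≠ 0 := by
  obtain ⟨e, he⟩ := e
  induction e using Sym2.ind with
  | _ v w =>
    classical
    intro h
    have hvw : Γ.Adj v w := he
    have h1 := DFunLike.congr_fun h ((Sum.inl v : BS Γ), (Sum.inl w : BS Γ))
    change orient Γ s(v, w) _ = 0 at h1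
    rw [orient_mk] at h1
    have h2 : ¬ (w = v ∧ v = w) := fun h2 => hvw.ne h2.2
    simp [h2] at h1

theorem sqb_inr_ne (e : Γ.edgeSet × Bool) : sqb Γ (Sum.inr e) ≠ 0 := by
  obtain ⟨e, σ⟩ := e
  exact smul_ne_zero (sc_ne σ) (orient_ne e)

theorem two_ne : (2 : ZMod 3) ≠ 0 := by decide

theorem dbl {a c : ZMod 3} (h : a * c + c * a = 0) (ha : a ≠ 0) : c = 0 := by
  have h1 : 2 * (a * c) = 0 := by rw [two_mul, ← h, mul_comm c a]
  rcases mul_eq_zero.1 h1 with h2 | h2
  · exact absurd h2 two_ne
  · exact (mul_eq_zero.1 h2).resolve_left ha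

/-- the elements with trivial square -/
theorem sq_zero {x : WW Γ} (h : cc Γ x x = 0) (hx : x ≠ 0) :
    ∃ v, ∃ c : ZMod 3, c ≠ 0 ∧ x = c • Finsupp.single (Sum.inl v) 1 := by
  have hE : ∀ e : Γ.edgeSet × Bool, x (Sum.inr e) = 0 := by
    intro e
    by_contra he
    have h1 : x = x (Sum.inr e) • Finsupp.single (Sum.inr e) 1 := by
      refine single_of fun t ht => ?_
      have h2 := cc_apply x x (Sum.inr e) t (Ne.symm ht) (fun v w hvw => by
        simpa using hvw.1)
      rw [h, Finsupp.zero_apply] at h2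
      exact dbl h2.symm he
    rw [h1, map_smul, map_smul, LinearMap.smul_apply, cc_self_single] at h
    exact smul_ne_zero he (smul_ne_zero he (sqb_inr_ne e)) h
  obtain ⟨s, hs⟩ : ∃ s, x s ≠ 0 := by
    by_contra hcon
    push Not at hcon
    exact hx (Finsupp.ext hcon)
  rcases s with v | e
  · refine ⟨v, _, hs, single_of fun t ht => ?_⟩
    rcases t with w | e
    · by_cases hvw : Γ.Adj v w
      · have h2 := cc_edge x x hvw
        rw [h, hE, hE, Finsupp.zero_apply] at h2
        simp only [mul_zero, sub_zero, add_zero] at h2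
        exact dbl h2.symm hs
      · have h2 := cc_apply x x (Sum.inl v) (Sum.inl w) (Ne.symm ht) (fun v' w' h' => by
          obtain ⟨h1, h2, h3⟩ := h'
          have h1' := Sum.inl_injective h1
          have h2' := Sum.inl_injective h2
          subst h1' h2'
          exact hvw h3)
        rw [h, Finsupp.zero_apply] at h2
        exact dbl h2.symm hs
    · exact hE e
  · exact absurd (hE e) hs

theorem signs : ∀ c d p q : ZMod 3, c ≠ 0 → d ≠ 0 → p * q + q * p = c * d →
    (p = c ∧ q = -d) ∨ (p = -c ∧ q = d) := by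
  decide

/-- the elements whose square is the product of two vertices -/
theorem sq_comm {u : WW Γ} {v w : V} (hvw : v ≠ w) {c d : ZMod 3} (hc : c ≠ 0) (hd : d ≠ 0)
    (h : cc Γ u u = (c * d) • (Finsupp.single (Sum.inl v, Sum.inl w) 1 +
      Finsupp.single (Sum.inl w, Sum.inl v) 1))
    (hu : ¬ PM u (c • Finsupp.single (Sum.inl v) 1 - d • Finsupp.single (Sum.inl w) 1)) :
    ∃ (hA : Γ.Adj v w) (σ : Bool) (f : ZMod 3), f ≠ 0 ∧ sc σ = c * d ∧
      u = f • Finsupp.single (Sum.inr (⟨s(v, w), hA⟩, σ)) 1 := by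
  classical
  by_cases hE : ∃ e : Γ.edgeSet × Bool, u (Sum.inr e) ≠ 0
  · obtain ⟨e, he⟩ := hE
    have h1 : u = u (Sum.inr e) • Finsupp.single (Sum.inr e) 1 := by
      refine single_of fun t ht => ?_
      have h2 := cc_apply u u (Sum.inr e) t (Ne.symm ht) (fun v w hvw => by
        simpa using hvw.1)
      rw [h] at h2
      refine dbl (h2.symm.trans ?_) he
      simp
    set f := u (Sum.inr e)
    clear_value f
    subst h1
    rw [map_smul, map_smul, LinearMap.smul_apply, cc_self_single, smul_smul] at h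
    have hff : f * f = 1 := by
      rcases z3' he with rfl | rfl <;> decide
    rw [hff, one_smul] at h
    obtain ⟨⟨e, he'⟩, σ⟩ := e
    have h2 : sc σ • orient Γ e = (c * d) • (Finsupp.single ((Sum.inl v : BS Γ),
      (Sum.inl w : BS Γ)) (1 : ZMod 3) + Finsupp.single ((Sum.inl w : BS Γ),
      (Sum.inl v : BS Γ)) 1) := h
    clear h hu
    induction e using Sym2.ind with
    | _ a b =>
      rw [orient_mk] at h2
      have hab : Γ.Adj a b := he'
      have h3 := DFunLike.congr_fun h2 ((Sum.inl v : BS Γ), (Sum.inl w : BS Γ))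
      have h4 : ¬ (w = v ∧ v = w) := fun h4 => hvw h4.2
      simp only [Finsupp.smul_apply, Finsupp.add_apply, Finsupp.single_apply, Prod.mk.injEq,
        Sum.inl.injEq, if_true, if_neg h4, add_zero, smul_eq_mul, mul_one] at h3
      have h5 : (a = v ∧ b = w) ∨ (b = v ∧ a = w) := by
        by_contra hcon
        push Not at hcon
        have h6 : ¬ (a = v ∧ b = w) := fun h6 => hcon.1 h6.1 h6.2
        have h7 : ¬ (b = v ∧ a = w) := fun h7 => hcon.2 h7.1 h7.2
        rw [if_neg h6, if_neg h7, add_zero, mul_zero] at h3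
        exact mul_ne_zero hc hd h3.symm
      rcases h5 with ⟨rfl, rfl⟩ | ⟨rfl, rfl⟩
      · refine ⟨hab, σ, f, he, ?_, rfl⟩
        have h6 : ¬ (b = a ∧ a = b) := fun h6 => hvw h6.2
        rw [if_pos ⟨rfl, rfl⟩, if_neg h6, add_zero, mul_one] at h3
        exact h3
      · refine ⟨hab.symm, σ, f, he, ?_, ?_⟩
        · have h6 : ¬ (a = b ∧ b = a) := fun h6 => hvw h6.2
          rw [if_neg h6, if_pos ⟨rfl, rfl⟩, zero_add, mul_one] at h3
          exact h3
        · congr 4
          exact Subtype.ext Sym2.eq_swap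
  · exfalso
    push Not at hE
    have key : ∀ a b : V, a ≠ b → u (Sum.inl a) * u (Sum.inl b) + u (Sum.inl b) * u (Sum.inl a) =
        (c * d) * ((if a = v ∧ b = w then 1 else 0) + (if a = w ∧ b = v then 1 else 0)) := by
      intro a b hab
      have h1 : cc Γ u u (Sum.inl a, Sum.inl b) =
          u (Sum.inl a) * u (Sum.inl b) + u (Sum.inl b) * u (Sum.inl a) := by
        by_cases hA : Γ.Adj a b
        · rw [cc_edge u u hA, hE, hE]
          simp
        · refine cc_apply u u (Sum.inl a) (Sum.inl b) (fun e => hab (Sum.inl_injective e))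
            (fun v' w' h' => ?_)
          obtain ⟨h1, h2, h3⟩ := h'
          have h1' := Sum.inl_injective h1
          have h2' := Sum.inl_injective h2
          subst h1' h2'
          exact hA h3
      rw [← h1, h]
      simp only [Finsupp.smul_apply, Finsupp.add_apply, Finsupp.single_apply, Prod.mk.injEq,
        Sum.inl.injEq, smul_eq_mul]
      congr 2
      · congr 1
        exact propext ⟨fun h => ⟨h.1.symm, h.2.symm⟩, fun h => ⟨h.1.symm, h.2.symm⟩⟩
      · congr 1
        exact propext ⟨fun h => ⟨h.1.symm, h.2.symm⟩, fun h => ⟨h.1.symm, h.2.symm⟩⟩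
    have h1 := key v w hvw
    have h4 : ¬ (v = w ∧ w = v) := fun h4 => hvw h4.1
    rw [if_pos ⟨rfl, rfl⟩, if_neg h4, add_zero, mul_one] at h1
    have hv : u (Sum.inl v) ≠ 0 := fun h0 => by
      rw [h0, zero_mul, mul_zero, add_zero] at h1
      exact mul_ne_zero hc hd h1.symm
    have h0 : ∀ t, t ≠ v → t ≠ w → u (Sum.inl t) = 0 := by
      intro t htv htw
      have h2 := key v t (Ne.symm htv)
      rw [if_neg (fun h => htw h.2), if_neg (fun h => hvw h.1), add_zero, mul_zero] at h2
      exact dbl h2 hv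
    apply hu
    rcases signs c d _ _ hc hd h1 with ⟨h5, h6⟩ | ⟨h5, h6⟩
    · left
      ext t
      rcases t with t | e
      · simp only [Finsupp.sub_apply, Finsupp.smul_apply, Finsupp.single_apply, Sum.inl.injEq,
          smul_eq_mul]
        by_cases htv : v = t
        · subst htv
          rw [if_pos rfl, if_neg (Ne.symm hvw), h5]
          ring
        · by_cases htw : w = t
          · subst htw
            rw [if_neg htv, if_pos rfl, h6]
            ring
          · rw [if_neg htv, if_neg htw, h0 t (Ne.symm htv) (Ne.symm htw)]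
            ring
      · rw [hE]
        simp
    · right
      ext t
      rcases t with t | e
      · simp only [Finsupp.neg_apply, Finsupp.sub_apply, Finsupp.smul_apply,
          Finsupp.single_apply, Sum.inl.injEq, smul_eq_mul]
        by_cases htv : v = t
        · subst htv
          rw [if_pos rfl, if_neg (Ne.symm hvw), h5]
          ring
        · by_cases htw : w = t
          · subst htw
            rw [if_neg htv, if_pos rfl, h6]
            ring
          · rw [if_neg htv, if_neg htw, h0 t (Ne.symm htv) (Ne.symm htw)]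
            ring
      · rw [hE]
        simp

end Pool.Agent.H4.VR
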