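import Pool.Agent.H4.VR.Mod

set_option autoImplicit false
set_option linter.unusedSectionVars false
set_option linter.unusedVariables false

/-! The symmetric bilinear map of a graph belongs to the class. -/

namespace Pool.Agent.H4.VR

variable {V : Type} {Γ : SimpleGraph V}

theorem single_inj {s t : BS Γ} {c d : ZMod 3} (hc : c ≠ 0)
    (h : c • (Finsupp.single s 1 : WW Γ) = d • Finsupp.single t 1) : s = t ∧ c = d := by
  classical
  have h1 := DFunLike.congr_fun h s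
  simp only [Finsupp.smul_apply, Finsupp.single_eq_same, smul_eq_mul, mul_one,
    Finsupp.single_apply] at h1
  by_cases hst : t = s
  · rw [if_pos hst, mul_one] at h1
    exact ⟨hst.symm, h1⟩
  · rw [if_neg hst, mul_zero] at h1
    exact absurd h1 hc

theorem smul_single_ne (s : BS Γ) {c : ZMod 3} (hc : c ≠ 0) :
    c • (Finsupp.single s 1 : WW Γ) ≠ 0 := by
  refine smul_ne_zero hc ?_
  rw [ne_eq, Finsupp.single_eq_zero]
  exact one_ne_zero

theorem pm_single {s t : BS Γ} {c d : ZMod 3} (hc : c ≠ 0) (hd : d ≠ 0) :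
    PM (c • (Finsupp.single s 1 : WW Γ)) (d • Finsupp.single t 1) ↔ s = t := by
  constructor
  · rintro (h | h)
    · exact (single_inj hc h).1
    · rw [← neg_smul] at h
      exact (single_inj hc h).1
  · rintro rfl
    rcases z3' hc with rfl | rfl <;> rcases z3' hd with rfl | rfl
    · exact Or.inl rfl
    · right
      simp
    · right
      simp
    · exact Or.inl rfl

theorem VV_iff (x : WW Γ) : VV (cc Γ) x ↔ ∃ v, ∃ c : ZMod 3, c ≠ 0 ∧
    x = c • Finsupp.single (Sum.inl v) 1 := by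
  constructor
  · rintro ⟨h1, h2⟩
    exact sq_zero h2 h1
  · rintro ⟨v, c, hc, rfl⟩
    refine ⟨smul_single_ne _ hc, ?_⟩
    rw [map_smul, map_smul, LinearMap.smul_apply, cc_self_single]
    show c • c • (0 : ZZ Γ) = 0
    rw [smul_zero, smul_zero]

theorem cc_vert {v w : V} (hvw : v ≠ w) (c d : ZMod 3) :
    cc Γ (c • Finsupp.single (Sum.inl v) 1) (d • Finsupp.single (Sum.inl w) 1) =
      (c * d) • (Finsupp.single (Sum.inl v, Sum.inl w) 1 +
        Finsupp.single (Sum.inl w, Sum.inl v) 1) := by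
  rw [map_smul, map_smul, LinearMap.smul_apply, cc_single, smul_smul, mul_comm d c]
  unfold dd
  rw [if_neg (fun e => hvw (Sum.inl_injective e))]

theorem IsE_iff (x y e : WW Γ) : IsE (cc Γ) x y e ↔ ∃ (v w : V) (h : Γ.Adj v w) (c d f : ZMod 3)
    (σ : Bool), c ≠ 0 ∧ d ≠ 0 ∧ f ≠ 0 ∧ sc σ = c * d ∧ x = c • Finsupp.single (Sum.inl v) 1 ∧
      y = d • Finsupp.single (Sum.inl w) 1 ∧
      e = f • Finsupp.single (Sum.inr (⟨s(v, w), h⟩, σ)) 1 := by
  classical
  unfold IsE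
  rw [VV_iff, VV_iff]
  constructor
  · rintro ⟨⟨v, c, hc, rfl⟩, ⟨w, d, hd, rfl⟩, hne, h1, h2⟩
    have hvw : v ≠ w := by
      rintro rfl
      exact hne ((pm_single hc hd).2 rfl)
    rw [cc_vert hvw] at h1
    obtain ⟨hA, σ, f, hf, hσ, h4⟩ := sq_comm hvw hc hd h1 h2
    exact ⟨v, w, hA, c, d, f, σ, hc, hd, hf, hσ, rfl, rfl, h4⟩
  · rintro ⟨v, w, hA, c, d, f, σ, hc, hd, hf, hσ, rfl, rfl, rfl⟩
    refine ⟨⟨v, c, hc, rfl⟩, ⟨w, d, hd, rfl⟩, ?_, ?_, ?_⟩
    · rw [pm_single hc hd]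
      intro h
      exact hA.ne (Sum.inl_injective h)
    · rw [cc_vert hA.ne, map_smul, map_smul, LinearMap.smul_apply, cc_self_single, smul_smul]
      have hff : f * f = 1 := by
        rcases z3' hf with rfl | rfl <;> decide
      rw [hff, one_smul]
      show sc σ • orient Γ s(v, w) = _
      rw [hσ, orient_mk]
    · intro h
      have h1 : ∀ p : ZMod 3, f • (Finsupp.single (Sum.inr (⟨s(v, w), hA⟩, σ)) 1 : WW Γ) ≠
          p • (c • Finsupp.single (Sum.inl v) 1 - d • Finsupp.single (Sum.inl w) 1) := by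
        intro p hp
        have h2 := DFunLike.congr_fun hp (Sum.inr (⟨s(v, w), hA⟩, σ))
        simp at h2
        exact hf h2
      rcases h with h | h
      · exact h1 1 (by rw [one_smul]; exact h)
      · exact h1 (-1) (by rw [neg_smul, one_smul]; exact h)

theorem exists_sc : ∀ c d : ZMod 3, c ≠ 0 → d ≠ 0 → ∃ σ, sc σ = c * d := by
  intro c d hc hd
  rcases z3' (mul_ne_zero hc hd) with h | h
  · exact ⟨true, h.symm⟩
  · exact ⟨false, h.symm⟩

theorem BB_iff (x : WW Γ) : x ∈ BB (cc Γ) ↔ ∃ s, ∃ c : ZMod 3, c ≠ 0 ∧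
    x = c • Finsupp.single s 1 := by
  show (VV (cc Γ) x ∨ ∃ v w, IsE (cc Γ) v w x) ↔ _
  rw [VV_iff]
  constructor
  · rintro (⟨v, c, hc, hv⟩ | ⟨y, z, h⟩)
    · exact ⟨_, c, hc, hv⟩
    · obtain ⟨v, w, hA, c, d, f, σ, hc, hd, hf, hσ, -, -, h1⟩ := (IsE_iff _ _ _).1 h
      exact ⟨_, f, hf, h1⟩
  · rintro ⟨v | ⟨⟨e, he⟩, σ⟩, c, hc, hs⟩
    · exact Or.inl ⟨v, c, hc, hs⟩
    · right
      induction e using Sym2.ind with
      | _ v w =>
        refine ⟨(1 : ZMod 3) • Finsupp.single (Sum.inl v) 1,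
          sc σ • Finsupp.single (Sum.inl w) 1, ?_⟩
        rw [IsE_iff]
        exact ⟨v, w, he, 1, sc σ, c, σ, one_ne_zero, sc_ne σ, hc, (one_mul _).symm, rfl, rfl,
          hs⟩

theorem indB_of (n : ℕ) (w : Fin n → WW Γ) (hB : ∀ i, w i ∈ BB (cc Γ))
    (hne : ∀ i j, i ≠ j → ¬ PM (w i) (w j)) : LinearIndependent (ZMod 3) w := by
  choose s c hc hs using fun i => (BB_iff (w i)).1 (hB i)
  have hi : Function.Injective s := by
    intro i j hij
    by_contra hn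
    refine hne i j hn ?_
    rw [hs i, hs j, pm_single (hc i) (hc j)]
    exact hij
  have h1 : LinearIndependent (ZMod 3)
      ((Finsupp.basisSingleOne (R := ZMod 3) (ι := BS Γ)) ∘ s) :=
    Finsupp.basisSingleOne.linearIndependent.comp _ hi
  have h2 := h1.units_smul (fun i => Units.mk0 (c i) (hc i))
  have e : w = (fun i => Units.mk0 (c i) (hc i)) •
      ((Finsupp.basisSingleOne (R := ZMod 3) (ι := BS Γ)) ∘ s) := by
    funext i
    rw [hs i]
    simp [Units.smul_def]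
  rw [e]
  exact h2

theorem uniq_of (v w e e' : WW Γ) (h : IsE (cc Γ) v w e) (h' : IsE (cc Γ) v w e') :
    PM e e' := by
  obtain ⟨a, b, hA, c, d, f, σ, hc, hd, hf, hσ, rfl, rfl, rfl⟩ := (IsE_iff _ _ _).1 h
  obtain ⟨a', b', hA', c', d', f', σ', hc', hd', hf', hσ', h1, h2, rfl⟩ := (IsE_iff _ _ _).1 h'
  obtain ⟨h3, rfl⟩ := single_inj hc h1
  obtain ⟨h4, rfl⟩ := single_inj hd h2
  have e1 := Sum.inl_injective h3
  have e2 := Sum.inl_injective h4
  subst e1 e2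
  have e3 := sc_inj (hσ.trans hσ'.symm)
  subst e3
  exact (pm_single hf hf').2 rfl

theorem adj_iff (x y : WW Γ) : Adj (cc Γ) x y ↔ ∃ (v w : V) (h : Γ.Adj v w) (c d : ZMod 3),
    c ≠ 0 ∧ d ≠ 0 ∧ x = c • Finsupp.single (Sum.inl v) 1 ∧
      y = d • Finsupp.single (Sum.inl w) 1 := by
  constructor
  · rintro ⟨e, he⟩
    obtain ⟨a, b, hA, c, d, f, σ, hc, hd, hf, hσ, h1, h2, -⟩ := (IsE_iff _ _ _).1 he
    exact ⟨a, b, hA, c, d, hc, hd, h1, h2⟩
  · rintro ⟨a, b, hA, c, d, hc, hd, h1, h2⟩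
    obtain ⟨σ, hσ⟩ := exists_sc c d hc hd
    exact ⟨_, (IsE_iff _ _ _).2 ⟨a, b, hA, c, d, 1, σ, hc, hd, one_ne_zero, hσ, h1, h2, rfl⟩⟩

theorem sgn_of (v w : WW Γ) (h : Adj (cc Γ) v w) : Adj (cc Γ) v (-w) := by
  obtain ⟨a, b, hA, c, d, hc, hd, h1, h2⟩ := (adj_iff _ _).1 h
  refine (adj_iff _ _).2 ⟨a, b, hA, c, -d, hc, neg_ne_zero.2 hd, h1, ?_⟩
  rw [h2, neg_smul]

/-- the matrix of a symmetric combination -/
def Tm {n : ℕ} (l : Fin n → Fin n → ZMod 3) (w : Fin n → WW Γ) (s t : BS Γ) : ZMod 3 :=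
  ∑ i, ∑ j, l i j * (w i s * w j t)

section tm

variable {n : ℕ} {l : Fin n → Fin n → ZMod 3} {w : Fin n → WW Γ}

theorem Tm_symm (hl : ∀ i j, l i j = l j i) (s t : BS Γ) : Tm l w s t = Tm l w t s := by
  unfold Tm
  rw [Finset.sum_comm]
  refine Finset.sum_congr rfl fun i _ => Finset.sum_congr rfl fun j _ => ?_
  rw [hl j i]
  ring

theorem Tm_non (hl : ∀ i j, l i j = l j i)
    (h0 : ∑ i, ∑ j, l i j • cc Γ (w i) (w j) = 0) (s t : BS Γ) (hst : s ≠ t)
    (hne : ∀ v w, ¬ (s = Sum.inl v ∧ t = Sum.inl w ∧ Γ.Adj v w)) : Tm l w s t = 0 := by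
  have h1 := DFunLike.congr_fun h0 (s, t)
  simp only [Finsupp.finsetSum_apply, Finsupp.smul_apply, Finsupp.zero_apply, smul_eq_mul] at h1
  have h2 : ∑ i, ∑ j, l i j * cc Γ (w i) (w j) (s, t) = Tm l w s t + Tm l w t s := by
    unfold Tm
    rw [← Finset.sum_add_distrib]
    refine Finset.sum_congr rfl fun i _ => ?_
    rw [← Finset.sum_add_distrib]
    refine Finset.sum_congr rfl fun j _ => ?_
    rw [cc_apply _ _ s t hst hne]
    ring
  rw [h2, Tm_symm hl t s, ← two_mul] at h1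
  exact (mul_eq_zero.1 h1).resolve_left two_ne

theorem Tm_edge (hl : ∀ i j, l i j = l j i)
    (h0 : ∑ i, ∑ j, l i j • cc Γ (w i) (w j) = 0) {a b : V} (h : Γ.Adj a b) :
    2 * Tm l w (Sum.inl a) (Sum.inl b) +
      (Tm l w (Sum.inr (⟨s(a, b), h⟩, true)) (Sum.inr (⟨s(a, b), h⟩, true)) -
        Tm l w (Sum.inr (⟨s(a, b), h⟩, false)) (Sum.inr (⟨s(a, b), h⟩, false))) = 0 := by
  have h1 := DFunLike.congr_fun h0 (Sum.inl a, Sum.inl b)
  simp only [Finsupp.finsetSum_apply, Finsupp.smul_apply, Finsupp.zero_apply, smul_eq_mul] at h1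
  have h2 : ∑ i, ∑ j, l i j * cc Γ (w i) (w j) (Sum.inl a, Sum.inl b) =
      Tm l w (Sum.inl a) (Sum.inl b) + Tm l w (Sum.inl b) (Sum.inl a) +
      (Tm l w (Sum.inr (⟨s(a, b), h⟩, true)) (Sum.inr (⟨s(a, b), h⟩, true)) -
        Tm l w (Sum.inr (⟨s(a, b), h⟩, false)) (Sum.inr (⟨s(a, b), h⟩, false))) := by
    unfold Tm
    rw [← Finset.sum_add_distrib, ← Finset.sum_sub_distrib, ← Finset.sum_add_distrib]
    refine Finset.sum_congr rfl fun i _ => ?_
    rw [← Finset.sum_add_distrib, ← Finset.sum_sub_distrib, ← Finset.sum_add_distrib]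
    refine Finset.sum_congr rfl fun j _ => ?_
    rw [cc_edge _ _ h]
    ring
  rw [h2, Tm_symm hl (Sum.inl b), ← two_mul] at h1
  exact h1

end tm

end Pool.Agent.H4.VR
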