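import Pool.Agent.H4.VR.Mod2

set_option autoImplicit false
set_option linter.unusedSectionVars false
set_option linter.unusedVariables false

/-! The symmetric bilinear map of a graph: relations between products. -/

namespace Pool.Agent.H4.VR

variable {V : Type} {Γ : SimpleGraph V}

/-- the first endpoint -/
noncomputable def fe1 : BS Γ → BS Γ
  | Sum.inl v => Sum.inl v
  | Sum.inr p => Sum.inl (Quot.out (p.1 : Sym2 V)).1

/-- the second endpoint -/
noncomputable def fe2 : BS Γ → BS Γ
  | Sum.inl v => Sum.inl v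
  | Sum.inr p => Sum.inl (Quot.out (p.1 : Sym2 V)).2

section

variable {n : ℕ} {l : Fin n → Fin n → ZMod 3} {w : Fin n → WW Γ}

/-- the regular elements with a diagonal coefficient -/
def PP (l : Fin n → Fin n → ZMod 3) (w : Fin n → WW Γ) (s : BS Γ) : Prop :=
  (∀ t, t ≠ s → Tm l w s t = 0) ∧ Tm l w s s ≠ 0

theorem pp_or (hl : ∀ i j, l i j = l j i) (h0 : ∑ i, ∑ j, l i j • cc Γ (w i) (w j) = 0)
    {s t : BS Γ} (h : Tm l w s t ≠ 0) : ∃ s', PP l w s' ∧ (t = s' ∨ t = fe1 s' ∨ t = fe2 s') := by
  rw [Tm_symm hl] at h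
  rcases t with v | e
  · by_cases hreg : ∀ t, t ≠ Sum.inl v → Tm l w (Sum.inl v) t = 0
    · have hst : s = Sum.inl v := by
        by_contra hne
        exact h (hreg s hne)
      subst hst
      exact ⟨_, ⟨hreg, h⟩, Or.inl rfl⟩
    · push Not at hreg
      obtain ⟨t, ht, h1⟩ := hreg
      obtain ⟨a, b, h2, h3, hA⟩ : ∃ a b, (Sum.inl v : BS Γ) = Sum.inl a ∧ t = Sum.inl b ∧
          Γ.Adj a b := by
        by_contra hcon
        push Not at hcon
        exact h1 (Tm_non hl h0 _ _ (Ne.symm ht) fun a b hab => hcon a b hab.1 hab.2.1 hab.2.2)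
      obtain rfl := Sum.inl_injective h2
      subst h3
      have h4 := Tm_edge hl h0 hA
      have h5 : ∃ σ : Bool, Tm l w (Sum.inr (⟨s(v, b), hA⟩, σ)) (Sum.inr (⟨s(v, b), hA⟩, σ)) ≠
          0 := by
        by_contra hcon
        push Not at hcon
        rw [hcon, hcon, sub_zero, add_zero] at h4
        exact h1 ((mul_eq_zero.1 h4).resolve_left two_ne)
      obtain ⟨σ, h5⟩ := h5
      refine ⟨_, ⟨fun t ht => Tm_non hl h0 _ _ (Ne.symm ht) fun a b hab => by
        simpa using hab.1, h5⟩, Or.inr ?_⟩
      have h6 : s((Quot.out (s(v, b) : Sym2 V)).1, (Quot.out (s(v, b) : Sym2 V)).2) =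
        s(v, b) := Quot.out_eq _
      have h7 : v ∈ s((Quot.out (s(v, b) : Sym2 V)).1, (Quot.out (s(v, b) : Sym2 V)).2) := by
        rw [h6]
        exact Sym2.mem_mk_left _ _
      rw [Sym2.mem_iff] at h7
      rcases h7 with h7 | h7
      · left
        exact congrArg Sum.inl h7
      · right
        exact congrArg Sum.inl h7
  · have hst : s = Sum.inr e := by
      by_contra hne
      exact h (Tm_non hl h0 _ _ (Ne.symm hne) fun a b hab => by simpa using hab.1)
    subst hst
    exact ⟨_, ⟨fun t ht => Tm_non hl h0 _ _ (Ne.symm ht) fun a b hab => by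
      simpa using hab.1, h⟩, Or.inl rfl⟩

theorem row_apply (s t : BS Γ) : (∑ j, (∑ i, l i j * w i s) • w j) t = Tm l w s t := by
  unfold Tm
  rw [Finsupp.finsetSum_apply, Finset.sum_comm]
  refine Finset.sum_congr rfl fun j _ => ?_
  rw [Finsupp.smul_apply, smul_eq_mul, Finset.sum_mul]
  refine Finset.sum_congr rfl fun i _ => ?_
  ring

theorem pp_span {s : BS Γ} (h : PP l w s) :
    (Finsupp.single s 1 : WW Γ) ∈ Submodule.span (ZMod 3) (Set.range w) := by
  have h1 : ∑ j, (∑ i, l i j * w i s) • w j = Tm l w s s • Finsupp.single s 1 := by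
    have h2 := single_of (Γ := Γ) (x := ∑ j, (∑ i, l i j * w i s) • w j) (s := s)
      (fun t ht => by rw [row_apply]; exact h.1 t ht)
    rw [row_apply] at h2
    exact h2
  have h2 : (Finsupp.single s 1 : WW Γ) = (Tm l w s s)⁻¹ • ∑ j, (∑ i, l i j * w i s) • w j := by
    rw [h1, smul_smul, inv_mul_cancel₀ h.2, one_smul]
  rw [h2]
  exact Submodule.smul_mem _ _ (Submodule.sum_mem _ fun j _ => Submodule.smul_mem _ _
    (Submodule.subset_span ⟨j, rfl⟩))

theorem pp_card (F : Finset (BS Γ)) (hF : ∀ s ∈ F, PP l w s) : F.card ≤ n := by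
  classical
  have hli : LinearIndependent (ZMod 3) (fun s : F => (Finsupp.single (s : BS Γ) 1 : WW Γ)) := by
    have h1 := (Finsupp.basisSingleOne (R := ZMod 3) (ι := BS Γ)).linearIndependent.comp
      (fun s : F => (s : BS Γ)) Subtype.val_injective
    have e : (fun s : F => (Finsupp.single (s : BS Γ) 1 : WW Γ)) =
        (Finsupp.basisSingleOne (R := ZMod 3) (ι := BS Γ)) ∘ (fun s : F => (s : BS Γ)) := by
      funext s
      simp
    rw [e]
    exact h1
  have hle : Submodule.span (ZMod 3) (Set.range fun s : F =>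
      (Finsupp.single (s : BS Γ) 1 : WW Γ)) ≤ Submodule.span (ZMod 3) (Set.range w) := by
    rw [Submodule.span_le]
    rintro _ ⟨s, rfl⟩
    exact pp_span (hF s.1 s.2)
  have : FiniteDimensional (ZMod 3) (Submodule.span (ZMod 3) (Set.range w)) :=
    FiniteDimensional.span_of_finite _ (Set.finite_range w)
  have h1 := Submodule.finrank_mono hle
  rw [finrank_span_eq_card hli] at h1
  have h2 := finrank_range_le_card (R := ZMod 3) w
  have h3 := h1.trans h2
  simpa only [Fintype.card_coe, Fintype.card_fin] using h3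

/-- the set of the regular elements with a diagonal coefficient -/
theorem exists_pp : ∃ P : Finset (BS Γ), (∀ s, s ∈ P ↔ PP l w s) ∧ P.card ≤ n := by
  classical
  refine ⟨(Finset.univ.biUnion fun i => (w i).support).filter (PP l w), fun s => ?_, ?_⟩
  · rw [Finset.mem_filter]
    refine ⟨fun h => h.2, fun h => ⟨?_, h⟩⟩
    rw [Finset.mem_biUnion]
    by_contra hcon
    push Not at hcon
    refine h.2 ?_
    unfold Tm
    refine Finset.sum_eq_zero fun i _ => Finset.sum_eq_zero fun j _ => ?_
    have h1 := hcon i (Finset.mem_univ _)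
    rw [Finsupp.mem_support_iff, not_not] at h1
    rw [h1, zero_mul, mul_zero]
  · exact pp_card _ fun s hs => (Finset.mem_filter.1 hs).2

/-- the support of a row -/
theorem row_supp (hl : ∀ i j, l i j = l j i) (h0 : ∑ i, ∑ j, l i j • cc Γ (w i) (w j) = 0)
    (hw : LinearIndependent (ZMod 3) w) (i : Fin n) :
    (∑ j, l i j • w j).support.card ≤ 3 * n := by
  classical
  obtain ⟨P, hP, hPc⟩ := exists_pp (l := l) (w := w)
  have hsub : (∑ j, l i j • w j).support ⊆ P ∪ (P.image fe1 ∪ P.image fe2) := by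
    intro t ht
    have hex : ∃ s, Tm l w s t ≠ 0 := by
      by_contra hcon
      push Not at hcon
      have h1 : ∑ i', (∑ j, l i' j * w j t) • w i' = 0 := by
        ext s
        rw [Finsupp.zero_apply, ← hcon s, Finsupp.finsetSum_apply]
        unfold Tm
        refine Finset.sum_congr rfl fun i' _ => ?_
        rw [Finsupp.smul_apply, smul_eq_mul, Finset.sum_mul]
        refine Finset.sum_congr rfl fun j _ => ?_
        ring
      have h2 := Fintype.linearIndependent_iff.1 hw _ h1 i
      rw [Finsupp.mem_support_iff] at ht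
      apply ht
      rw [Finsupp.finsetSum_apply, ← h2]
      refine Finset.sum_congr rfl fun j _ => ?_
      rw [Finsupp.smul_apply, smul_eq_mul]
    obtain ⟨s, hs⟩ := hex
    obtain ⟨s', hs', h3⟩ := pp_or hl h0 hs
    rcases h3 with rfl | rfl | rfl
    · exact Finset.mem_union_left _ ((hP _).2 hs')
    · exact Finset.mem_union_right _ (Finset.mem_union_left _
        (Finset.mem_image_of_mem _ ((hP _).2 hs')))
    · exact Finset.mem_union_right _ (Finset.mem_union_right _
        (Finset.mem_image_of_mem _ ((hP _).2 hs')))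
  have h1 := Finset.card_le_card hsub
  have h2 := Finset.card_union_le P (P.image fe1 ∪ P.image fe2)
  have h3 := Finset.card_union_le (P.image (fe1 (Γ := Γ))) (P.image fe2)
  have h4 := Finset.card_image_le (s := P) (f := fe1)
  have h5 := Finset.card_image_le (s := P) (f := fe2)
  omega

end

/-- elements as sums of basis elements -/
theorem sum_of_bb (x : WW Γ) {N : ℕ} (hN : x.support.card ≤ N) :
    ∃ (k : Fin (N + 1)) (u : Fin k → WW Γ), (∀ j, u j ∈ BB (cc Γ)) ∧ x = ∑ j, u j := by
  classical
  refine ⟨⟨x.support.card, Nat.lt_succ_of_le hN⟩, fun j =>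
    x (x.support.equivFin.symm j) • Finsupp.single ((x.support.equivFin.symm j : _) : BS Γ) 1,
    fun j => ?_, ?_⟩
  · rw [BB_iff]
    exact ⟨_, _, Finsupp.mem_support_iff.1 (x.support.equivFin.symm j).2, rfl⟩
  · have h3 : ∑ j : Fin x.support.card, (x (x.support.equivFin.symm j) •
        Finsupp.single ((x.support.equivFin.symm j : _) : BS Γ) 1 : WW Γ) =
        ∑ s : x.support, x s • Finsupp.single (s : BS Γ) 1 :=
      Equiv.sum_comp x.support.equivFin.symm
        (fun s => (x s • Finsupp.single (s : BS Γ) 1 : WW Γ))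
    refine Eq.trans ?_ h3.symm
    rw [Finset.sum_coe_sort x.support (fun s => (x s • Finsupp.single s 1 : WW Γ))]
    conv_lhs => rw [← Finsupp.sum_single x]
    refine Finset.sum_congr rfl fun s hs => ?_
    rw [Finsupp.smul_single, smul_eq_mul, mul_one]

/-- relations between products -/
theorem prod_of (n : ℕ) (Bs : Set (Fin n)) (l : Fin n → Fin n → ZMod 3)
    (hl : ∀ i j, l i j = l j i) (hd : ∀ i ∈ Bs, l i i = 0) (hl0 : l ≠ 0) (w : Fin n → WW Γ)
    (hB : ∀ i ∈ Bs, w i ∈ BB (cc Γ)) (hne : ∀ i ∈ Bs, ∀ j ∈ Bs, i ≠ j → ¬ PM (w i) (w j))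
    (h0 : ∑ i, ∑ j, l i j • cc Γ (w i) (w j) = 0) :
    ∃ γ : Fin n → ZMod 3, (∃ i, i ∉ Bs ∧ γ i ≠ 0) ∧
      ∃ (k : Fin (3 * n + 1)) (u : Fin k → WW Γ), (∀ j, u j ∈ BB (cc Γ)) ∧
        ∑ i, γ i • w i = ∑ j, u j := by
  classical
  by_cases hw : LinearIndependent (ZMod 3) w
  · by_cases hA : ∃ i j, j ∉ Bs ∧ l i j ≠ 0
    · obtain ⟨i, j, hj, hij⟩ := hA
      exact ⟨fun j => l i j, ⟨j, hj, hij⟩, sum_of_bb _ (row_supp hl h0 hw i)⟩
    · exfalso
      push Not at hA
      have hA' : ∀ i j, l i j ≠ 0 → i ∈ Bs ∧ j ∈ Bs := by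
        intro i j hij
        refine ⟨?_, ?_⟩
        · by_contra hi
          exact hij ((hl i j).trans (hA j i hi))
        · by_contra hj
          exact hij (hA i j hj)
      have hne0 : Nonempty (BS Γ) := by
        by_contra hcon
        apply hl0
        funext i j
        by_contra hij
        obtain ⟨s, -⟩ := (BB_iff (w i)).1 (hB i (hA' i j hij).1)
        exact hcon ⟨s⟩
      choose! s c hc hs using fun i (hi : i ∈ Bs) => (BB_iff (w i)).1 (hB i hi)
      have hsi : ∀ i ∈ Bs, ∀ j ∈ Bs, s i = s j → i = j := by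
        intro i hi j hj hij
        by_contra hn
        refine hne i hi j hj hn ?_
        rw [hs i hi, hs j hj, pm_single (hc i hi) (hc j hj)]
        exact hij
      have hwv : ∀ i ∈ Bs, ∀ j ∈ Bs, w i (s j) = if i = j then c i else 0 := by
        intro i hi j hj
        rw [hs i hi, Finsupp.smul_apply, Finsupp.single_apply]
        by_cases hij : i = j
        · subst hij
          rw [if_pos rfl, if_pos rfl, smul_eq_mul, mul_one]
        · rw [if_neg hij, if_neg (fun h => hij (hsi i hi j hj h)), smul_zero]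
      -- the coefficients at the elements
      have hT : ∀ i ∈ Bs, ∀ j ∈ Bs, Tm l w (s i) (s j) = l i j * (c i * c j) := by
        intro i hi j hj
        unfold Tm
        rw [Finset.sum_eq_single i, Finset.sum_eq_single j]
        · rw [hwv i hi i hi, hwv j hj j hj, if_pos rfl, if_pos rfl]
        · intro j' _ hj'
          by_cases h1 : l i j' = 0
          · rw [h1, zero_mul]
          · rw [hwv j' (hA' _ _ h1).2 j hj, if_neg hj', mul_zero, mul_zero]
        · intro h
          exact absurd (Finset.mem_univ _) h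
        · intro i' _ hi'
          refine Finset.sum_eq_zero fun j' _ => ?_
          by_cases h1 : l i' j' = 0
          · rw [h1, zero_mul]
          · rw [hwv i' (hA' _ _ h1).1 i hi, if_neg hi', zero_mul, mul_zero]
        · intro h
          exact absurd (Finset.mem_univ _) h
      have hdi : ∀ t, Tm l w t t = 0 := by
        intro t
        by_cases ht : ∃ i ∈ Bs, s i = t
        · obtain ⟨i, hi, rfl⟩ := ht
          rw [hT i hi i hi, hd i hi, zero_mul]
        · push Not at ht
          unfold Tm
          refine Finset.sum_eq_zero fun i _ => Finset.sum_eq_zero fun j _ => ?_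
          by_cases h1 : l i j = 0
          · rw [h1, zero_mul]
          · have h2 : w i t = 0 := by
              rw [hs i (hA' _ _ h1).1, Finsupp.smul_apply, Finsupp.single_apply,
                if_neg (ht i (hA' _ _ h1).1), smul_zero]
            rw [h2, zero_mul, mul_zero]
      have hT0 : ∀ t t', Tm l w t t' = 0 := by
        intro t t'
        by_cases htt : t = t'
        · subst htt
          exact hdi t
        by_cases hE : ∃ v w, t = Sum.inl v ∧ t' = Sum.inl w ∧ Γ.Adj v w
        · obtain ⟨a, b, rfl, rfl, hab⟩ := hE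
          have h1 := Tm_edge hl h0 hab
          rw [hdi, hdi, sub_zero, add_zero] at h1
          exact (mul_eq_zero.1 h1).resolve_left two_ne
        · exact Tm_non hl h0 _ _ htt fun v w h => hE ⟨v, w, h⟩
      apply hl0
      funext i j
      by_contra hij
      obtain ⟨h1, h2⟩ := hA' _ _ hij
      have h3 := hT i h1 j h2
      rw [hT0] at h3
      exact mul_ne_zero hij (mul_ne_zero (hc i h1) (hc j h2)) h3.symm
  · rw [Fintype.not_linearIndependent_iff] at hw
    obtain ⟨γ, h1, i, hi⟩ := hw
    refine ⟨γ, ?_, ⟨0, Nat.succ_pos _⟩, fun j => j.elim0, fun j => j.elim0, by simpa using h1⟩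
    by_contra hcon
    push Not at hcon
    have hiB : i ∈ Bs := by
      by_contra h
      exact hi (hcon i h)
    let e : Fin (Finset.univ.filter (fun i => i ∈ Bs)).card ≃
      {x // x ∈ Finset.univ.filter (fun i => i ∈ Bs)} := (Finset.equivFin _).symm
    have hm : ∀ a, (e a : Fin n) ∈ Bs := fun a => by
      have := (e a).2
      rw [Finset.mem_filter] at this
      exact this.2
    have h2 := indB_of _ (fun a => w (e a)) (fun a => hB _ (hm a)) (fun a a' haa =>
      hne _ (hm a) _ (hm a') (fun h => haa (e.injective (Subtype.ext h))))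
    have h3 := Fintype.linearIndependent_iff.1 h2 (fun a => γ (e a)) (by
      rw [Equiv.sum_comp e (fun x => γ (x : Fin n) • w (x : Fin n)),
        Finset.sum_coe_sort (Finset.univ.filter (fun i => i ∈ Bs)) (fun x => γ x • w x),
        Finset.sum_filter]
      refine Eq.trans (Finset.sum_congr rfl fun a _ => ?_) h1
      by_cases ha : a ∈ Bs
      · rw [if_pos ha]
      · rw [if_neg ha, hcon a ha, zero_smul]) (e.symm ⟨i, by simp [hiB]⟩)
    rw [Equiv.apply_symm_apply] at h3
    exact hi h3

/-- the vertices -/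
theorem rep_of : Rep (cc Γ) (fun v : V => (Finsupp.single (Sum.inl v) 1 : WW Γ)) where
  vv := fun v => by
    rw [VV_iff]
    exact ⟨v, 1, one_ne_zero, (one_smul _ _).symm⟩
  inj := fun v w hvw h => by
    have h1 := (pm_single (Γ := Γ) (s := Sum.inl v) (t := Sum.inl w) (c := 1) (d := 1)
      one_ne_zero one_ne_zero).1 (by rw [one_smul, one_smul]; exact h)
    exact hvw (Sum.inl_injective h1)
  surj := fun x hx => by
    obtain ⟨v, c, hc, rfl⟩ := (VV_iff x).1 hx
    refine ⟨v, ?_⟩
    have h1 := (pm_single (Γ := Γ) (s := Sum.inl v) (t := Sum.inl v) hc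
      (one_ne_zero (α := ZMod 3))).2 rfl
    rw [one_smul] at h1
    exact h1

theorem adj_of (v w : V) : Γ.Adj v w ↔ Adj (cc Γ) (Finsupp.single (Sum.inl v) 1)
    (Finsupp.single (Sum.inl w) 1) := by
  rw [adj_iff]
  constructor
  · intro h
    exact ⟨v, w, h, 1, 1, one_ne_zero, one_ne_zero, (one_smul _ _).symm, (one_smul _ _).symm⟩
  · rintro ⟨a, b, hA, c, d, hc, hd, h1, h2⟩
    have h3 := single_inj (Γ := Γ) (s := Sum.inl v) (t := Sum.inl a) (c := 1) (d := c)
      one_ne_zero (by rw [one_smul]; exact h1)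
    have h4 := single_inj (Γ := Γ) (s := Sum.inl w) (t := Sum.inl b) (c := 1) (d := d)
      one_ne_zero (by rw [one_smul]; exact h2)
    have e1 := Sum.inl_injective h3.1
    have e2 := Sum.inl_injective h4.1
    subst e1 e2
    exact hA

theorem nice_of : Nice (cc Γ) where
  symm := cc_symm Γ
  indB := indB_of
  uniq := fun v w e e' => uniq_of v w e e'
  sgn := sgn_of
  prod := fun n Bs l hl hd hl0 w hB hne h0 => by
    obtain ⟨γ, h1, k, u, h2, h3⟩ := prod_of n Bs l hl hd hl0 w hB hne h0
    refine ⟨γ, h1, ?_⟩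
    rw [h3]
    exact Submodule.sum_mem _ fun j _ => Submodule.subset_span (h2 j)

end Pool.Agent.H4.VR
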