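import Pool.Agent.H4.VR.Rg2

set_option autoImplicit false
set_option linter.unusedSectionVars false
set_option linter.unusedVariables false

/-! First-order axioms for the class of rings. -/

namespace Pool.Agent.H4.VR

/-- operations of a ring -/
structure RO (α : Type) where
  add : α → α → α
  mul : α → α → α
  neg : α → α
  zero : α
  one : α

section ops

variable {α : Type} (o : RO α)

/-- elements with trivial cube -/
def Nl (x : α) : Prop := o.mul (o.mul x x) x = o.zero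

/-- the annihilator -/
def An (x : α) : Prop := Nl o x ∧ ∀ y, Nl o y → o.mul x y = o.zero

/-- congruence up to sign -/
def Pm (x y : α) : Prop := An o (o.add x (o.neg y)) ∨ An o (o.add x y)

/-- vertices -/
def Vx (x : α) : Prop := Nl o x ∧ ¬ An o x ∧ o.mul x x = o.zero

/-- edges -/
def Ed (v w e : α) : Prop := Vx o v ∧ Vx o w ∧ ¬ Pm o v w ∧ Nl o e ∧
  o.mul e e = o.mul v w ∧ ¬ Pm o e (o.add v (o.neg w))

/-- vertices and edges -/
def Bx (x : α) : Prop := Vx o x ∨ ∃ v w, Ed o v w x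

/-- multiples -/
def sl (c : ZMod 3) (x : α) : α := if c = 0 then o.zero else if c = 1 then x else o.neg x

/-- sums of lists -/
def wd (l : List α) : α := l.foldr o.add o.zero

/-- linear combinations -/
def lc {n : ℕ} (γ : Fin n → ZMod 3) (w : Fin n → α) : α :=
  wd o (List.ofFn fun i => sl o (γ i) (w i))

/-- quadratic combinations -/
def qc {n : ℕ} (l : Fin n → Fin n → ZMod 3) (w : Fin n → α) : α :=
  wd o (List.ofFn fun i => wd o (List.ofFn fun j => sl o (l i j) (o.mul (w i) (w j))))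

/-- nonzero coefficients -/
abbrev CO : Type := Σ n : ℕ, {γ : Fin n → ZMod 3 // γ ≠ 0}

/-- symmetric coefficients -/
abbrev CQ : Type := Σ n : ℕ, {p : Set (Fin n) × (Fin n → Fin n → ZMod 3) //
  (∀ i j, p.2 i j = p.2 j i) ∧ (∀ i ∈ p.1, p.2 i i = 0) ∧ p.2 ≠ 0}

/-- the first-order axioms -/
structure FR : Prop where
  add_assoc : ∀ x y z, o.add (o.add x y) z = o.add x (o.add y z)
  add_comm : ∀ x y, o.add x y = o.add y x
  zero_add : ∀ x, o.add o.zero x = x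
  neg_add : ∀ x, o.add (o.neg x) x = o.zero
  mul_assoc : ∀ x y z, o.mul (o.mul x y) z = o.mul x (o.mul y z)
  mul_comm : ∀ x y, o.mul x y = o.mul y x
  one_mul : ∀ x, o.mul o.one x = x
  distrib : ∀ x y z, o.mul x (o.add y z) = o.add (o.mul x y) (o.mul x z)
  three : o.add (o.add o.one o.one) o.one = o.zero
  one_ne : o.one ≠ o.zero
  nil : ∀ x y z, Nl o x → Nl o y → Nl o z → o.mul (o.mul x y) z = o.zero
  res : ∀ x, Nl o x ∨ Nl o (o.add x (o.neg o.one)) ∨ Nl o (o.add x o.one)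
  indB : ∀ (P : CO) (w : Fin P.1 → α), (∀ i, Bx o (w i)) →
    (∀ i j, i ≠ j → ¬ Pm o (w i) (w j)) → ¬ An o (lc o P.2.1 w)
  uniq : ∀ v w e e', Ed o v w e → Ed o v w e' → Pm o e e'
  sgn : ∀ v w e, Ed o v w e → ∃ e', Ed o v (o.neg w) e'
  prod : ∀ (P : CQ) (w : Fin P.1 → α), (∀ i, Nl o (w i)) → (∀ i, i ∈ P.2.1.1 → Bx o (w i)) →
    (∀ i j, i ∈ P.2.1.1 ∧ j ∈ P.2.1.1 ∧ i ≠ j → ¬ Pm o (w i) (w j)) →
      qc o P.2.1.2 w = o.zero →
      ∃ (γ : {γ : Fin P.1 → ZMod 3 // ∃ i, i ∉ P.2.1.1 ∧ γ i ≠ 0}) (k : Fin (3 * P.1 + 1))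
        (u : Fin k → α), (∀ j, Bx o (u j)) ∧ An o (o.add (lc o γ.1 w) (o.neg (wd o (List.ofFn u))))
  inf : ∀ n : ℕ, ∃ w : Fin n → α, (∀ i, Vx o (w i)) ∧ ∀ i j, i ≠ j → ¬ Pm o (w i) (w j)

variable {o}

theorem FR.idem (h : FR o) {a : α} (ha : a = o.add a a) : a = o.zero :=
  calc a = o.add o.zero a := (h.zero_add a).symm
    _ = o.add (o.add (o.neg a) a) a := by rw [h.neg_add]
    _ = o.add (o.neg a) (o.add a a) := h.add_assoc _ _ _
    _ = o.add (o.neg a) a := by rw [← ha]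
    _ = o.zero := h.neg_add a

theorem FR.mul_zero' (h : FR o) (x : α) : o.mul x o.zero = o.zero := by
  have h1 := h.distrib x o.zero o.zero
  rw [h.zero_add] at h1
  exact h.idem h1

/-- the ring -/
@[reducible] noncomputable def FR.ring (h : FR o) : CommRing α :=
  letI : Add α := ⟨o.add⟩
  letI : Mul α := ⟨o.mul⟩
  letI : Neg α := ⟨o.neg⟩
  letI : Zero α := ⟨o.zero⟩
  letI : One α := ⟨o.one⟩
  { add_assoc := h.add_assoc
    zero_add := h.zero_add
    add_zero := fun x => (h.add_comm x o.zero).trans (h.zero_add x)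
    add_comm := h.add_comm
    neg_add_cancel := h.neg_add
    nsmul := nsmulRec
    zsmul := zsmulRec
    left_distrib := h.distrib
    right_distrib := fun x y z => by
      show o.mul (o.add x y) z = o.add (o.mul x z) (o.mul y z)
      rw [h.mul_comm, h.distrib, h.mul_comm z x, h.mul_comm z y]
    zero_mul := fun x => (h.mul_comm o.zero x).trans (h.mul_zero' x)
    mul_zero := h.mul_zero'
    mul_assoc := h.mul_assoc
    one_mul := h.one_mul
    mul_one := fun x => (h.mul_comm x o.one).trans (h.one_mul x)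
    mul_comm := h.mul_comm }

end ops

/-- the operations of a ring -/
def ro (R : Type) [CommRing R] : RO R := ⟨fun x y => x + y, fun x y => x * y, fun x => -x, 0, 1⟩

theorem FR.exr {α : Type} {o : RO α} (h : FR o) : ∃ g : CommRing α, @ro α g = o :=
  ⟨h.ring, rfl⟩

theorem FR.rc {R : Type} [CommRing R] (h : FR (ro R)) : RC R :=
  ⟨h.three, h.one_ne, h.nil, h.res⟩

section ring

variable {R : Type} [CommRing R]

theorem wd_eq (l : List R) : wd (ro R) l = l.sum := rfl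

theorem wd_ofFn {n : ℕ} (w : Fin n → R) : wd (ro R) (List.ofFn w) = ∑ i, w i := by
  rw [wd_eq, List.sum_ofFn]

variable [RC R]

theorem sl_eq (c : ZMod 3) (x : R) : sl (ro R) c x = ca R c * x := by
  rcases z3 c with rfl | rfl | rfl
  · rw [ca_zero, zero_mul]
    rfl
  · rw [ca_one, one_mul]
    rfl
  · rw [ca_neg, neg_mul, one_mul]
    rfl

theorem nl_iff {x : R} : Nl (ro R) x ↔ x ∈ NN R := Iff.rfl

theorem an_iff {x : NN R} : An (ro R) (x : R) ↔ cl x = 0 := by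
  rw [cl_zero]
  exact ⟨fun h y => h.2 y y.2, fun h => ⟨x.2, fun y hy => h ⟨y, hy⟩⟩⟩

theorem pm_iff {x y : NN R} : Pm (ro R) (x : R) y ↔ PM (cl x) (cl y) := by
  have h1 : An (ro R) ((ro R).add (x : R) ((ro R).neg y)) ↔ cl x = cl y := by
    rw [← sub_eq_zero, ← cl_sub, ← an_iff, sub_eq_add_neg]
    exact Iff.rfl
  have h2 : An (ro R) ((ro R).add (x : R) y) ↔ cl x = -cl y := by
    rw [← add_eq_zero_iff_eq_neg, ← cl_add, ← an_iff]
    exact Iff.rfl
  unfold Pm PM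
  rw [h1, h2]

theorem vx_mem {x : R} (h : Vx (ro R) x) : x ∈ NN R := h.1

theorem vx_iff {x : NN R} : Vx (ro R) (x : R) ↔ VV (bb R) (cl x) := by
  unfold Vx VV
  rw [an_iff]
  have h1 : bb R (cl x) (cl x) = 0 ↔ (ro R).mul (x : R) x = (ro R).zero := by
    constructor
    · intro h
      show (x : R) * x = 0
      rw [← el_bb, h]
      rfl
    · intro h
      refine el_inj' ?_
      rw [el_bb]
      exact h
  rw [h1]
  exact ⟨fun h => h.2, fun h => ⟨x.2, h⟩⟩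

theorem ed_iff {v w e : NN R} : Ed (ro R) (v : R) w e ↔ IsE (bb R) (cl v) (cl w) (cl e) := by
  unfold Ed IsE
  rw [vx_iff, vx_iff, pm_iff]
  have h1 : bb R (cl e) (cl e) = bb R (cl v) (cl w) ↔
      (ro R).mul (e : R) e = (ro R).mul (v : R) w := by
    constructor
    · intro h
      show (e : R) * e = v * w
      rw [← el_bb, h, el_bb]
    · intro h
      refine el_inj' ?_
      rw [el_bb, el_bb]
      exact h
  have h2 : Pm (ro R) (e : R) ((ro R).add (v : R) ((ro R).neg w)) ↔ PM (cl e) (cl v - cl w) := by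
    rw [← cl_sub, ← pm_iff, sub_eq_add_neg]
    exact Iff.rfl
  rw [h1, h2]
  constructor
  · rintro ⟨a, b, c, d, e, f⟩
    exact ⟨a, b, c, e, f⟩
  · rintro ⟨a, b, c, d, f⟩
    exact ⟨a, b, c, e.2, d, f⟩

theorem bx_mem {x : R} (h : Bx (ro R) x) : x ∈ NN R := by
  rcases h with h | ⟨v, w, h⟩
  · exact h.1
  · exact h.2.2.2.1

theorem bx_iff {x : NN R} : Bx (ro R) (x : R) ↔ cl x ∈ BB (bb R) := by
  show _ ↔ (VV (bb R) (cl x) ∨ ∃ v w, IsE (bb R) v w (cl x))
  unfold Bx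
  rw [vx_iff]
  refine or_congr Iff.rfl ?_
  constructor
  · rintro ⟨v, w, h⟩
    have h1 : v ∈ NN R := h.1.1
    have h2 : w ∈ NN R := h.2.1.1
    exact ⟨_, _, (ed_iff (v := ⟨v, h1⟩) (w := ⟨w, h2⟩)).1 h⟩
  · rintro ⟨v, w, h⟩
    obtain ⟨v, rfl⟩ := cl_surj v
    obtain ⟨w, rfl⟩ := cl_surj w
    exact ⟨v, w, ed_iff.2 h⟩

theorem lc_eq {n : ℕ} (γ : Fin n → ZMod 3) (w : Fin n → NN R) :
    lc (ro R) γ (fun i => (w i : R)) = ((∑ i, γ i • w i : NN R) : R) := by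
  unfold lc
  rw [wd_ofFn, coe_sum]
  refine Finset.sum_congr rfl fun i _ => ?_
  rw [sl_eq, coe_smul]

theorem qc_eq {n : ℕ} (l : Fin n → Fin n → ZMod 3) (w : Fin n → NN R) :
    qc (ro R) l (fun i => (w i : R)) =
      ((el (∑ i, ∑ j, l i j • bb R (cl (w i)) (cl (w j))) : NN R) : R) := by
  unfold qc
  rw [wd_ofFn, el_sum, coe_sum]
  refine Finset.sum_congr rfl fun i _ => ?_
  rw [wd_ofFn, el_sum, coe_sum]
  refine Finset.sum_congr rfl fun j _ => ?_
  rw [sl_eq, el_smul, coe_smul, el_bb]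
  rfl

theorem cl_lc {n : ℕ} (γ : Fin n → ZMod 3) (w : Fin n → NN R) :
    cl (∑ i, γ i • w i) = ∑ i, γ i • cl (w i) := by
  rw [cl_sum]
  refine Finset.sum_congr rfl fun i _ => ?_
  rw [cl_smul]

theorem an_sub {n k : ℕ} (γ : Fin n → ZMod 3) (w : Fin n → NN R) (u : Fin k → NN R) :
    An (ro R) ((ro R).add (lc (ro R) γ (fun i => (w i : R)))
      ((ro R).neg (wd (ro R) (List.ofFn fun i => (u i : R))))) ↔
      ∑ i, γ i • cl (w i) = ∑ j, cl (u j) := by
  rw [lc_eq, wd_ofFn, ← cl_lc, ← cl_sum, ← sub_eq_zero, ← cl_sub, ← an_iff, ← coe_sum,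
    sub_eq_add_neg]
  exact Iff.rfl

end ring

/-- the class of bilinear maps, with bounds -/
structure NiceB {W Z : Type} [AddCommGroup W] [Module (ZMod 3) W] [AddCommGroup Z]
    [Module (ZMod 3) Z] (b : W →ₗ[ZMod 3] W →ₗ[ZMod 3] Z) : Prop where
  symm : ∀ x y, b x y = b y x
  indB : ∀ (n : ℕ) (w : Fin n → W), (∀ i, w i ∈ BB b) → (∀ i j, i ≠ j → ¬ PM (w i) (w j)) →
    LinearIndependent (ZMod 3) w
  uniq : ∀ v w e e', IsE b v w e → IsE b v w e' → PM e e'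
  sgn : ∀ v w, Adj b v w → Adj b v (-w)
  prod : ∀ (n : ℕ) (Bs : Set (Fin n)) (l : Fin n → Fin n → ZMod 3), (∀ i j, l i j = l j i) →
    (∀ i ∈ Bs, l i i = 0) → l ≠ 0 → ∀ w : Fin n → W, (∀ i ∈ Bs, w i ∈ BB b) →
    (∀ i ∈ Bs, ∀ j ∈ Bs, i ≠ j → ¬ PM (w i) (w j)) → ∑ i, ∑ j, l i j • b (w i) (w j) = 0 →
      ∃ γ : Fin n → ZMod 3, (∃ i, i ∉ Bs ∧ γ i ≠ 0) ∧
        ∃ (k : Fin (3 * n + 1)) (u : Fin k → W), (∀ j, u j ∈ BB b) ∧
        ∑ i, γ i • w i = ∑ j, u j

section tr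

variable {W Z W' Z' : Type} [AddCommGroup W] [Module (ZMod 3) W] [AddCommGroup Z]
    [Module (ZMod 3) Z] [AddCommGroup W'] [Module (ZMod 3) W'] [AddCommGroup Z']
    [Module (ZMod 3) Z']
    {b : W →ₗ[ZMod 3] W →ₗ[ZMod 3] Z} {b' : W' →ₗ[ZMod 3] W' →ₗ[ZMod 3] Z'}

theorem NiceB.nice (h : NiceB b) : Nice b where
  symm := h.symm
  indB := h.indB
  uniq := h.uniq
  sgn := h.sgn
  prod := fun n Bs l hl hd hl0 w hB hne h0 => by
    obtain ⟨γ, h1, k, u, h2, h3⟩ := h.prod n Bs l hl hd hl0 w hB hne h0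
    refine ⟨γ, h1, ?_⟩
    rw [h3]
    exact Submodule.sum_mem _ fun j _ => Submodule.subset_span (h2 j)

theorem niceB_cc {V : Type} {Γ : SimpleGraph V} : NiceB (cc Γ) where
  symm := cc_symm Γ
  indB := indB_of
  uniq := fun v w e e' => uniq_of v w e e'
  sgn := sgn_of
  prod := prod_of

variable (φ : W ≃ₗ[ZMod 3] W') (ψ : Z ≃ₗ[ZMod 3] Z') (hφ : ∀ x y, ψ (b x y) = b' (φ x) (φ y))

theorem PM_iso {x y : W} : PM (φ x) (φ y) ↔ PM x y := by
  unfold PM
  rw [← map_neg, φ.injective.eq_iff, φ.injective.eq_iff]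

include hφ

theorem VV_iso {x : W} : VV b' (φ x) ↔ VV b x := by
  unfold VV
  rw [← hφ, ψ.map_eq_zero_iff, ne_eq, φ.map_eq_zero_iff]

theorem IsE_iso {v w e : W} : IsE b' (φ v) (φ w) (φ e) ↔ IsE b v w e := by
  unfold IsE
  rw [VV_iso φ ψ hφ, VV_iso φ ψ hφ, PM_iso, ← hφ, ← hφ, ψ.injective.eq_iff, ← map_sub, PM_iso]

theorem BB_iso {x : W} : φ x ∈ BB b' ↔ x ∈ BB b := by
  show (VV b' (φ x) ∨ ∃ v w, IsE b' v w (φ x)) ↔ (VV b x ∨ ∃ v w, IsE b v w x)
  rw [VV_iso φ ψ hφ]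
  refine or_congr Iff.rfl ?_
  constructor
  · rintro ⟨v, w, h⟩
    obtain ⟨v, rfl⟩ := φ.surjective v
    obtain ⟨w, rfl⟩ := φ.surjective w
    exact ⟨v, w, (IsE_iso φ ψ hφ).1 h⟩
  · rintro ⟨v, w, h⟩
    exact ⟨_, _, (IsE_iso φ ψ hφ).2 h⟩

theorem Adj_iso {v w : W} : Adj b' (φ v) (φ w) ↔ Adj b v w := by
  constructor
  · rintro ⟨e, h⟩
    obtain ⟨e, rfl⟩ := φ.surjective e
    exact ⟨e, (IsE_iso φ ψ hφ).1 h⟩
  · rintro ⟨e, h⟩
    exact ⟨_, (IsE_iso φ ψ hφ).2 h⟩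

theorem NiceB.iso (h : NiceB b') : NiceB b where
  symm := fun x y => ψ.injective (by rw [hφ, hφ, h.symm])
  indB := fun n w hB hne => by
    have h1 := h.indB n (fun i => φ (w i)) (fun i => (BB_iso φ ψ hφ).2 (hB i))
      (fun i j hij h' => hne i j hij ((PM_iso φ).1 h'))
    exact LinearIndependent.of_comp (φ : W →ₗ[ZMod 3] W') h1
  uniq := fun v w e e' h1 h2 => (PM_iso φ).1 (h.uniq _ _ _ _ ((IsE_iso φ ψ hφ).2 h1)
    ((IsE_iso φ ψ hφ).2 h2))
  sgn := fun v w h1 => by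
    have h2 := h.sgn _ _ ((Adj_iso φ ψ hφ).2 h1)
    rw [← map_neg] at h2
    exact (Adj_iso φ ψ hφ).1 h2
  prod := fun n Bs l hl hd hl0 w hB hne h0 => by
    obtain ⟨γ, h1, k, u, h2, h3⟩ := h.prod n Bs l hl hd hl0 (fun i => φ (w i))
      (fun i hi => (BB_iso φ ψ hφ).2 (hB i hi))
      (fun i hi j hj hij h' => hne i hi j hj hij ((PM_iso φ).1 h')) (by
        have h4 := congrArg ψ h0
        simp only [map_sum, map_smul, map_zero, hφ] at h4
        exact h4)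
    refine ⟨γ, h1, k, fun j => φ.symm (u j), fun j => ?_, ?_⟩
    · rw [← BB_iso φ ψ hφ, LinearEquiv.apply_symm_apply]
      exact h2 j
    · apply φ.injective
      simp only [map_sum, map_smul, LinearEquiv.apply_symm_apply]
      exact h3

theorem Rep.iso {X : Type} {r : X → W'} (h : Rep b' r) : Rep b (fun x => φ.symm (r x)) where
  vv := fun x => by
    rw [← VV_iso φ ψ hφ, LinearEquiv.apply_symm_apply]
    exact h.vv x
  inj := fun x y hxy h' => by
    rw [← PM_iso φ, LinearEquiv.apply_symm_apply, LinearEquiv.apply_symm_apply] at h'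
    exact h.inj x y hxy h'
  surj := fun v hv => by
    obtain ⟨x, hx⟩ := h.surj _ ((VV_iso φ ψ hφ).2 hv)
    refine ⟨x, ?_⟩
    rw [← PM_iso φ, LinearEquiv.apply_symm_apply]
    exact hx

end tr

section ring

variable {R : Type} [CommRing R] [RC R]

theorem FR.nice (h : FR (ro R)) : NiceB (bb R) where
  symm := bb_symm
  indB := fun n w hB hne => by
    by_contra hli
    rw [Fintype.not_linearIndependent_iff] at hli
    obtain ⟨γ, h1, i, hi⟩ := hli
    choose g hg using fun i => cl_surj (w i)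
    refine h.indB ⟨n, γ, fun h0 => hi (congrFun h0 i)⟩ (fun i => (g i : R)) (fun i => ?_)
      (fun i j hij => ?_) ?_
    · rw [bx_iff, hg]
      exact hB i
    · rw [pm_iff, hg, hg]
      exact hne i j hij
    · rw [lc_eq, an_iff, cl_lc]
      simp only [hg]
      exact h1
  uniq := fun v w e e' h1 h2 => by
    obtain ⟨v, rfl⟩ := cl_surj v
    obtain ⟨w, rfl⟩ := cl_surj w
    obtain ⟨e, rfl⟩ := cl_surj e
    obtain ⟨e', rfl⟩ := cl_surj e'
    exact pm_iff.1 (h.uniq v w e e' (ed_iff.2 h1) (ed_iff.2 h2))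
  sgn := fun v w h1 => by
    obtain ⟨v, rfl⟩ := cl_surj v
    obtain ⟨w, rfl⟩ := cl_surj w
    obtain ⟨e, he⟩ := h1
    obtain ⟨e, rfl⟩ := cl_surj e
    obtain ⟨e', he'⟩ := h.sgn v w e (ed_iff.2 he)
    have h2 : e' ∈ NN R := he'.2.2.2.1
    exact ⟨cl ⟨e', h2⟩, (ed_iff (v := v) (w := -w) (e := ⟨e', h2⟩)).1 he'⟩
  prod := fun n Bs l hl hd hl0 w hB hne h0 => by
    choose g hg using fun i => cl_surj (w i)
    obtain ⟨⟨γ, hγ⟩, k, u, h1, h2⟩ := h.prod ⟨n, ⟨Bs, l⟩, hl, hd, hl0⟩ (fun i => (g i : R))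
      (fun i => (g i).2) (fun i hi => by
        rw [bx_iff, hg]
        exact hB i hi) (fun i j hij => by
        rw [pm_iff, hg, hg]
        exact hne i hij.1 j hij.2.1 hij.2.2) (by
        rw [qc_eq]
        simp only [hg]
        rw [h0]
        rfl)
    refine ⟨γ, hγ, k, fun j => cl ⟨u j, bx_mem (h1 j)⟩, fun j => ?_, ?_⟩
    · rw [← bx_iff]
      exact h1 j
    · have h3 := (an_sub γ g (fun j => (⟨u j, bx_mem (h1 j)⟩ : NN R))).1 h2
      simp only [hg] at h3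
      exact h3

theorem FR_of (h : NiceB (bb R)) {X : Type} [Infinite X] {r : X → Wd R} (hr : Rep (bb R) r) :
    FR (ro R) where
  add_assoc := fun x y z => add_assoc x y z
  add_comm := fun x y => add_comm x y
  zero_add := fun x => zero_add x
  neg_add := fun x => neg_add_cancel x
  mul_assoc := fun x y z => mul_assoc x y z
  mul_comm := fun x y => mul_comm x y
  one_mul := fun x => one_mul x
  distrib := fun x y z => mul_add x y z
  three := RC.three
  one_ne := RC.one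
  nil := RC.nil
  res := RC.res
  indB := by
    rintro ⟨n, γ, hγ⟩ w hB hne hc
    simp only at w hB hne hc
    have hc2 : An (ro R) ((∑ i, γ i • (⟨w i, bx_mem (hB i)⟩ : NN R) : NN R) : R) := by
      rw [← lc_eq]
      exact hc
    rw [an_iff, cl_lc] at hc2
    have h1 := h.indB n (fun i => cl ⟨w i, bx_mem (hB i)⟩) (fun i => bx_iff.1 (hB i))
      (fun i j hij h' => hne i j hij (pm_iff.2 h'))
    rw [Fintype.linearIndependent_iff] at h1
    exact hγ (funext (h1 γ hc2))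
  uniq := fun v w e e' h1 h2 => by
    have m1 : v ∈ NN R := h1.1.1
    have m2 : w ∈ NN R := h1.2.1.1
    have m3 : e ∈ NN R := h1.2.2.2.1
    have m4 : e' ∈ NN R := h2.2.2.2.1
    exact pm_iff.2 (h.uniq _ _ _ _ ((ed_iff (v := ⟨v, m1⟩) (w := ⟨w, m2⟩) (e := ⟨e, m3⟩)).1 h1)
      ((ed_iff (v := ⟨v, m1⟩) (w := ⟨w, m2⟩) (e := ⟨e', m4⟩)).1 h2))
  sgn := fun v w e h1 => by
    have m1 : v ∈ NN R := h1.1.1
    have m2 : w ∈ NN R := h1.2.1.1
    have m3 : e ∈ NN R := h1.2.2.2.1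
    have h2 := (ed_iff (v := ⟨v, m1⟩) (w := ⟨w, m2⟩) (e := ⟨e, m3⟩)).1 h1
    obtain ⟨e', he'⟩ := h.sgn _ _ ⟨_, h2⟩
    obtain ⟨e', rfl⟩ := cl_surj e'
    rw [← cl_neg] at he'
    exact ⟨e', ed_iff.2 he'⟩
  prod := by
    rintro ⟨n, ⟨Bs, l⟩, hl, hd, hl0⟩ w hN hB hne h0
    simp only at hB hne h0 hl hd hl0 w hN
    have e : w = fun i => (((⟨w i, hN i⟩ : NN R)) : R) := rfl
    rw [e, qc_eq] at h0
    obtain ⟨γ, hγ, k, u, h1, h2⟩ := h.prod n Bs l hl hd hl0 (fun i => cl ⟨w i, hN i⟩)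
      (fun i hi => bx_iff.1 (hB i hi)) (fun i hi j hj hij h' => hne i j ⟨hi, hj, hij⟩
        (pm_iff.2 h')) (el_inj' h0)
    choose g hg using fun i => cl_surj (u i)
    refine ⟨⟨γ, hγ⟩, k, fun j => (g j : R), fun j => ?_, ?_⟩
    · rw [bx_iff, hg]
      exact h1 j
    · have h3 := (an_sub γ (fun i => (⟨w i, hN i⟩ : NN R)) g).2 (by
        simp only [hg]
        exact h2)
      exact h3
  inf := fun n => by
    obtain ⟨f⟩ : Nonempty (ℕ ↪ X) := ⟨Infinite.natEmbedding _⟩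
    choose g hg using fun x => cl_surj (r x)
    refine ⟨fun i => (g (f i) : R), fun i => ?_, fun i j hij hc => ?_⟩
    · rw [vx_iff, hg]
      exact hr.vv _
    · rw [pm_iff, hg, hg] at hc
      exact hr.inj _ _ (fun h' => hij (Fin.ext (f.injective h'))) hc

end ring

end Pool.Agent.H4.VR
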