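import Pool.Agent.H4.VR.Op

set_option autoImplicit false
set_option linter.unusedSectionVars false
set_option linter.unusedVariables false

/-! Models of the axioms; the two dimensions. -/

namespace Pool.Agent.H4.VR

theorem RC.of_equiv {R R' : Type} [CommRing R] [CommRing R'] [RC R'] (e : R ≃+* R') : RC R where
  three := e.injective (by
    rw [map_add, map_add, map_one, map_zero]
    exact RC.three)
  one := fun h => RC.one (R := R') (by rw [← map_one e, h, map_zero])
  nil := fun x y z hx hy hz => e.injective (by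
    rw [map_mul, map_mul, map_zero]
    exact RC.nil _ _ _ (by rw [← map_mul, ← map_mul, hx, map_zero])
      (by rw [← map_mul, ← map_mul, hy, map_zero]) (by rw [← map_mul, ← map_mul, hz, map_zero]))
  res := fun x => by
    rcases RC.res (e x) with h | h | h
    · left
      apply e.injective
      rw [map_mul, map_mul, map_zero]
      exact h
    · right; left
      apply e.injective
      rw [map_mul, map_mul, map_zero, map_add, map_neg, map_one]
      exact h
    · right; right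
      apply e.injective
      rw [map_mul, map_mul, map_zero, map_add, map_one]
      exact h

section

variable {W Z : Type} [AddCommGroup W] [Module (ZMod 3) W] [AddCommGroup Z] [Module (ZMod 3) Z]
variable {b : W →ₗ[ZMod 3] W →ₗ[ZMod 3] Z} [TR.Sym b]
variable {R : Type} [CommRing R] [RC R] (e : R ≃+* TR b)

theorem nn_e {x : R} : x ∈ NN R ↔ (e x).a = 0 := by
  rw [← TR.cube, ← map_mul, ← map_mul, map_eq_zero_iff e e.injective]
  exact Iff.rfl

theorem mul_e (x y : NN R) : e ((x : R) * y) = ⟨0, 0, b (e x).w (e y).w⟩ := by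
  have h1 := (nn_e e).1 x.2
  have h2 := (nn_e e).1 y.2
  rw [map_mul]
  ext
  · simp [h1]
  · simp [h1, h2]
  · simp [h1, h2]

/-- elements of the maximal ideal -/
def mkE (w : W) (z : Z) : NN R := ⟨e.symm ⟨0, w, z⟩, by
  rw [nn_e e, RingEquiv.apply_symm_apply]⟩

theorem e_mkE (w : W) (z : Z) : e (mkE e w z : R) = ⟨0, w, z⟩ := RingEquiv.apply_symm_apply _ _

variable (nd : ∀ x, (∀ y, b x y = 0) → x = 0)

include nd in
theorem cl_zero_e (x : NN R) : cl x = 0 ↔ (e x).w = 0 := by
  rw [cl_zero]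
  constructor
  · intro h
    refine nd _ fun y => ?_
    have h1 := h (mkE e y 0)
    rw [← map_eq_zero_iff e e.injective, mul_e, e_mkE] at h1
    exact congrArg TR.z h1
  · intro h y
    rw [← map_eq_zero_iff e e.injective, mul_e, h, map_zero]
    rfl

/-- coordinates -/
noncomputable def the (x : Wd R) : W := (e ((cl_surj x).choose : R)).w

include nd in
theorem the_cl (x : NN R) : the e (cl x) = (e x).w := by
  unfold the
  have h := (cl_surj (cl x)).choose_spec
  set k := (cl_surj (cl x)).choose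
  have h1 : cl (k - x) = 0 := by rw [cl_sub, h, sub_self]
  rw [cl_zero_e e nd] at h1
  have h2 : (e ((k : R) - x)).w = 0 := h1
  rw [sub_eq_add_neg, map_add, map_neg] at h2
  have h3 : (e k).w + -(e x).w = 0 := h2
  rwa [← sub_eq_add_neg, sub_eq_zero] at h3

include nd e in
theorem exists_coord_e : ∃ (φ : Wd R ≃ₗ[ZMod 3] W) (ψ : Zd R ≃ₗ[ZMod 3] Z),
    (∀ x y, ψ (bb R x y) = b (φ x) (φ y)) := by
  have h1 : ∀ x y, the e (x + y) = the e x + the e y := by
    intro x y
    obtain ⟨x, rfl⟩ := cl_surj x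
    obtain ⟨y, rfl⟩ := cl_surj y
    rw [← cl_add, the_cl e nd, the_cl e nd, the_cl e nd]
    show (e ((x : R) + y)).w = _
    rw [map_add]
    rfl
  let f : Wd R →ₗ[ZMod 3] W :=
    { toFun := the e
      map_add' := h1
      map_smul' := fun c x => map_smul3 h1 c x }
  have hf : ∀ x : NN R, f (cl x) = (e x).w := the_cl e nd
  have hfb : Function.Bijective f := by
    constructor
    · rw [injective_iff_map_eq_zero]
      intro x hx
      obtain ⟨x, rfl⟩ := cl_surj x
      rw [hf] at hx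
      exact (cl_zero_e e nd x).2 hx
    · intro w
      refine ⟨cl (mkE e w 0), ?_⟩
      rw [hf, e_mkE]
  have h2 : ∀ x y : Zd R, (e ((el (x + y) : NN R) : R)).z =
      (e ((el x : NN R) : R)).z + (e ((el y : NN R) : R)).z := fun x y => by
    rw [el_add]
    show (e (((el x : NN R) : R) + (el y : NN R))).z = _
    rw [map_add]
    rfl
  let g : Zd R →ₗ[ZMod 3] Z :=
    { toFun := fun x => (e ((el x : NN R) : R)).z
      map_add' := h2
      map_smul' := fun c x => map_smul3 (f := fun x : Zd R => (e ((el x : NN R) : R)).z)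
        h2 c x }
  have hg : ∀ x, g x = (e ((el x : NN R) : R)).z := fun _ => rfl
  have hw : ∀ x : Zd R, (e ((el x : NN R) : R)).w = 0 := by
    intro x
    refine nd _ fun y => ?_
    have h3 := el_mem x (mkE e y 0)
    rw [← map_eq_zero_iff e e.injective, mul_e, e_mkE] at h3
    exact congrArg TR.z h3
  have hgb : Function.Bijective g := by
    constructor
    · rw [injective_iff_map_eq_zero]
      intro x hx
      refine el_inj' (e.injective ?_)
      rw [el_zero]
      show e ((el x : NN R) : R) = e 0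
      rw [map_zero]
      exact TR.ext ((nn_e e).1 (el x).2) (hw x) hx
    · intro z
      refine ⟨ct (mkE e 0 z) fun y => ?_, ?_⟩
      · rw [← map_eq_zero_iff e e.injective, mul_e, e_mkE]
        show (⟨0, 0, b 0 _⟩ : TR b) = 0
        rw [map_zero]
        rfl
      · rw [hg, el_ct, e_mkE]
  refine ⟨LinearEquiv.ofBijective f hfb, LinearEquiv.ofBijective g hgb, fun x y => ?_⟩
  obtain ⟨x, rfl⟩ := cl_surj x
  obtain ⟨y, rfl⟩ := cl_surj y
  show g (bb R (cl x) (cl y)) = b (f (cl x)) (f (cl y))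
  rw [hg, el_bb, hf, hf, mul_e]

end

instance {V : Type} {Γ : SimpleGraph V} : TR.Sym (cc Γ) := ⟨cc_symm Γ⟩

theorem nd_cc {V : Type} [Nontrivial V] {Γ : SimpleGraph V} (x : WW Γ)
    (h : ∀ y, cc Γ x y = 0) : x = 0 := by
  classical
  by_contra hne
  obtain ⟨s, hs⟩ : ∃ s, x s ≠ 0 := by
    by_contra hcon
    push Not at hcon
    exact hne (Finsupp.ext hcon)
  have : Nontrivial (BS Γ) :=
    (Sum.inl_injective (α := V) (β := Γ.edgeSet × Bool)).nontrivial
  obtain ⟨t, ht⟩ := exists_ne s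
  have h1 := DFunLike.congr_fun (h (Finsupp.single t 1)) (s, t)
  rw [Finsupp.zero_apply] at h1
  have hst : (Finsupp.single t (1 : ZMod 3)) s = 0 := Finsupp.single_eq_of_ne (Ne.symm ht)
  by_cases hE : ∃ v w, s = Sum.inl v ∧ t = Sum.inl w ∧ Γ.Adj v w
  · obtain ⟨v, w, rfl, rfl, hvw⟩ := hE
    rw [cc_edge _ _ hvw, hst, Finsupp.single_eq_same] at h1
    simp at h1
    exact hs h1
  · rw [cc_apply _ _ _ _ (Ne.symm ht) (fun v w h => hE ⟨v, w, h⟩), hst,
      Finsupp.single_eq_same] at h1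
    simp at h1
    exact hs h1

/-- a model on every countably infinite set -/
theorem exists_model {α : Type} [Countable α] [Infinite α] (Γ : SimpleGraph ℕ) :
    ∃ (_ : CommRing α) (_ : RC α), FR (ro α) ∧ ∃ r : ℕ → Wd α, Rep (bb α) r ∧
      ∀ v w, Γ.Adj v w ↔ Adj (bb α) (r v) (r w) := by
  classical
  have hc : Countable (TR (cc Γ)) := by
    have h1 : Function.Injective (fun a : TR (cc Γ) => (a.a, a.w, a.z)) := by
      intro a b h
      have h1 := congrArg Prod.fst h
      have h2 := congrArg (fun p => p.2.1) h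
      have h3 := congrArg (fun p => p.2.2) h
      exact TR.ext h1 h2 h3
    exact h1.countable
  have hi : Infinite (TR (cc Γ)) := by
    have h1 : Function.Injective (fun v : ℕ =>
        (⟨0, Finsupp.single (Sum.inl v) 1, 0⟩ : TR (cc Γ))) := by
      intro v w h
      have h2 : (Finsupp.single (Sum.inl v) 1 : WW Γ) = Finsupp.single (Sum.inl w) 1 :=
        congrArg TR.w h
      have h3 := single_inj (Γ := Γ) (s := Sum.inl v) (t := Sum.inl w) (c := 1) (d := 1)
        one_ne_zero (by rw [one_smul, one_smul]; exact h2)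
      exact Sum.inl_injective h3.1
    exact Infinite.of_injective _ h1
  obtain ⟨e0⟩ := nonempty_equiv_of_countable (α := α) (β := TR (cc Γ))
  let g : CommRing α := e0.commRing
  let e : α ≃+* TR (cc Γ) := e0.ringEquiv
  have h2 : RC α := RC.of_equiv e
  obtain ⟨φ, ψ, hφ⟩ := exists_coord_e e nd_cc
  have hB := niceB_cc.iso φ ψ hφ
  have hr := (rep_of (Γ := Γ)).iso φ ψ hφ
  refine ⟨g, h2, FR_of hB hr, _, hr, fun v w => ?_⟩
  rw [← Adj_iso φ ψ hφ, LinearEquiv.apply_symm_apply, LinearEquiv.apply_symm_apply]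
  exact adj_of v w

/-- spans over the field with three elements -/
theorem span3 {M : Type} [AddCommGroup M] [Module (ZMod 3) M] {A : Set M}
    (hA : ∀ x ∈ A, -x ∈ A) {x : M} :
    x ∈ Submodule.span (ZMod 3) A ↔ ∃ (n : ℕ) (u : Fin n → M), (∀ i, u i ∈ A) ∧ x = ∑ i, u i := by
  constructor
  · intro hx
    refine Submodule.span_induction (p := fun x _ => ∃ (n : ℕ) (u : Fin n → M),
      (∀ i, u i ∈ A) ∧ x = ∑ i, u i) ?_ ?_ ?_ ?_ hx
    · intro y hy
      exact ⟨1, fun _ => y, fun _ => hy, by simp⟩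
    · exact ⟨0, fun _ => 0, fun i => i.elim0, by simp⟩
    · rintro a b _ _ ⟨n, y, hy, rfl⟩ ⟨m, t, ht, rfl⟩
      refine ⟨n + m, Fin.append y t, fun i => ?_, ?_⟩
      · refine Fin.addCases (fun j => ?_) (fun j => ?_) i
        · rw [Fin.append_left]
          exact hy j
        · rw [Fin.append_right]
          exact ht j
      · rw [Fin.sum_univ_add]
        simp
    · rintro c a _ ⟨n, y, hy, rfl⟩
      rcases z3 c with rfl | rfl | rfl
      · exact ⟨0, fun _ => 0, fun i => i.elim0, by simp⟩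
      · exact ⟨n, y, hy, by rw [one_smul]⟩
      · exact ⟨n, fun i => -y i, fun i => hA _ (hy i), by
          rw [neg_smul, one_smul, Finset.sum_neg_distrib]⟩
  · rintro ⟨n, u, h1, rfl⟩
    exact Submodule.sum_mem _ fun i _ => Submodule.subset_span (h1 i)

/-- the rank of a quotient -/
theorem le_rank {M : Type} [AddCommGroup M] [Module (ZMod 3) M] (S : Submodule (ZMod 3) M)
    (n : ℕ) : (n : Cardinal) ≤ Module.rank (ZMod 3) (M ⧸ S) ↔
      ∃ w : Fin n → M, ∀ γ : Fin n → ZMod 3, γ ≠ 0 → ∑ i, γ i • w i ∉ S := by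
  have key : ∀ w : Fin n → M, (∀ γ : Fin n → ZMod 3, γ ≠ 0 → ∑ i, γ i • w i ∉ S) ↔
      LinearIndependent (ZMod 3) (fun i => (Submodule.Quotient.mk (w i) : M ⧸ S)) := by
    intro w
    rw [Fintype.linearIndependent_iff]
    refine forall_congr' fun γ => ?_
    have h1 : ∑ i, γ i • (Submodule.Quotient.mk (w i) : M ⧸ S) = 0 ↔ ∑ i, γ i • w i ∈ S := by
      rw [← Submodule.Quotient.mk_eq_zero S]
      have : (Submodule.Quotient.mk (∑ i, γ i • w i) : M ⧸ S) =
          ∑ i, γ i • (Submodule.Quotient.mk (w i) : M ⧸ S) :=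
        (map_sum S.mkQ (fun i => γ i • w i) Finset.univ).trans
          (Finset.sum_congr rfl fun i _ => map_smul S.mkQ _ _)
      rw [this]
    rw [h1, ← funext_iff (f := γ) (g := fun _ => 0)]
    constructor
    · intro h h2
      by_contra h3
      exact h h3 h2
    · intro h h2 h3
      exact h2 (h h3)
  constructor
  · intro h
    obtain ⟨s, hs1, hs2⟩ := le_rank_iff_exists_linearIndependent_finset.1 h
    let e : Fin n ≃ s := (s.equivFinOfCardEq hs1).symm
    choose w hw using fun x : M ⧸ S => Submodule.Quotient.mk_surjective S x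
    refine ⟨fun i => w (e i), (key _).2 ?_⟩
    simp only [hw]
    exact hs2.comp e e.injective
  · rintro ⟨w, hw⟩
    have h1 := ((key w).1 hw).cardinal_lift_le_rank
    simpa using h1

/-- countable ranks are determined by the natural numbers below them -/
theorem rank_eq {M M' : Type} [AddCommGroup M] [Module (ZMod 3) M] [AddCommGroup M']
    [Module (ZMod 3) M'] [Countable M] [Countable M']
    (h : ∀ n : ℕ, (n : Cardinal) ≤ Module.rank (ZMod 3) M ↔
      (n : Cardinal) ≤ Module.rank (ZMod 3) M') :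
    Module.rank (ZMod 3) M = Module.rank (ZMod 3) M' := by
  have key : ∀ κ κ' : Cardinal.{0}, κ ≤ Cardinal.aleph0 → κ' ≤ Cardinal.aleph0 →
      (∀ n : ℕ, (n : Cardinal) ≤ κ → (n : Cardinal) ≤ κ') → κ ≤ κ' := by
    intro κ κ' h1 h2 h3
    rcases h1.lt_or_eq with h4 | h4
    · obtain ⟨m, rfl⟩ := Cardinal.lt_aleph0.1 h4
      exact h3 m le_rfl
    · rw [h4]
      refine Cardinal.aleph0_le.2 fun n => h3 n ?_
      rw [h4]
      exact (Cardinal.natCast_lt_aleph0).le
  have h1 : Module.rank (ZMod 3) M ≤ Cardinal.aleph0 :=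
    (rank_le_card (ZMod 3) M).trans (Cardinal.mk_le_aleph0_iff.2 inferInstance)
  have h2 : Module.rank (ZMod 3) M' ≤ Cardinal.aleph0 :=
    (rank_le_card (ZMod 3) M').trans (Cardinal.mk_le_aleph0_iff.2 inferInstance)
  exact le_antisymm (key _ _ h1 h2 fun n => (h n).1) (key _ _ h2 h1 fun n => (h n).2)

section ops

variable {α : Type} (o : RO α)

/-- the span of the vertices and edges -/
def InP (x : α) : Prop := ∃ (k : ℕ) (u : Fin k → α), (∀ i, Bx o (u i)) ∧
  An o (o.add x (o.neg (wd o (List.ofFn u))))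

/-- sums of products -/
def InQ (x : α) : Prop := ∃ (k : ℕ) (u v : Fin k → α), (∀ i, Nl o (u i)) ∧ (∀ i, Nl o (v i)) ∧
  x = wd o (List.ofFn fun i => o.mul (u i) (v i))

/-- the first dimension is at least `n` -/
def D1 (n : ℕ) : Prop := ∃ w : Fin n → α, (∀ i, Nl o (w i)) ∧
  ∀ γ : {γ : Fin n → ZMod 3 // γ ≠ 0}, ¬ InP o (lc o γ.1 w)

/-- the second dimension is at least `n` -/
def D2 (n : ℕ) : Prop := ∃ w : Fin n → α, (∀ i, An o (w i)) ∧
  ∀ γ : {γ : Fin n → ZMod 3 // γ ≠ 0}, ¬ InQ o (lc o γ.1 w)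

end ops

section ring

variable {R : Type} [CommRing R] [RC R]

theorem inP_iff {x : NN R} : InP (ro R) (x : R) ↔ cl x ∈ SP (bb R) := by
  unfold InP SP
  rw [span3 fun x hx => BB_neg hx]
  have key : ∀ {k : ℕ} (u : Fin k → NN R), An (ro R) ((ro R).add (x : R)
      ((ro R).neg (wd (ro R) (List.ofFn fun i => (u i : R))))) ↔ cl x = ∑ i, cl (u i) := by
    intro k u
    rw [wd_ofFn, ← cl_sum, ← sub_eq_zero, ← cl_sub, ← an_iff, ← coe_sum, sub_eq_add_neg]
    exact Iff.rfl
  constructor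
  · rintro ⟨k, u, h1, h2⟩
    exact ⟨k, fun i => cl ⟨u i, bx_mem (h1 i)⟩, fun i => bx_iff.1 (h1 i),
      (key fun i => (⟨u i, bx_mem (h1 i)⟩ : NN R)).1 h2⟩
  · rintro ⟨k, u, h1, h2⟩
    choose g hg using fun i => cl_surj (u i)
    refine ⟨k, fun i => (g i : R), fun i => ?_, ?_⟩
    · rw [bx_iff, hg]
      exact h1 i
    · rw [key, h2]
      simp only [hg]

theorem inQ_iff {z : Zd R} : InQ (ro R) ((el z : NN R) : R) ↔ z ∈ SQ (bb R) := by
  have key : ∀ {k : ℕ} (u v : Fin k → NN R), wd (ro R) (List.ofFn fun i =>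
      (ro R).mul (u i : R) (v i)) = ((el (∑ i, bb R (cl (u i)) (cl (v i))) : NN R) : R) := by
    intro k u v
    rw [wd_ofFn, el_sum, coe_sum]
    refine Finset.sum_congr rfl fun i _ => ?_
    rw [el_bb]
    rfl
  unfold InQ SQ
  rw [span3 (by
    rintro _ ⟨x, y, rfl⟩
    exact ⟨-x, y, by rw [map_neg, LinearMap.neg_apply]⟩)]
  constructor
  · rintro ⟨k, u, v, h1, h2, h3⟩
    refine ⟨k, fun i => bb R (cl ⟨u i, h1 i⟩) (cl ⟨v i, h2 i⟩), fun i => ⟨_, _, rfl⟩, el_inj' ?_⟩
    rw [h3]
    exact key (fun i => (⟨u i, h1 i⟩ : NN R)) (fun i => (⟨v i, h2 i⟩ : NN R))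
  · rintro ⟨k, u, h1, h2⟩
    choose x y hxy using h1
    choose g hg using fun i => cl_surj (x i)
    choose g' hg' using fun i => cl_surj (y i)
    refine ⟨k, fun i => (g i : R), fun i => (g' i : R), fun i => (g i).2, fun i => (g' i).2, ?_⟩
    rw [key, h2]
    simp only [hg, hg', hxy]

theorem D1_iff (n : ℕ) : D1 (ro R) n ↔
    (n : Cardinal) ≤ Module.rank (ZMod 3) (Wd R ⧸ SP (bb R)) := by
  rw [le_rank]
  unfold D1
  constructor
  · rintro ⟨w, h0, h⟩
    refine ⟨fun i => cl ⟨w i, h0 i⟩, fun γ hγ hc => h ⟨γ, hγ⟩ ?_⟩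
    have h1 : lc (ro R) γ w = ((∑ i, γ i • (⟨w i, h0 i⟩ : NN R) : NN R) : R) := by
      rw [← lc_eq]
    show InP (ro R) (lc (ro R) γ w)
    rw [h1, inP_iff, cl_lc]
    exact hc
  · rintro ⟨w, h⟩
    choose g hg using fun i => cl_surj (w i)
    refine ⟨fun i => (g i : R), fun i => (g i).2, fun γ hc => h γ.1 γ.2 ?_⟩
    rw [lc_eq, inP_iff, cl_lc] at hc
    simpa only [hg] using hc

theorem D2_iff (n : ℕ) : D2 (ro R) n ↔
    (n : Cardinal) ≤ Module.rank (ZMod 3) (Zd R ⧸ SQ (bb R)) := by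
  rw [le_rank]
  unfold D2
  have key : ∀ (γ : Fin n → ZMod 3) (w : Fin n → Zd R), lc (ro R) γ (fun i => ((el (w i) : NN R) :
      R)) = ((el (∑ i, γ i • w i) : NN R) : R) := by
    intro γ w
    rw [lc_eq, el_sum]
    simp only [el_smul]
  constructor
  · rintro ⟨w, h0, h⟩
    refine ⟨fun i => ct ⟨w i, (h0 i).1⟩ fun y => (h0 i).2 y y.2, fun γ hγ hc => h ⟨γ, hγ⟩ ?_⟩
    have h1 := key γ (fun i => ct ⟨w i, (h0 i).1⟩ fun y => (h0 i).2 y y.2)
    show InQ (ro R) (lc (ro R) γ w)
    refine Eq.mpr (congrArg _ h1) ?_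
    rw [inQ_iff]
    exact hc
  · rintro ⟨w, h⟩
    refine ⟨fun i => ((el (w i) : NN R) : R), fun i => ⟨(el (w i)).2, fun y hy =>
      el_mem (w i) ⟨y, hy⟩⟩, fun γ hc => h γ.1 γ.2 ?_⟩
    rw [key, inQ_iff] at hc
    exact hc

end ring

end Pool.Agent.H4.VR
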