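import Pool.Agent.H4.VR.Mod3

set_option autoImplicit false
set_option linter.unusedSectionVars false
set_option linter.unusedVariables false

/-! The class of rings, and the symmetric bilinear map of a ring of the class. -/

namespace Pool.Agent.H4.VR

/-- the class of rings -/
class RC (R : Type) [CommRing R] : Prop where
  three : (1 : R) + 1 + 1 = 0
  one : (1 : R) ≠ 0
  nil : ∀ x y z : R, x * x * x = 0 → y * y * y = 0 → z * z * z = 0 → x * y * z = 0
  res : ∀ x : R, x * x * x = 0 ∨ (x + -1) * (x + -1) * (x + -1) = 0 ∨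
    (x + 1) * (x + 1) * (x + 1) = 0

section ring

variable (R : Type) [CommRing R] [RC R]

variable {R} in
theorem thr (x : R) : x + x + x = 0 := by
  have := RC.three (R := R)
  linear_combination x * this

/-- the maximal ideal -/
def NN : AddSubgroup R where
  carrier := {x | x * x * x = 0}
  zero_mem' := by simp
  add_mem' := by
    intro x y hx hy
    have hx' : x * x * x = 0 := hx
    have hy' : y * y * y = 0 := hy
    have := RC.three (R := R)
    show (x + y) * (x + y) * (x + y) = 0
    linear_combination hx' + hy' + (x * x * y + x * y * y) * this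
  neg_mem' := by
    intro x hx
    have hx' : x * x * x = 0 := hx
    show -x * -x * -x = 0
    linear_combination -hx'

variable {R}

theorem mem_NN {x : R} : x ∈ NN R ↔ x * x * x = 0 := Iff.rfl

theorem NN_mul {x : R} (h : x ∈ NN R) (y : R) : x * y ∈ NN R := by
  have h' : x * x * x = 0 := h
  show x * y * (x * y) * (x * y) = 0
  linear_combination (y * y * y) * h'

variable (R)

/-- the annihilator -/
def AA : AddSubgroup (NN R) where
  carrier := {x | ∀ y : NN R, (x : R) * y = 0}
  zero_mem' := fun y => by simp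
  add_mem' := by
    intro a b ha hb y
    have h1 : (a : R) * y = 0 := ha y
    have h2 : (b : R) * y = 0 := hb y
    show ((a : R) + b) * y = 0
    rw [add_mul, h1, h2, add_zero]
  neg_mem' := by
    intro a ha y
    have h1 : (a : R) * y = 0 := ha y
    show (-(a : R)) * y = 0
    rw [neg_mul, h1, neg_zero]

/-- the first space -/
def Wd : Type := NN R ⧸ AA R

/-- the second space -/
def Zd : Type := AA R

instance : AddCommGroup (Wd R) := inferInstanceAs (AddCommGroup (NN R ⧸ AA R))

instance : AddCommGroup (Zd R) := inferInstanceAs (AddCommGroup (AA R))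

variable {R}

/-- the class of an element -/
def cl (x : NN R) : Wd R := (QuotientAddGroup.mk x : NN R ⧸ AA R)

/-- the element -/
def el (z : Zd R) : NN R := (z : AA R).1

theorem el_mem (z : Zd R) (y : NN R) : ((el z : NN R) : R) * y = 0 := (z : AA R).2 y

/-- an element of the second space -/
def ct (x : NN R) (h : ∀ y : NN R, (x : R) * y = 0) : Zd R := (⟨x, h⟩ : AA R)

theorem el_ct (x : NN R) (h : ∀ y : NN R, (x : R) * y = 0) : el (ct x h) = x := rfl

theorem el_add (z w : Zd R) : el (z + w) = el z + el w := rfl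

theorem el_neg (z : Zd R) : el (-z) = -el z := rfl

theorem el_zero : el (0 : Zd R) = 0 := rfl

theorem el_inj {z w : Zd R} (h : el z = el w) : z = w := Subtype.ext (p := (· ∈ AA R)) h

theorem el_inj' {z w : Zd R} (h : ((el z : NN R) : R) = el w) : z = w := el_inj (Subtype.ext h)

theorem cl_add (x y : NN R) : cl (x + y) = cl x + cl y := rfl

theorem cl_neg (x : NN R) : cl (-x) = -cl x := rfl

theorem cl_sub (x y : NN R) : cl (x - y) = cl x - cl y := rfl

theorem cl_zero' : cl (0 : NN R) = 0 := rfl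

theorem cl_surj (x : Wd R) : ∃ g : NN R, cl g = x := by
  obtain ⟨g, hg⟩ := QuotientAddGroup.mk_surjective (x : NN R ⧸ AA R)
  exact ⟨g, hg⟩

theorem cl_zero {x : NN R} : cl x = 0 ↔ ∀ y : NN R, (x : R) * y = 0 :=
  QuotientAddGroup.eq_zero_iff (N := AA R) x

theorem cl_eq {x y : NN R} : cl x = cl y ↔ ∀ z : NN R, ((x : R) - y) * z = 0 := by
  rw [← sub_eq_zero, ← cl_sub, cl_zero]
  exact Iff.rfl

theorem wthree (x : Wd R) : x + x + x = 0 := by
  obtain ⟨g, rfl⟩ := cl_surj x
  rw [← cl_add, ← cl_add]
  have : g + g + g = 0 := Subtype.ext (thr _)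
  rw [this]
  rfl

theorem nthree (x : NN R) : x + x + x = 0 := Subtype.ext (thr _)

theorem zthree (z : Zd R) : z + z + z = 0 := el_inj (nthree _)

instance : Module (ZMod 3) (NN R) :=
  AddCommGroup.zmodModule (n := 3) fun x => by
    rw [succ_nsmul, two_nsmul]
    exact nthree x

instance : Module (ZMod 3) (Wd R) :=
  AddCommGroup.zmodModule (n := 3) fun x => by
    rw [succ_nsmul, two_nsmul]
    exact wthree x

instance : Module (ZMod 3) (Zd R) :=
  AddCommGroup.zmodModule (n := 3) fun x => by
    rw [succ_nsmul, two_nsmul]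
    exact zthree x

theorem map_smul3 {M N : Type} [AddCommGroup M] [Module (ZMod 3) M] [AddCommGroup N]
    [Module (ZMod 3) N] {f : M → N} (h : ∀ x y, f (x + y) = f x + f y) (c : ZMod 3) (x : M) :
    f (c • x) = c • f x := by
  have h0 : f 0 = 0 := by
    have := h 0 0
    rw [add_zero] at this
    exact left_eq_add.1 this
  have hn : f (-x) = - f x := by
    have := h x (-x)
    rw [add_neg_cancel, h0] at this
    exact (neg_eq_of_add_eq_zero_right this.symm).symm
  rcases z3 c with rfl | rfl | rfl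
  · rw [zero_smul, zero_smul, h0]
  · rw [one_smul, one_smul]
  · rw [neg_smul, neg_smul, one_smul, one_smul, hn]

/-- the product -/
def mulA (x y : NN R) : Zd R := ct ⟨(x : R) * y, NN_mul x.2 y⟩ fun z => RC.nil _ _ _ x.2 y.2 z.2

theorem el_mulA (x y : NN R) : ((el (mulA x y) : NN R) : R) = x * y := rfl

/-- the product of classes -/
noncomputable def bt (x y : Wd R) : Zd R := mulA (cl_surj x).choose (cl_surj y).choose

theorem bt_cl (x y : NN R) : bt (cl x) (cl y) = mulA x y := by
  refine el_inj' ?_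
  unfold bt
  rw [el_mulA, el_mulA]
  have h1 := cl_eq.1 (cl_surj (cl x)).choose_spec
  have h2 := cl_eq.1 (cl_surj (cl y)).choose_spec
  set a := (cl_surj (cl x)).choose
  set c := (cl_surj (cl y)).choose
  have h3 := h1 c
  have h4 := h2 x
  linear_combination h3 + h4

theorem el_bt (x y : NN R) : ((el (bt (cl x) (cl y)) : NN R) : R) = x * y := by
  rw [bt_cl, el_mulA]

theorem bt_symm (x y : Wd R) : bt x y = bt y x := by
  obtain ⟨x, rfl⟩ := cl_surj x
  obtain ⟨y, rfl⟩ := cl_surj y
  refine el_inj' ?_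
  rw [el_bt, el_bt, mul_comm]

theorem bt_add (x y z : Wd R) : bt (x + y) z = bt x z + bt y z := by
  obtain ⟨x, rfl⟩ := cl_surj x
  obtain ⟨y, rfl⟩ := cl_surj y
  obtain ⟨z, rfl⟩ := cl_surj z
  refine el_inj' ?_
  rw [← cl_add, el_bt, el_add]
  show ((x : R) + y) * z = (el (bt (cl x) (cl z)) : NN R) + (el (bt (cl y) (cl z)) : NN R)
  rw [el_bt, el_bt, add_mul]

theorem bt_add' (x y z : Wd R) : bt x (y + z) = bt x y + bt x z := by
  rw [bt_symm, bt_add, bt_symm y, bt_symm z]

variable (R) in
/-- the bilinear map -/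
noncomputable def bb : Wd R →ₗ[ZMod 3] Wd R →ₗ[ZMod 3] Zd R :=
  LinearMap.mk₂ (ZMod 3) bt bt_add
    (fun c x y => map_smul3 (f := fun x => bt x y) (fun x x' => bt_add x x' y) c x)
    bt_add'
    (fun c x y => map_smul3 (f := fun y => bt x y) (fun y y' => bt_add' x y y') c y)

theorem el_bb (x y : NN R) : ((el (bb R (cl x) (cl y)) : NN R) : R) = x * y := el_bt x y

theorem bb_symm (x y : Wd R) : bb R x y = bb R y x := bt_symm x y

/-- the constants -/
def ca (R : Type) [CommRing R] (c : ZMod 3) : R := if c = 0 then 0 else if c = 1 then 1 else -1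

theorem ca_zero : ca R 0 = 0 := rfl

theorem ca_one : ca R 1 = 1 := by
  have : ¬ ((1 : ZMod 3) = 0) := by decide
  unfold ca
  rw [if_neg this, if_pos rfl]

theorem ca_neg : ca R (-1) = -1 := by
  have h1 : ¬ ((-1 : ZMod 3) = 0) := by decide
  have h2 : ¬ ((-1 : ZMod 3) = 1) := by decide
  unfold ca
  rw [if_neg h1, if_neg h2]

theorem ca_add (c d : ZMod 3) : ca R (c + d) = ca R c + ca R d := by
  have h3 := RC.three (R := R)
  have e1 : (1 : ZMod 3) + 1 = -1 := by decide
  have e2 : (-1 : ZMod 3) + -1 = 1 := by decide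
  rcases z3 c with rfl | rfl | rfl <;> rcases z3 d with rfl | rfl | rfl
  · rw [ca_zero, zero_add, ca_zero, zero_add]
  · rw [ca_zero, zero_add, zero_add]
  · rw [ca_zero, zero_add, zero_add]
  · rw [ca_zero, add_zero, add_zero]
  · rw [e1, ca_neg, ca_one]
    linear_combination -h3
  · rw [add_neg_cancel, ca_one, ca_neg, ca_zero, add_neg_cancel]
  · rw [ca_zero, add_zero, add_zero]
  · rw [neg_add_cancel, ca_one, ca_neg, ca_zero, neg_add_cancel]
  · rw [e2, ca_neg, ca_one]
    linear_combination h3

theorem ca_mul (c d : ZMod 3) : ca R (c * d) = ca R c * ca R d := by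
  rcases z3 c with rfl | rfl | rfl
  · rw [zero_mul, ca_zero, zero_mul]
  · rw [one_mul, ca_one, one_mul]
  · rcases z3 d with rfl | rfl | rfl
    · rw [mul_zero, ca_zero, mul_zero]
    · rw [mul_one, ca_one, mul_one]
    · rw [neg_mul_neg, one_mul, ca_one, ca_neg, neg_mul_neg, one_mul]

theorem coe_smul (c : ZMod 3) (x : NN R) : ((c • x : NN R) : R) = ca R c * x := by
  rcases z3 c with rfl | rfl | rfl
  · rw [zero_smul, ca_zero, zero_mul]
    rfl
  · rw [one_smul, ca_one, one_mul]
  · rw [neg_smul, one_smul, ca_neg, neg_mul, one_mul]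
    rfl

theorem el_smul (c : ZMod 3) (x : Zd R) : el (c • x) = c • el x :=
  map_smul3 (f := fun x : Zd R => el x) el_add c x

theorem cl_smul (c : ZMod 3) (x : NN R) : cl (c • x) = c • cl x :=
  map_smul3 (f := fun x : NN R => cl x) cl_add c x

theorem el_sum {ι : Type} (s : Finset ι) (f : ι → Zd R) : el (∑ i ∈ s, f i) = ∑ i ∈ s, el (f i) :=
  map_sum (AddMonoidHom.mk' (fun z : Zd R => el z) el_add) f s

theorem cl_sum {ι : Type} (s : Finset ι) (f : ι → NN R) : cl (∑ i ∈ s, f i) = ∑ i ∈ s, cl (f i) :=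
  map_sum (AddMonoidHom.mk' (fun z : NN R => cl z) cl_add) f s

theorem coe_sum {ι : Type} (s : Finset ι) (f : ι → NN R) :
    ((∑ i ∈ s, f i : NN R) : R) = ∑ i ∈ s, (f i : R) :=
  map_sum (AddMonoidHom.mk' (fun z : NN R => (z : R)) fun _ _ => rfl) f s

theorem exists_section : ∃ s : Wd R →ₗ[ZMod 3] NN R, ∀ x, cl (s x) = x := by
  let f : NN R →ₗ[ZMod 3] Wd R :=
    { toFun := cl
      map_add' := cl_add
      map_smul' := cl_smul }
  obtain ⟨g, hg⟩ := LinearMap.exists_rightInverse_of_surjective f (LinearMap.range_eq_top.2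
    fun x => cl_surj x)
  exact ⟨g, fun x => LinearMap.congr_fun hg x⟩

theorem res' (x : R) : ∃ c : ZMod 3, x - ca R c ∈ NN R := by
  rcases RC.res x with h | h | h
  · refine ⟨0, ?_⟩
    rw [ca_zero, sub_zero]
    exact h
  · refine ⟨1, ?_⟩
    rw [ca_one, sub_eq_add_neg]
    exact h
  · refine ⟨-1, ?_⟩
    rw [ca_neg, sub_neg_eq_add]
    exact h

theorem ca_mem {c : ZMod 3} (h : ca R c ∈ NN R) : c = 0 := by
  rcases z3 c with rfl | rfl | rfl
  · rfl
  · rw [ca_one] at h
    have h' : (1 : R) * 1 * 1 = 0 := h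
    rw [mul_one, mul_one] at h'
    exact absurd h' RC.one
  · rw [ca_neg] at h
    have h' : (-1 : R) * -1 * -1 = 0 := h
    exfalso
    refine RC.one (R := R) ?_
    linear_combination -h'

end ring

/-! ### The ring of a symmetric bilinear map -/

section tr

variable {W Z : Type} [AddCommGroup W] [Module (ZMod 3) W] [AddCommGroup Z] [Module (ZMod 3) Z]

/-- the ring of a symmetric bilinear map -/
@[ext] structure TR (b : W →ₗ[ZMod 3] W →ₗ[ZMod 3] Z) where
  a : ZMod 3
  w : W
  z : Z

namespace TR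

variable {b : W →ₗ[ZMod 3] W →ₗ[ZMod 3] Z}

instance : Add (TR b) := ⟨fun x y => ⟨x.a + y.a, x.w + y.w, x.z + y.z⟩⟩
instance : Zero (TR b) := ⟨⟨0, 0, 0⟩⟩
instance : One (TR b) := ⟨⟨1, 0, 0⟩⟩
instance : Neg (TR b) := ⟨fun x => ⟨-x.a, -x.w, -x.z⟩⟩
instance : Mul (TR b) := ⟨fun x y => ⟨x.a * y.a, x.a • y.w + y.a • x.w,
  x.a • y.z + y.a • x.z + b x.w y.w⟩⟩

@[simp] theorem add_a (x y : TR b) : (x + y).a = x.a + y.a := rfl
@[simp] theorem add_w (x y : TR b) : (x + y).w = x.w + y.w := rfl
@[simp] theorem add_z (x y : TR b) : (x + y).z = x.z + y.z := rfl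
@[simp] theorem zero_a : (0 : TR b).a = 0 := rfl
@[simp] theorem zero_w : (0 : TR b).w = 0 := rfl
@[simp] theorem zero_z : (0 : TR b).z = 0 := rfl
@[simp] theorem one_a : (1 : TR b).a = 1 := rfl
@[simp] theorem one_w : (1 : TR b).w = 0 := rfl
@[simp] theorem one_z : (1 : TR b).z = 0 := rfl
@[simp] theorem neg_a (x : TR b) : (-x).a = -x.a := rfl
@[simp] theorem neg_w (x : TR b) : (-x).w = -x.w := rfl
@[simp] theorem neg_z (x : TR b) : (-x).z = -x.z := rfl
@[simp] theorem mul_a (x y : TR b) : (x * y).a = x.a * y.a := rfl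
@[simp] theorem mul_w (x y : TR b) : (x * y).w = x.a • y.w + y.a • x.w := rfl
@[simp] theorem mul_z (x y : TR b) : (x * y).z = x.a • y.z + y.a • x.z + b x.w y.w := rfl

/-- symmetric bilinear maps -/
class Sym (b : W →ₗ[ZMod 3] W →ₗ[ZMod 3] Z) : Prop where
  symm : ∀ x y, b x y = b y x

instance [Sym b] : CommRing (TR b) where
  add_assoc x y z := by ext <;> simp [add_assoc]
  zero_add x := by ext <;> simp
  add_zero x := by ext <;> simp
  add_comm x y := by ext <;> simp [add_comm]
  neg_add_cancel x := by ext <;> simp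
  nsmul := nsmulRec
  zsmul := zsmulRec
  left_distrib x y z := by
    ext
    · simp [mul_add]
    · simp only [mul_w, add_w, add_a, smul_add, add_smul]
      abel
    · simp only [mul_z, add_w, add_a, add_z, smul_add, add_smul, map_add, LinearMap.add_apply]
      abel
  right_distrib x y z := by
    ext
    · simp [add_mul]
    · simp only [mul_w, add_w, add_a, smul_add, add_smul]
      abel
    · simp only [mul_z, add_w, add_a, add_z, smul_add, add_smul, map_add, LinearMap.add_apply]
      abel
  zero_mul x := by ext <;> simp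
  mul_zero x := by ext <;> simp
  mul_assoc x y z := by
    ext
    · simp [mul_assoc]
    · simp only [mul_w, mul_a, smul_add, smul_smul]
      rw [mul_comm z.a x.a, mul_comm z.a y.a]
      abel
    · simp only [mul_z, mul_w, mul_a, smul_add, smul_smul, map_add, map_smul,
        LinearMap.add_apply, LinearMap.smul_apply]
      rw [mul_comm z.a x.a, mul_comm z.a y.a]
      abel
  one_mul x := by ext <;> simp
  mul_one x := by ext <;> simp
  mul_comm x y := by
    ext
    · simp [mul_comm]
    · simp only [mul_w]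
      abel
    · simp only [mul_z]
      rw [Sym.symm y.w x.w]
      abel

end TR

end tr

end Pool.Agent.H4.VR
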