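import Pool.Agent.H4.VR.Rg

set_option autoImplicit false
set_option linter.unusedSectionVars false
set_option linter.unusedVariables false

/-! Rings of the class and symmetric bilinear maps. -/

namespace Pool.Agent.H4.VR

section tr

variable {W Z : Type} [AddCommGroup W] [Module (ZMod 3) W] [AddCommGroup Z] [Module (ZMod 3) Z]
variable {b : W →ₗ[ZMod 3] W →ₗ[ZMod 3] Z}

namespace TR

variable [Sym b]

theorem cube (x : TR b) : x * x * x = 0 ↔ x.a = 0 := by
  constructor
  · intro h
    have h1 := congrArg TR.a h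
    simp only [mul_a, zero_a] at h1
    rcases mul_eq_zero.1 h1 with h2 | h2
    · rcases mul_eq_zero.1 h2 with h3 | h3 <;> exact h3
    · exact h2
  · intro h
    ext
    · simp [h]
    · simp [h]
    · simp [h]

instance : RC (TR b) where
  three := by
    ext
    · show (1 : ZMod 3) + 1 + 1 = 0
      decide
    · simp
    · simp
  one := by
    intro h
    have h1 : (1 : ZMod 3) = 0 := congrArg TR.a h
    exact absurd h1 (by decide)
  nil := by
    intro x y z hx hy hz
    rw [cube] at hx hy hz
    ext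
    · simp [hx]
    · simp [hx, hy, hz]
    · simp [hx, hy, hz]
  res := by
    intro x
    rw [cube, cube, cube]
    simp only [add_a, neg_a, one_a]
    rcases z3 x.a with h | h | h
    · exact Or.inl h
    · right; left
      rw [h]
      decide
    · right; right
      rw [h]
      decide

end TR

/-- isomorphic bilinear maps -/
theorem TR_iso {W' Z' : Type} [AddCommGroup W'] [Module (ZMod 3) W'] [AddCommGroup Z']
    [Module (ZMod 3) Z'] {b' : W' →ₗ[ZMod 3] W' →ₗ[ZMod 3] Z'} [TR.Sym b] [TR.Sym b']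
    (φ : W ≃ₗ[ZMod 3] W') (ψ : Z ≃ₗ[ZMod 3] Z') (h : ∀ x y, ψ (b x y) = b' (φ x) (φ y)) :
    Nonempty (TR b ≃+* TR b') := by
  let f : TR b →+* TR b' :=
    { toFun := fun x => ⟨x.a, φ x.w, ψ x.z⟩
      map_one' := by ext <;> simp
      map_zero' := by ext <;> simp
      map_add' := fun x y => by ext <;> simp
      map_mul' := fun x y => by
        ext
        · simp
        · simp
        · simp [h] }
  refine ⟨RingEquiv.ofBijective f ⟨?_, ?_⟩⟩
  · intro x y hxy
    have h1 : x.a = y.a := congrArg (TR.a (b := b')) hxy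
    have h2 : φ x.w = φ y.w := congrArg (TR.w (b := b')) hxy
    have h3 : ψ x.z = ψ y.z := congrArg (TR.z (b := b')) hxy
    exact TR.ext h1 (φ.injective h2) (ψ.injective h3)
  · intro y
    refine ⟨⟨y.a, φ.symm y.w, ψ.symm y.z⟩, ?_⟩
    show (⟨y.a, φ (φ.symm y.w), ψ (ψ.symm y.z)⟩ : TR b') = y
    rw [LinearEquiv.apply_symm_apply, LinearEquiv.apply_symm_apply]

section

variable [TR.Sym b]

theorem nn_a (x : NN (TR b)) : (x : TR b).a = 0 := (TR.cube _).1 x.2

/-- elements of the maximal ideal -/
def mkN (w : W) (z : Z) : NN (TR b) := ⟨⟨0, w, z⟩, (TR.cube _).2 rfl⟩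

theorem mul_N (x y : NN (TR b)) : (x : TR b) * y = ⟨0, 0, b (x : TR b).w (y : TR b).w⟩ := by
  ext
  · simp [nn_a]
  · simp [nn_a]
  · simp [nn_a]

variable (nd : ∀ x, (∀ y, b x y = 0) → x = 0)

include nd in
theorem cl_zero_TR (x : NN (TR b)) : cl x = 0 ↔ (x : TR b).w = 0 := by
  rw [cl_zero]
  constructor
  · intro h
    refine nd _ fun y => ?_
    have h1 := h (mkN y 0)
    rw [mul_N] at h1
    exact congrArg TR.z h1
  · intro h y
    rw [mul_N, h, map_zero]
    rfl

/-- coordinates -/
noncomputable def thf (b : W →ₗ[ZMod 3] W →ₗ[ZMod 3] Z) [TR.Sym b] (x : Wd (TR b)) : W :=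
  ((cl_surj x).choose : TR b).w

include nd in
theorem thf_cl (x : NN (TR b)) : thf b (cl x) = (x : TR b).w := by
  unfold thf
  have h := (cl_surj (cl x)).choose_spec
  set k := (cl_surj (cl x)).choose
  have h1 : cl (k - x) = 0 := by rw [cl_sub, h, sub_self]
  rw [cl_zero_TR nd] at h1
  have h2 : (k : TR b).w + -(x : TR b).w = 0 := h1
  rwa [← sub_eq_add_neg, sub_eq_zero] at h2

include nd in
theorem exists_coord : ∃ (φ : Wd (TR b) ≃ₗ[ZMod 3] W) (ψ : Zd (TR b) ≃ₗ[ZMod 3] Z),
    (∀ x y, ψ (bb (TR b) x y) = b (φ x) (φ y)) := by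
  have h1 : ∀ x y, thf b (x + y) = thf b x + thf b y := by
    intro x y
    obtain ⟨x, rfl⟩ := cl_surj x
    obtain ⟨y, rfl⟩ := cl_surj y
    rw [← cl_add, thf_cl nd, thf_cl nd, thf_cl nd]
    rfl
  let f : Wd (TR b) →ₗ[ZMod 3] W :=
    { toFun := thf b
      map_add' := h1
      map_smul' := fun c x => map_smul3 h1 c x }
  have hf : ∀ x : NN (TR b), f (cl x) = (x : TR b).w := thf_cl nd
  have hfb : Function.Bijective f := by
    constructor
    · rw [injective_iff_map_eq_zero]
      intro x hx
      obtain ⟨x, rfl⟩ := cl_surj x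
      rw [hf] at hx
      exact (cl_zero_TR nd x).2 hx
    · intro w
      exact ⟨cl (mkN w 0), hf _⟩
  have h2 : ∀ x y : Zd (TR b), ((el (x + y) : NN (TR b)) : TR b).z =
      ((el x : NN (TR b)) : TR b).z + ((el y : NN (TR b)) : TR b).z := fun x y => rfl
  let g : Zd (TR b) →ₗ[ZMod 3] Z :=
    { toFun := fun x => ((el x : NN (TR b)) : TR b).z
      map_add' := h2
      map_smul' := fun c x => map_smul3 (f := fun x : Zd (TR b) => ((el x : NN (TR b)) : TR b).z)
        h2 c x }
  have hg : ∀ x, g x = ((el x : NN (TR b)) : TR b).z := fun _ => rfl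
  have hw : ∀ x : Zd (TR b), ((el x : NN (TR b)) : TR b).w = 0 := by
    intro x
    refine nd _ fun y => ?_
    have h3 := el_mem x (mkN y 0)
    rw [mul_N] at h3
    exact congrArg TR.z h3
  have hgb : Function.Bijective g := by
    constructor
    · rw [injective_iff_map_eq_zero]
      intro x hx
      refine el_inj' ?_
      exact TR.ext (nn_a _) (hw x) hx
    · intro z
      refine ⟨ct (mkN 0 z) fun y => ?_, rfl⟩
      rw [mul_N]
      show (⟨0, 0, b 0 _⟩ : TR b) = 0
      rw [map_zero]
      rfl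
  refine ⟨LinearEquiv.ofBijective f hfb, LinearEquiv.ofBijective g hgb, fun x y => ?_⟩
  obtain ⟨x, rfl⟩ := cl_surj x
  obtain ⟨y, rfl⟩ := cl_surj y
  show g (bb (TR b) (cl x) (cl y)) = b (f (cl x)) (f (cl y))
  rw [hg, el_bb, hf, hf, mul_N]

end

end tr

section ring

variable (R : Type) [CommRing R] [RC R]

instance : TR.Sym (bb R) := ⟨bb_symm⟩

/-- every ring of the class is the ring of its bilinear map -/
theorem iso_TR : Nonempty (TR (bb R) ≃+* R) := by
  obtain ⟨s, hs⟩ := exists_section (R := R)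
  have hel : ∀ (z : Zd R) (c : NN R), (c : R) * (el z : NN R) = 0 := fun z c => by
    rw [mul_comm]
    exact el_mem z c
  let f : TR (bb R) →+* R :=
    { toFun := fun x => ca R x.a + (s x.w : NN R) + (el x.z : NN R)
      map_one' := by
        show ca R 1 + ((s 0 : NN R) : R) + ((el 0 : NN R) : R) = 1
        rw [ca_one, map_zero, el_zero]
        simp
      map_zero' := by
        show ca R 0 + ((s 0 : NN R) : R) + ((el 0 : NN R) : R) = 0
        rw [ca_zero, map_zero, el_zero]
        simp
      map_add' := fun x y => by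
        show ca R (x.a + y.a) + ((s (x.w + y.w) : NN R) : R) + ((el (x.z + y.z) : NN R) : R) = _
        rw [ca_add, map_add, el_add]
        show ca R x.a + ca R y.a + (((s x.w : NN R) : R) + (s y.w : NN R)) +
          (((el x.z : NN R) : R) + (el y.z : NN R)) = _
        ring
      map_mul' := fun x y => by
        show ca R (x.a * y.a) + ((s (x.a • y.w + y.a • x.w) : NN R) : R) +
          ((el (x.a • y.z + y.a • x.z + bb R x.w y.w) : NN R) : R) = _
        have h1 : ((el (bb R x.w y.w) : NN R) : R) = (s x.w : NN R) * (s y.w : NN R) := by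
          rw [← el_bb, hs, hs]
        have h2 : ((el (x.a • y.z + y.a • x.z + bb R x.w y.w) : NN R) : R) =
            ca R x.a * (el y.z : NN R) + ca R y.a * (el x.z : NN R) +
              (s x.w : NN R) * (s y.w : NN R) := by
          rw [← h1, el_add, el_add, el_smul, el_smul, ← coe_smul, ← coe_smul]
          rfl
        have h3 : ((s (x.a • y.w + y.a • x.w) : NN R) : R) =
            ca R x.a * (s y.w : NN R) + ca R y.a * (s x.w : NN R) := by
          rw [map_add, map_smul, map_smul, ← coe_smul, ← coe_smul]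
          rfl
        rw [h2, h3, ca_mul]
        have h4 := hel y.z (s x.w)
        have h5 := hel x.z (s y.w)
        have h6 := hel y.z (el x.z)
        linear_combination -h4 - h5 - h6 }
  refine ⟨RingEquiv.ofBijective f ⟨?_, ?_⟩⟩
  · rw [injective_iff_map_eq_zero]
    intro x hx
    have hx' : ca R x.a + (s x.w : NN R) + (el x.z : NN R) = 0 := hx
    have h1 : ca R x.a ∈ NN R := by
      have e : ca R x.a = -(((s x.w + el x.z : NN R)) : R) := by
        show _ = -(((s x.w : NN R) : R) + (el x.z : NN R))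
        linear_combination hx'
      rw [e]
      exact neg_mem (s x.w + el x.z).2
    have h2 := ca_mem h1
    rw [h2, ca_zero, zero_add] at hx'
    have h3 : cl (s x.w) = 0 := by
      rw [cl_zero]
      intro y
      have h4 := el_mem x.z y
      linear_combination (y : R) * hx' - h4
    rw [hs] at h3
    rw [h3, map_zero] at hx'
    have h4 : ((el x.z : NN R) : R) = 0 := by
      have h5 : (0 : R) + (el x.z : NN R) = 0 := hx'
      rwa [zero_add] at h5
    exact TR.ext h2 h3 (el_inj' h4)
  · intro y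
    obtain ⟨c, hc⟩ := res' y
    let n : NN R := ⟨y - ca R c, hc⟩
    have h1 : cl (n - s (cl n)) = 0 := by rw [cl_sub, hs, sub_self]
    rw [cl_zero] at h1
    refine ⟨⟨c, cl n, ct _ h1⟩, ?_⟩
    show ca R c + (s (cl n) : NN R) + (y - ca R c - (s (cl n) : NN R)) = y
    ring

/-- rings with isomorphic bilinear maps -/
theorem ring_iso {R R' : Type} [CommRing R] [RC R] [CommRing R'] [RC R']
    (φ : Wd R ≃ₗ[ZMod 3] Wd R') (ψ : Zd R ≃ₗ[ZMod 3] Zd R')
    (h : ∀ x y, ψ (bb R x y) = bb R' (φ x) (φ y)) : Nonempty (R ≃+* R') := by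
  obtain ⟨e1⟩ := iso_TR R
  obtain ⟨e2⟩ := iso_TR R'
  obtain ⟨e3⟩ := TR_iso φ ψ h
  exact ⟨(e1.symm.trans e3).trans e2⟩

end ring

end Pool.Agent.H4.VR
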