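import Mathlib

set_option autoImplicit false
set_option linter.unusedSectionVars false
set_option linter.unusedVariables false

/-! Symmetric bilinear maps over the field with three elements: vertices and edges. -/

namespace Pool.Agent.H4.VR

theorem z3 (c : ZMod 3) : c = 0 ∨ c = 1 ∨ c = -1 := by
  revert c
  decide

theorem z3' {c : ZMod 3} (h : c ≠ 0) : c = 1 ∨ c = -1 := (z3 c).resolve_left h

theorem two_two : (2 : ZMod 3) * 2 = 1 := by decide

variable {W Z : Type} [AddCommGroup W] [Module (ZMod 3) W] [AddCommGroup Z] [Module (ZMod 3) Z]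

/-- equality up to sign -/
def PM (x y : W) : Prop := x = y ∨ x = -y

theorem PM.refl (x : W) : PM x x := Or.inl rfl

theorem PM.symm {x y : W} (h : PM x y) : PM y x := by
  rcases h with h | h
  · exact Or.inl h.symm
  · right
    rw [h, neg_neg]

theorem PM.trans {x y z : W} (h : PM x y) (h' : PM y z) : PM x z := by
  rcases h with rfl | rfl <;> rcases h' with rfl | rfl
  · exact Or.inl rfl
  · exact Or.inr rfl
  · exact Or.inr rfl
  · left
    rw [neg_neg]

theorem PM.neg_left {x y : W} (h : PM x y) : PM (-x) y := by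
  rcases h with rfl | rfl
  · exact Or.inr rfl
  · left
    rw [neg_neg]

theorem pm_neg {x y : W} : PM (-x) y ↔ PM x y := by
  constructor
  · intro h
    have := h.neg_left
    rwa [neg_neg] at this
  · exact PM.neg_left

theorem pm_neg' {x y : W} : PM x (-y) ↔ PM x y :=
  ⟨fun h => (pm_neg.1 h.symm).symm, fun h => (pm_neg.2 h.symm).symm⟩

theorem PM.smul {x y : W} (h : PM x y) : ∃ c : ZMod 3, c ≠ 0 ∧ x = c • y := by
  rcases h with rfl | rfl
  · exact ⟨1, one_ne_zero, (one_smul _ _).symm⟩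
  · exact ⟨-1, by decide, by rw [neg_smul, one_smul]⟩

section defs

variable (b : W →ₗ[ZMod 3] W →ₗ[ZMod 3] Z)

/-- vertices -/
def VV (x : W) : Prop := x ≠ 0 ∧ b x x = 0

/-- edges -/
def IsE (v w e : W) : Prop := VV b v ∧ VV b w ∧ ¬ PM v w ∧ b e e = b v w ∧ ¬ PM e (v - w)

/-- vertices and edges -/
def BB : Set W := {x | VV b x ∨ ∃ v w, IsE b v w x}

/-- adjacency -/
def Adj (v w : W) : Prop := ∃ e, IsE b v w e

/-- the span of the vertices and edges -/
def SP : Submodule (ZMod 3) W := Submodule.span (ZMod 3) (BB b)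

/-- the span of the products -/
def SQ : Submodule (ZMod 3) Z := Submodule.span (ZMod 3) {z | ∃ x y : W, z = b x y}

/-- the class -/
structure Nice : Prop where
  symm : ∀ x y, b x y = b y x
  indB : ∀ (n : ℕ) (w : Fin n → W), (∀ i, w i ∈ BB b) → (∀ i j, i ≠ j → ¬ PM (w i) (w j)) →
    LinearIndependent (ZMod 3) w
  uniq : ∀ v w e e', IsE b v w e → IsE b v w e' → PM e e'
  sgn : ∀ v w, Adj b v w → Adj b v (-w)
  prod : ∀ (n : ℕ) (Bs : Set (Fin n)) (l : Fin n → Fin n → ZMod 3), (∀ i j, l i j = l j i) →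
    (∀ i ∈ Bs, l i i = 0) → l ≠ 0 → ∀ w : Fin n → W, (∀ i ∈ Bs, w i ∈ BB b) →
    (∀ i ∈ Bs, ∀ j ∈ Bs, i ≠ j → ¬ PM (w i) (w j)) → ∑ i, ∑ j, l i j • b (w i) (w j) = 0 →
      ∃ γ : Fin n → ZMod 3, (∃ i, i ∉ Bs ∧ γ i ≠ 0) ∧ ∑ i, γ i • w i ∈ SP b

/-- systems of representatives of the vertices up to sign -/
structure Rep {X : Type} (r : X → W) : Prop where
  vv : ∀ x, VV b (r x)
  inj : ∀ x y, x ≠ y → ¬ PM (r x) (r y)
  surj : ∀ v, VV b v → ∃ x, PM v (r x)

end defs

variable {b : W →ₗ[ZMod 3] W →ₗ[ZMod 3] Z}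

theorem neg_neg_b (x y : W) : b (-x) (-y) = b x y := by
  simp

theorem VV.neg {x : W} (h : VV b x) : VV b (-x) :=
  ⟨neg_ne_zero.2 h.1, by rw [neg_neg_b]; exact h.2⟩

theorem PM.bb {x y : W} (h : PM x y) : b x x = b y y := by
  rcases h with rfl | rfl
  · rfl
  · rw [neg_neg_b]

theorem IsE.neg {v w e : W} (h : IsE b v w e) : IsE b v w (-e) :=
  ⟨h.1, h.2.1, h.2.2.1, by rw [neg_neg_b]; exact h.2.2.2.1, fun h' => h.2.2.2.2 (pm_neg.1 h')⟩

theorem IsE.flip {v w e : W} (h : IsE b v w e) : IsE b (-v) (-w) e :=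
  ⟨h.1.neg, h.2.1.neg, fun h' => h.2.2.1 (pm_neg.1 (pm_neg'.1 h')), by
    rw [neg_neg_b]; exact h.2.2.2.1, fun h' => h.2.2.2.2 (by
      have e1 : -v - -w = -(v - w) := by abel
      rw [e1] at h'
      exact pm_neg'.1 h')⟩

theorem IsE.swap (hs : ∀ x y, b x y = b y x) {v w e : W} (h : IsE b v w e) : IsE b w v e :=
  ⟨h.2.1, h.1, fun h' => h.2.2.1 h'.symm, by rw [hs w v]; exact h.2.2.2.1, fun h' => h.2.2.2.2 (by
      have e1 : w - v = -(v - w) := by abel
      rw [e1] at h'
      exact pm_neg'.1 h')⟩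

theorem BB_neg {x : W} (h : x ∈ BB b) : -x ∈ BB b := by
  rcases h with h | ⟨v, w, h⟩
  · exact Or.inl h.neg
  · exact Or.inr ⟨v, w, h.neg⟩

/-- finite families to arbitrary families -/
theorem Nice.indB' (h : Nice b) {κ : Type} {w : κ → W} (hB : ∀ i, w i ∈ BB b)
    (hne : ∀ i j, i ≠ j → ¬ PM (w i) (w j)) : LinearIndependent (ZMod 3) w := by
  classical
  rw [linearIndependent_iff_finset_linearIndependent]
  intro s
  let e : Fin s.card ≃ s := s.equivFin.symm
  have h1 := h.indB s.card (fun i => w (e i)) (fun i => hB _) (fun i j hij => hne _ _ (fun h' =>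
    hij (e.injective (Subtype.ext h'))))
  have h2 := h1.comp e.symm e.symm.injective
  have e1 : (fun i => w (e i)) ∘ e.symm = w ∘ Subtype.val := by
    funext x
    show w (e (e.symm x)) = w x
    rw [Equiv.apply_symm_apply]
  rw [e1] at h2
  exact h2

/-- products, for finitely supported symmetric coefficients -/
theorem Nice.prod' (h : Nice b) {κ : Type} {w : κ → W} (Bs : Set κ) (hB : ∀ i ∈ Bs, w i ∈ BB b)
    (hne : ∀ i ∈ Bs, ∀ j ∈ Bs, i ≠ j → ¬ PM (w i) (w j))
    (hc : LinearIndependent (ZMod 3)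
      (fun i : {i : κ // i ∉ Bs} => (Submodule.Quotient.mk (w i) : W ⧸ SP b)))
    (T : κ × κ →₀ ZMod 3) (hT : ∀ s t, T (s, t) = T (t, s)) (hd : ∀ s ∈ Bs, T (s, s) = 0)
    (h0 : T.sum (fun p c => c • b (w p.1) (w p.2)) = 0) : T = 0 := by
  classical
  by_contra hT0
  let F : Finset κ := T.support.image Prod.fst ∪ T.support.image Prod.snd
  have hF : T.support ⊆ F ×ˢ F := by
    intro p hp
    rw [Finset.mem_product]
    exact ⟨Finset.mem_union_left _ (Finset.mem_image_of_mem _ hp),
      Finset.mem_union_right _ (Finset.mem_image_of_mem _ hp)⟩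
  let e : Fin F.card ≃ F := F.equivFin.symm
  have hsum : ∀ g : κ → κ → Z, ∑ i : Fin F.card, ∑ j : Fin F.card, g (e i) (e j) =
      ∑ p ∈ F ×ˢ F, g p.1 p.2 := by
    intro g
    rw [Finset.sum_product, ← Finset.sum_coe_sort F, ← Equiv.sum_comp e]
    refine Finset.sum_congr rfl fun i _ => ?_
    rw [← Finset.sum_coe_sort F, ← Equiv.sum_comp e]
  have h1 : T.sum (fun p c => c • b (w p.1) (w p.2)) =
      ∑ i : Fin F.card, ∑ j : Fin F.card, T ((e i : κ), (e j : κ)) • b (w (e i)) (w (e j)) := by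
    rw [hsum (fun s t => T (s, t) • b (w s) (w t))]
    exact Finsupp.sum_of_support_subset T hF _ (fun p _ => zero_smul _ _)
  rw [h1] at h0
  have hl : (fun i j : Fin F.card => T ((e i : κ), (e j : κ))) ≠ 0 := by
    intro hl
    obtain ⟨p, hp⟩ := Finsupp.support_nonempty_iff.2 hT0
    have h2 := hF hp
    rw [Finset.mem_product] at h2
    have h3 := congrFun (congrFun hl (e.symm ⟨p.1, h2.1⟩)) (e.symm ⟨p.2, h2.2⟩)
    simp only [Equiv.apply_symm_apply, Pi.zero_apply] at h3
    exact Finsupp.mem_support_iff.1 hp h3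
  obtain ⟨γ, ⟨i, hi1, hi2⟩, h3⟩ := h.prod F.card {i | (e i : κ) ∈ Bs}
    (fun i j => T ((e i : κ), (e j : κ))) (fun i j => hT _ _) (fun i hi => hd _ hi) hl
    (fun i => w (e i)) (fun i hi => hB _ hi) (fun i hi j hj hij => hne _ hi _ hj (fun h' =>
      hij (e.injective (Subtype.ext h')))) h0
  -- pass to the quotient
  have h4 : ∑ i : Fin F.card, γ i • (Submodule.Quotient.mk (w (e i)) : W ⧸ SP b) = 0 := by
    have h5 := (Submodule.Quotient.mk_eq_zero (SP b)).2 h3
    have h6 : (SP b).mkQ (∑ i, γ i • w (e i)) = 0 := h5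
    rw [map_sum] at h6
    simpa using h6
  have h5 : ∑ i ∈ Finset.univ.filter (fun i : Fin F.card => (e i : κ) ∉ Bs),
      γ i • (Submodule.Quotient.mk (w (e i)) : W ⧸ SP b) = 0 := by
    rw [Finset.sum_filter]
    refine Eq.trans (Finset.sum_congr rfl fun i _ => ?_) h4
    by_cases hi : (e i : κ) ∈ Bs
    · rw [if_neg (not_not.2 hi)]
      have : (Submodule.Quotient.mk (w (e i)) : W ⧸ SP b) = 0 :=
        (Submodule.Quotient.mk_eq_zero _).2 (Submodule.subset_span (hB _ hi))
      rw [this, smul_zero]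
    · rw [if_pos hi]
  have h6 : LinearIndependent (ZMod 3) (fun i : {i : Fin F.card // (e i : κ) ∉ Bs} =>
      (Submodule.Quotient.mk (w (e i)) : W ⧸ SP b)) := by
    refine hc.comp (fun i : {i : Fin F.card // (e i : κ) ∉ Bs} =>
      (⟨(e i : κ), i.2⟩ : {i : κ // i ∉ Bs})) fun i j hij => ?_
    have := congrArg Subtype.val hij
    exact Subtype.ext (e.injective (Subtype.ext this))
  rw [Fintype.linearIndependent_iff] at h6
  refine hi2 (h6 (fun i => γ i) ?_ ⟨i, hi1⟩)
  rw [← h5]
  exact (Finset.sum_subtype _ (fun x => by simp)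
    (fun i => γ i • (Submodule.Quotient.mk (w (e i)) : W ⧸ SP b))).symm

/-- the generators of the span of the products -/
def gen (b : W →ₗ[ZMod 3] W →ₗ[ZMod 3] Z) {κ : Type} [LinearOrder κ] (w : κ → W) (Bs : Set κ) :
    {p : κ × κ // p.1 < p.2} ⊕ {i : κ // i ∉ Bs} → Z :=
  Sum.elim (fun p => b (w p.1.1) (w p.1.2)) (fun i => b (w i) (w i))

theorem Nice.gen_li (h : Nice b) {κ : Type} [LinearOrder κ] {w : κ → W} (Bs : Set κ)
    (hB : ∀ i ∈ Bs, w i ∈ BB b) (hne : ∀ i ∈ Bs, ∀ j ∈ Bs, i ≠ j → ¬ PM (w i) (w j))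
    (hc : LinearIndependent (ZMod 3)
      (fun i : {i : κ // i ∉ Bs} => (Submodule.Quotient.mk (w i) : W ⧸ SP b))) :
    LinearIndependent (ZMod 3) (gen b w Bs) := by
  classical
  let Ψ : ({p : κ × κ // p.1 < p.2} ⊕ {i : κ // i ∉ Bs} →₀ ZMod 3) →ₗ[ZMod 3]
      (κ × κ →₀ ZMod 3) := Finsupp.linearCombination (ZMod 3) (Sum.elim
        (fun p => Finsupp.single (p.1.1, p.1.2) 2 + Finsupp.single (p.1.2, p.1.1) 2)
        (fun i => Finsupp.single ((i : κ), (i : κ)) 1))
  let β : (κ × κ →₀ ZMod 3) →ₗ[ZMod 3] Z :=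
    Finsupp.linearCombination (ZMod 3) (fun p => b (w p.1) (w p.2))
  have hβΨ : β.comp Ψ = Finsupp.linearCombination (ZMod 3) (gen b w Bs) := by
    refine Finsupp.lhom_ext' fun x => LinearMap.ext_ring ?_
    rcases x with p | i
    · simp only [LinearMap.comp_apply, Finsupp.lsingle_apply, Finsupp.linearCombination_single,
        one_smul, Sum.elim_inl, map_add, Ψ, β, gen]
      rw [h.symm (w p.1.2), ← add_smul]
      have : (2 : ZMod 3) + 2 = 1 := by decide
      rw [this, one_smul]
    · simp only [LinearMap.comp_apply, Finsupp.lsingle_apply, Finsupp.linearCombination_single,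
        one_smul, Sum.elim_inr, Ψ, β, gen]
  have hsy : ∀ g s t, Ψ g (s, t) = Ψ g (t, s) := by
    intro g s t
    have h1 : (Finsupp.lapply (s, t)).comp Ψ = (Finsupp.lapply (t, s)).comp Ψ := by
      refine Finsupp.lhom_ext' fun x => LinearMap.ext_ring ?_
      rcases x with p | i
      · simp only [LinearMap.comp_apply, Finsupp.lsingle_apply,
          Finsupp.linearCombination_single, one_smul, Sum.elim_inl, Finsupp.lapply_apply, Ψ,
          Finsupp.add_apply, Finsupp.single_apply, Prod.mk.injEq]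
        rw [add_comm]
        congr 1
        · congr 1
          exact propext ⟨fun h => ⟨h.2, h.1⟩, fun h => ⟨h.2, h.1⟩⟩
        · congr 1
          exact propext ⟨fun h => ⟨h.2, h.1⟩, fun h => ⟨h.2, h.1⟩⟩
      · simp only [LinearMap.comp_apply, Finsupp.lsingle_apply,
          Finsupp.linearCombination_single, one_smul, Sum.elim_inr, Finsupp.lapply_apply, Ψ,
          Finsupp.single_apply, Prod.mk.injEq]
        congr 1
        exact propext ⟨fun h => ⟨h.2, h.1⟩, fun h => ⟨h.2, h.1⟩⟩
    exact LinearMap.congr_fun h1 g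
  have hlt : ∀ g (p : {p : κ × κ // p.1 < p.2}), Ψ g p.1 = 2 * g (Sum.inl p) := by
    intro g p
    have h1 : (Finsupp.lapply p.1).comp Ψ = (2 : ZMod 3) • Finsupp.lapply (Sum.inl p) := by
      refine Finsupp.lhom_ext' fun x => LinearMap.ext_ring ?_
      rcases x with q | i
      · simp only [LinearMap.comp_apply, Finsupp.lsingle_apply,
          Finsupp.linearCombination_single, one_smul, Sum.elim_inl, Finsupp.lapply_apply, Ψ,
          Finsupp.add_apply, Finsupp.single_apply, LinearMap.smul_apply, Sum.inl.injEq]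
        have h2 : ¬ (q.1.2, q.1.1) = p.1 := by
          intro h2
          have h3 := p.2
          rw [← h2] at h3
          exact lt_asymm h3 q.2
        rw [if_neg h2, add_zero]
        by_cases h3 : q = p
        · rw [if_pos h3, if_pos (by rw [h3])]
          rw [smul_eq_mul, mul_one]
        · rw [if_neg h3, if_neg (fun h4 => h3 (Subtype.ext h4)), smul_zero]
      · simp only [LinearMap.comp_apply, Finsupp.lsingle_apply,
          Finsupp.linearCombination_single, one_smul, Sum.elim_inr, Finsupp.lapply_apply, Ψ,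
          Finsupp.single_apply, LinearMap.smul_apply, reduceCtorEq, if_false, smul_zero]
        rw [if_neg]
        intro h2
        have h3 := p.2
        rw [← h2] at h3
        exact lt_irrefl _ h3
    exact LinearMap.congr_fun h1 g
  have hdi : ∀ g (i : {i : κ // i ∉ Bs}), Ψ g ((i : κ), (i : κ)) = g (Sum.inr i) := by
    intro g i
    have h1 : (Finsupp.lapply ((i : κ), (i : κ))).comp Ψ = Finsupp.lapply (Sum.inr i) := by
      refine Finsupp.lhom_ext' fun x => LinearMap.ext_ring ?_
      rcases x with q | j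
      · simp only [LinearMap.comp_apply, Finsupp.lsingle_apply,
          Finsupp.linearCombination_single, one_smul, Sum.elim_inl, Finsupp.lapply_apply, Ψ,
          Finsupp.add_apply, Finsupp.single_apply, reduceCtorEq, if_false, Prod.mk.injEq]
        have h2 : ¬ (q.1.1 = (i : κ) ∧ q.1.2 = (i : κ)) := by
          rintro ⟨h2, h3⟩
          have h4 := q.2
          rw [h2, h3] at h4
          exact lt_irrefl _ h4
        have h3 : ¬ (q.1.2 = (i : κ) ∧ q.1.1 = (i : κ)) := fun h3 => h2 ⟨h3.2, h3.1⟩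
        rw [if_neg h2, if_neg h3, add_zero]
      · simp only [LinearMap.comp_apply, Finsupp.lsingle_apply,
          Finsupp.linearCombination_single, one_smul, Sum.elim_inr, Finsupp.lapply_apply, Ψ,
          Finsupp.single_apply, Sum.inr.injEq, Prod.mk.injEq, and_self]
        congr 1
        exact propext ⟨fun h => Subtype.ext h, fun h => congrArg _ h⟩
    exact LinearMap.congr_fun h1 g
  have hdz : ∀ g, ∀ s ∈ Bs, Ψ g (s, s) = 0 := by
    intro g s hs
    have h1 : (Finsupp.lapply (s, s)).comp Ψ = 0 := by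
      refine Finsupp.lhom_ext' fun x => LinearMap.ext_ring ?_
      rcases x with q | j
      · simp only [LinearMap.comp_apply, Finsupp.lsingle_apply,
          Finsupp.linearCombination_single, one_smul, Sum.elim_inl, Finsupp.lapply_apply, Ψ,
          Finsupp.add_apply, Finsupp.single_apply, Prod.mk.injEq, LinearMap.zero_apply]
        have h2 : ¬ (q.1.1 = s ∧ q.1.2 = s) := by
          rintro ⟨h2, h3⟩
          have h4 := q.2
          rw [h2, h3] at h4
          exact lt_irrefl _ h4
        have h3 : ¬ (q.1.2 = s ∧ q.1.1 = s) := fun h3 => h2 ⟨h3.2, h3.1⟩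
        rw [if_neg h2, if_neg h3, add_zero]
      · simp only [LinearMap.comp_apply, Finsupp.lsingle_apply,
          Finsupp.linearCombination_single, one_smul, Sum.elim_inr, Finsupp.lapply_apply, Ψ,
          Finsupp.single_apply, Prod.mk.injEq, and_self, LinearMap.zero_apply]
        rw [if_neg]
        intro h2
        exact j.2 (h2 ▸ hs)
    exact LinearMap.congr_fun h1 g
  rw [linearIndependent_iff]
  intro g hg
  rw [← hβΨ] at hg
  have h1 : Ψ g = 0 := h.prod' Bs hB hne hc (Ψ g) (hsy g) (hdz g) hg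
  ext x
  rcases x with p | i
  · have h2 := hlt g p
    rw [h1, Finsupp.zero_apply] at h2
    have h3 : (2 : ZMod 3) ≠ 0 := by decide
    exact (mul_eq_zero.1 h2.symm).resolve_left h3
  · have h2 := hdi g i
    rw [h1, Finsupp.zero_apply] at h2
    exact h2.symm

end Pool.Agent.H4.VR
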