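import Pool.Agent.H4.VR.Tri

set_option autoImplicit false
set_option linter.unusedSectionVars false
set_option linter.unusedVariables false

/-! Classification of symmetric bilinear maps of the class. -/

namespace Pool.Agent.H4.VR

section basis

variable {M : Type} [AddCommGroup M] [Module (ZMod 3) M]

theorem basisQ {S : Submodule (ZMod 3) M} {κ ι : Type} {g : κ → M}
    (hg : LinearIndependent (ZMod 3) g) (hs : Submodule.span (ZMod 3) (Set.range g) = S)
    (bJ : Module.Basis ι (ZMod 3) (M ⧸ S)) :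
    ∃ z : Module.Basis (κ ⊕ ι) (ZMod 3) M, (∀ s, z (Sum.inl s) = g s) ∧
      ∀ i, Submodule.Quotient.mk (p := S) (z (Sum.inr i)) = bJ i := by
  let bS : Module.Basis κ (ZMod 3) S :=
    (Module.Basis.span hg).map (LinearEquiv.ofEq _ _ hs)
  have hbS : ∀ x, (bS x : M) = g x := fun x => by
    simp [bS]
  refine ⟨Module.Basis.sumQuot bS bJ, fun x => ?_, fun i => ?_⟩
  · rw [Module.Basis.sumQuot_inl, hbS]
  · rw [Module.Basis.sumQuot_inr]

end basis

variable {W Z : Type} [AddCommGroup W] [Module (ZMod 3) W] [AddCommGroup Z] [Module (ZMod 3) Z]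
variable {b : W →ₗ[ZMod 3] W →ₗ[ZMod 3] Z}

/-- the sign -/
def sg (s : Bool) (y : W) : W := if s then y else -y

/-- the sign as a scalar -/
def sc (s : Bool) : ZMod 3 := if s then 1 else -1

theorem sg_smul (s : Bool) (y : W) : sg s y = sc s • y := by
  cases s <;> simp [sg, sc]

theorem sc_ne (s : Bool) : sc s ≠ 0 := by
  cases s <;> decide

theorem sc_inj {s t : Bool} (h : sc s = sc t) : s = t := by
  revert s t
  decide

/-- indices of the edges -/
def EI {X : Type} [LT X] (A : X → X → Prop) : Type :=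
  {p : (X × X) × Bool // p.1.1 < p.1.2 ∧ A p.1.1 p.1.2}

section fam

variable {X : Type} [LinearOrder X] {r : X → W} {A : X → X → Prop}

theorem exists_ed (h : Nice b) (hA : ∀ x y, A x y ↔ Adj b (r x) (r y)) (p : EI A) :
    ∃ e, IsE b (r p.1.1.1) (sg p.1.2 (r p.1.1.2)) e := by
  have h1 := (hA _ _).1 p.2.2
  cases hs : p.1.2
  · exact h.sgn _ _ h1
  · exact h1

/-- the edges -/
noncomputable def ed (h : Nice b) (hA : ∀ x y, A x y ↔ Adj b (r x) (r y)) (p : EI A) : W :=
  (exists_ed h hA p).choose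

theorem ed_spec (h : Nice b) (hA : ∀ x y, A x y ↔ Adj b (r x) (r y)) (p : EI A) :
    IsE b (r p.1.1.1) (sg p.1.2 (r p.1.1.2)) (ed h hA p) := (exists_ed h hA p).choose_spec

theorem vert_li (h : Nice b) (hr : Rep b r) : LinearIndependent (ZMod 3)
    (fun p : {p : X × X // p.1 < p.2} => b (r p.1.1) (r p.1.2)) := by
  have hc : LinearIndependent (ZMod 3) (fun i : {i : X // i ∉ (Set.univ : Set X)} =>
      (Submodule.Quotient.mk (r i) : W ⧸ SP b)) := by
    have : IsEmpty {i : X // i ∉ (Set.univ : Set X)} := ⟨fun i => i.2 trivial⟩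
    exact linearIndependent_empty_type
  have h1 := h.gen_li (w := r) Set.univ (fun i _ => Or.inl (hr.vv i))
    (fun i _ j _ hij => hr.inj i j hij) hc
  exact h1.comp Sum.inl Sum.inl_injective

theorem b_ne (h : Nice b) {v w : W} (hv : VV b v) (hw : VV b w) (hvw : ¬ PM v w) :
    b v w ≠ 0 := by
  intro h0
  have hne : v ≠ w := fun e => hvw (Or.inl e)
  obtain ⟨γ, ⟨i, hi, -⟩, -⟩ := h.prod 2 Set.univ (fun i j => if i = j then 0 else 1)
    (fun i j => by
      by_cases hij : i = j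
      · rw [if_pos hij, if_pos hij.symm]
      · rw [if_neg hij, if_neg (Ne.symm hij)])
    (fun i _ => if_pos rfl)
    (fun h1 => by
      have h2 := congrFun (congrFun h1 0) 1
      simp at h2) ![v, w]
    (fun i _ => by
      refine Fin.cases ?_ (fun j => ?_) i
      · exact Or.inl hv
      · refine Fin.cases ?_ (fun k => k.elim0) j
        exact Or.inl hw)
    (fun i _ j _ => by
      refine Fin.cases (fun h => ?_) (fun i' => ?_) i
      · revert h
        refine Fin.cases (fun h => absurd rfl h) (fun j' => ?_) j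
        refine Fin.cases (fun _ => ?_) (fun k => k.elim0) j'
        exact hvw
      · refine Fin.cases (fun h => ?_) (fun k => k.elim0) i'
        revert h
        refine Fin.cases (fun _ h => hvw h.symm) (fun j' => ?_) j
        refine Fin.cases (fun h => absurd rfl h) (fun k => k.elim0) j')
    (by
      simp [Fin.sum_univ_two, h.symm w v, h0])
  exact hi trivial

/-- vertices and edges -/
noncomputable def w0 (h : Nice b) (hA : ∀ x y, A x y ↔ Adj b (r x) (r y)) : X ⊕ EI A → W :=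
  Sum.elim r (ed h hA)

theorem w0_mem (h : Nice b) (hr : Rep b r) (hA : ∀ x y, A x y ↔ Adj b (r x) (r y))
    (k : X ⊕ EI A) : w0 h hA k ∈ BB b := by
  rcases k with x | p
  · exact Or.inl (hr.vv x)
  · exact Or.inr ⟨_, _, ed_spec h hA p⟩

theorem ed_bb (h : Nice b) (hA : ∀ x y, A x y ↔ Adj b (r x) (r y)) (p : EI A) :
    b (ed h hA p) (ed h hA p) = sc p.1.2 • b (r p.1.1.1) (r p.1.1.2) := by
  rw [(ed_spec h hA p).2.2.2.1, sg_smul, map_smul]

theorem not_pm (h : Nice b) (hr : Rep b r) (hA : ∀ x y, A x y ↔ Adj b (r x) (r y)) (x : X)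
    (p : EI A) : ¬ PM (r x) (ed h hA p) := by
  intro h1
  have h2 := h1.bb (b := b)
  rw [(hr.vv x).2, ed_bb] at h2
  have h3 : b (r p.1.1.1) (r p.1.1.2) ≠ 0 :=
    b_ne h (hr.vv _) (hr.vv _) (hr.inj _ _ p.2.1.ne)
  rcases smul_eq_zero.1 h2.symm with h4 | h4
  · exact sc_ne _ h4
  · exact h3 h4

theorem w0_ne (h : Nice b) (hr : Rep b r) (hA : ∀ x y, A x y ↔ Adj b (r x) (r y))
    (k l : X ⊕ EI A) (hkl : k ≠ l) : ¬ PM (w0 h hA k) (w0 h hA l) := by
  rcases k with x | p <;> rcases l with y | q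
  · exact hr.inj x y (fun e => hkl (by rw [e]))
  · exact not_pm h hr hA x q
  · exact fun h1 => not_pm h hr hA y p h1.symm
  · intro h1
    have h2 := h1.bb (b := b)
    change b (ed h hA p) (ed h hA p) = b (ed h hA q) (ed h hA q) at h2
    rw [ed_bb, ed_bb] at h2
    have hli := vert_li h hr
    have h3 : (⟨p.1.1, p.2.1⟩ : {p : X × X // p.1 < p.2}) = ⟨q.1.1, q.2.1⟩ :=
      hli.eq_of_smul_apply_eq_smul_apply (sc p.1.2) (sc q.1.2) ⟨p.1.1, p.2.1⟩ ⟨q.1.1, q.2.1⟩
        (sc_ne _) h2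
    have h4 : p.1.1 = q.1.1 := congrArg Subtype.val h3
    have h5 : sc p.1.2 = sc q.1.2 := by
      rw [h4] at h2
      have h6 : b (r q.1.1.1) (r q.1.1.2) ≠ 0 :=
        b_ne h (hr.vv _) (hr.vv _) (hr.inj _ _ q.2.1.ne)
      exact smul_left_injective (ZMod 3) h6 h2
    exact hkl (congrArg Sum.inr (Subtype.ext (Prod.ext h4 (sc_inj h5))))

theorem w0_surj (h : Nice b) (hr : Rep b r) (hA : ∀ x y, A x y ↔ Adj b (r x) (r y)) {e : W}
    (he : e ∈ BB b) : ∃ k, PM e (w0 h hA k) := by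
  rcases he with he | ⟨v, w, he⟩
  · obtain ⟨x, hx⟩ := hr.surj e he
    exact ⟨Sum.inl x, hx⟩
  · -- reduce to `v = r x`, `w = ± r y`, `x < y`
    have key : ∀ x y, x < y → ∀ s, IsE b (r x) (sg s (r y)) e → ∃ k, PM e (w0 h hA k) := by
      intro x y hxy s h1
      have h2 : A x y := by
        rw [hA]
        cases s
        · have h3 := h.sgn _ _ ⟨e, h1⟩
          have e1 : -(sg false (r y)) = r y := by simp [sg]
          rw [e1] at h3
          exact h3
        · exact ⟨e, h1⟩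
      exact ⟨Sum.inr ⟨((x, y), s), hxy, h2⟩, h.uniq _ _ _ _ h1
        (ed_spec h hA ⟨((x, y), s), hxy, h2⟩)⟩
    obtain ⟨x, hx⟩ := hr.surj v he.1
    obtain ⟨y, hy⟩ := hr.surj w he.2.1
    have hxy : x ≠ y := by
      rintro rfl
      exact he.2.2.1 (hx.trans hy.symm)
    have key2 : ∃ s, IsE b (r x) (sg s (r y)) e := by
      rcases hx with rfl | rfl
      · rcases hy with rfl | rfl
        · exact ⟨true, he⟩
        · exact ⟨false, he⟩
      · have h1 := he.flip
        rw [neg_neg] at h1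
        rcases hy with rfl | rfl
        · exact ⟨false, h1⟩
        · rw [neg_neg] at h1
          exact ⟨true, h1⟩
    obtain ⟨s, hs⟩ := key2
    rcases lt_or_gt_of_ne hxy with h1 | h1
    · exact key x y h1 s hs
    · refine key y x h1 s ?_
      have h2 := hs.swap h.symm
      cases s
      · have h3 := h2.flip
        have e1 : -(sg false (r y)) = r y := by simp [sg]
        rw [e1] at h3
        exact h3
      · exact h2

theorem w0_span (h : Nice b) (hr : Rep b r) (hA : ∀ x y, A x y ↔ Adj b (r x) (r y)) :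
    Submodule.span (ZMod 3) (Set.range (w0 h hA)) = SP b := by
  refine le_antisymm (Submodule.span_le.2 ?_) (Submodule.span_le.2 ?_)
  · rintro _ ⟨k, rfl⟩
    exact Submodule.subset_span (w0_mem h hr hA k)
  · intro x hx
    obtain ⟨k, hk⟩ := w0_surj h hr hA hx
    obtain ⟨c, -, rfl⟩ := hk.smul
    exact Submodule.smul_mem _ _ (Submodule.subset_span ⟨k, rfl⟩)

theorem w0_li (h : Nice b) (hr : Rep b r) (hA : ∀ x y, A x y ↔ Adj b (r x) (r y)) :
    LinearIndependent (ZMod 3) (w0 h hA) := h.indB' (w0_mem h hr hA) (w0_ne h hr hA)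

end fam

/-- the data of a basis of the first space -/
theorem gen_span {κ : Type} [LinearOrder κ] (h : Nice b) (w : Module.Basis κ (ZMod 3) W)
    (Bs : Set κ) (hBs : ∀ k ∈ Bs, b (w k) (w k) = 0 ∨
      ∃ i j, i ≠ j ∧ ∃ c : ZMod 3, b (w k) (w k) = c • b (w i) (w j)) :
    Submodule.span (ZMod 3) (Set.range (gen b w Bs)) = SQ b := by
  refine le_antisymm (Submodule.span_le.2 ?_) (Submodule.span_le.2 ?_)
  · rintro _ ⟨s | i, rfl⟩
    · exact Submodule.subset_span ⟨_, _, rfl⟩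
    · exact Submodule.subset_span ⟨_, _, rfl⟩
  · set U := Submodule.span (ZMod 3) (Set.range (gen b w Bs))
    have h1 : ∀ i j, i ≠ j → b (w i) (w j) ∈ U := by
      intro i j hij
      rcases lt_or_gt_of_ne hij with h1 | h1
      · exact Submodule.subset_span ⟨Sum.inl ⟨(i, j), h1⟩, rfl⟩
      · rw [h.symm]
        exact Submodule.subset_span ⟨Sum.inl ⟨(j, i), h1⟩, rfl⟩
    have h2 : ∀ i j, b (w i) (w j) ∈ U := by
      intro i j
      by_cases hij : i = j
      · subst hij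
        by_cases hi : i ∈ Bs
        · rcases hBs i hi with h3 | ⟨k, l, hkl, c, h3⟩
          · rw [h3]
            exact zero_mem _
          · rw [h3]
            exact U.smul_mem _ (h1 k l hkl)
        · exact Submodule.subset_span ⟨Sum.inr ⟨i, hi⟩, rfl⟩
      · exact h1 i j hij
    have h3 : b.compr₂ U.mkQ = 0 := by
      refine LinearMap.ext_basis w w fun i j => ?_
      simp only [LinearMap.compr₂_apply, LinearMap.zero_apply, Submodule.mkQ_apply]
      exact (Submodule.Quotient.mk_eq_zero U).2 (h2 i j)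
    rintro _ ⟨x, y, rfl⟩
    have h4 := LinearMap.congr_fun (LinearMap.congr_fun h3 x) y
    exact (Submodule.Quotient.mk_eq_zero U).1 h4

variable {W' Z' : Type} [AddCommGroup W'] [Module (ZMod 3) W'] [AddCommGroup Z']
  [Module (ZMod 3) Z'] {b' : W' →ₗ[ZMod 3] W' →ₗ[ZMod 3] Z'}

/-- the basis of the first space -/
theorem exists_basis (h : Nice b) {X : Type} [LinearOrder X] {r : X → W} (hr : Rep b r)
    {A : X → X → Prop} (hA : ∀ x y, A x y ↔ Adj b (r x) (r y)) {ι : Type}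
    (bI : Module.Basis ι (ZMod 3) (W ⧸ SP b)) [LinearOrder ((X ⊕ EI A) ⊕ ι)] :
    ∃ w : Module.Basis ((X ⊕ EI A) ⊕ ι) (ZMod 3) W,
      (∀ k, w (Sum.inl k) = w0 h hA k) ∧
      LinearIndependent (ZMod 3) (gen b w (Set.range Sum.inl)) ∧
      Submodule.span (ZMod 3) (Set.range (gen b w (Set.range Sum.inl))) = SQ b := by
  obtain ⟨w, hw1, hw2⟩ := basisQ (w0_li h hr hA) (w0_span h hr hA) bI
  refine ⟨w, hw1, h.gen_li _ ?_ ?_ ?_, gen_span h w _ ?_⟩
  · rintro _ ⟨k, rfl⟩
    rw [hw1]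
    exact w0_mem h hr hA k
  · rintro _ ⟨k, rfl⟩ _ ⟨l, rfl⟩ hkl
    rw [hw1, hw1]
    exact w0_ne h hr hA k l (fun e => hkl (by rw [e]))
  · have hi : ∀ i : {i : (X ⊕ EI A) ⊕ ι // i ∉ Set.range Sum.inl}, ∃ j, i.1 = Sum.inr j := by
      rintro ⟨k | j, hk⟩
      · exact absurd ⟨k, rfl⟩ hk
      · exact ⟨j, rfl⟩
    choose f hf using hi
    have e1 : (fun i : {i : (X ⊕ EI A) ⊕ ι // i ∉ Set.range Sum.inl} =>
        (Submodule.Quotient.mk (w i) : W ⧸ SP b)) = bI ∘ f := by
      funext i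
      rw [hf i, hw2]
      rfl
    rw [e1]
    refine bI.linearIndependent.comp f fun i j hij => Subtype.ext ?_
    rw [hf i, hf j, hij]
  · rintro _ ⟨x | p, rfl⟩
    · left
      rw [hw1]
      exact (hr.vv x).2
    · right
      refine ⟨Sum.inl (Sum.inl p.1.1.1), Sum.inl (Sum.inl p.1.1.2), ?_, sc p.1.2, ?_⟩
      · intro e
        exact p.2.1.ne (Sum.inl_injective (Sum.inl_injective e))
      · rw [hw1, hw1, hw1]
        exact ed_bb h hA p

/-- **Classification.** -/
theorem classify (h : Nice b) (h' : Nice b') {X : Type} [LinearOrder X] {r : X → W} {r' : X → W'}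
    (hr : Rep b r) (hr' : Rep b' r') (A : X → X → Prop)
    (hA : ∀ x y, A x y ↔ Adj b (r x) (r y)) (hA' : ∀ x y, A x y ↔ Adj b' (r' x) (r' y))
    (hI : Module.rank (ZMod 3) (W ⧸ SP b) = Module.rank (ZMod 3) (W' ⧸ SP b'))
    (hJ : Module.rank (ZMod 3) (Z ⧸ SQ b) = Module.rank (ZMod 3) (Z' ⧸ SQ b')) :
    ∃ (φ : W ≃ₗ[ZMod 3] W') (ψ : Z ≃ₗ[ZMod 3] Z'), ∀ x y, ψ (b x y) = b' (φ x) (φ y) := by
  classical
  let bI := Module.Basis.ofVectorSpace (ZMod 3) (W ⧸ SP b)
  let bI0 := Module.Basis.ofVectorSpace (ZMod 3) (W' ⧸ SP b')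
  obtain ⟨eI⟩ : Nonempty (_ ≃ _) :=
    Cardinal.eq.1 ((bI.mk_eq_rank''.trans hI).trans bI0.mk_eq_rank''.symm)
  let bI' := bI0.reindex eI.symm
  let bJ := Module.Basis.ofVectorSpace (ZMod 3) (Z ⧸ SQ b)
  let bJ0 := Module.Basis.ofVectorSpace (ZMod 3) (Z' ⧸ SQ b')
  obtain ⟨eJ⟩ : Nonempty (_ ≃ _) :=
    Cardinal.eq.1 ((bJ.mk_eq_rank''.trans hJ).trans bJ0.mk_eq_rank''.symm)
  let bJ' := bJ0.reindex eJ.symm
  let _ : LinearOrder ((X ⊕ EI A) ⊕ Module.Basis.ofVectorSpaceIndex (ZMod 3) (W ⧸ SP b)) :=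
    linearOrderOfSTO (WellOrderingRel
      (α := (X ⊕ EI A) ⊕ Module.Basis.ofVectorSpaceIndex (ZMod 3) (W ⧸ SP b)))
  obtain ⟨w, hw, hl, hs⟩ := exists_basis h hr hA bI
  obtain ⟨w', hw', hl', hs'⟩ := exists_basis h' hr' hA' bI'
  obtain ⟨z, hz, -⟩ := basisQ hl hs bJ
  obtain ⟨z', hz', -⟩ := basisQ hl' hs' bJ'
  let φ : W ≃ₗ[ZMod 3] W' := w.equiv w' (Equiv.refl _)
  let ψ : Z ≃ₗ[ZMod 3] Z' := z.equiv z' (Equiv.refl _)
  have hφ : ∀ k, φ (w k) = w' k := fun k => by simp [φ]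
  have hψ : ∀ s, ψ (gen b w (Set.range Sum.inl) s) = gen b' w' (Set.range Sum.inl) s :=
    fun s => by
      rw [← hz, ← hz']
      simp [ψ]
  have hne : ∀ i j, i ≠ j → ψ (b (w i) (w j)) = b' (w' i) (w' j) := by
    intro i j hij
    rcases lt_or_gt_of_ne hij with h1 | h1
    · exact hψ (Sum.inl ⟨(i, j), h1⟩)
    · rw [h.symm, h'.symm]
      exact hψ (Sum.inl ⟨(j, i), h1⟩)
  refine ⟨φ, ψ, fun x y => ?_⟩
  have h1 : b.compr₂ (ψ : Z →ₗ[ZMod 3] Z') =
      b'.compl₁₂ (φ : W →ₗ[ZMod 3] W') (φ : W →ₗ[ZMod 3] W') := by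
    refine LinearMap.ext_basis w w fun i j => ?_
    show ψ (b (w i) (w j)) = b' (φ (w i)) (φ (w j))
    rw [hφ, hφ]
    by_cases hij : i = j
    · subst hij
      rcases i with (x | p) | i
      · rw [hw, hw']
        show ψ (b (r x) (r x)) = b' (r' x) (r' x)
        rw [(hr.vv x).2, (hr'.vv x).2, map_zero]
      · rw [hw, hw']
        show ψ (b (ed h hA p) (ed h hA p)) = b' (ed h' hA' p) (ed h' hA' p)
        rw [ed_bb, ed_bb, map_smul]
        congr 1
        have h2 := hne (Sum.inl (Sum.inl p.1.1.1)) (Sum.inl (Sum.inl p.1.1.2)) (fun e =>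
          p.2.1.ne (Sum.inl_injective (Sum.inl_injective e)))
        rw [hw, hw, hw', hw'] at h2
        exact h2
      · exact hψ (Sum.inr ⟨Sum.inr i, fun ⟨k, hk⟩ => by simp at hk⟩)
    · exact hne i j hij
  exact LinearMap.congr_fun (LinearMap.congr_fun h1 x) y

end Pool.Agent.H4.VR
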